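import Pool.Agent.Work.MP_6bf1e5_an.Mat.Defs
import Pool.Agent.Work.MP_6bf1e5_an.Ens.Tens
import Pool.Agent.Work.MP_6bf1e5_an.Mat.DataA
import Pool.Agent.Work.MP_6bf1e5_an.Mat.DataB
import Pool.Agent.Work.MP_6bf1e5_an.Mat.DataC
import Pool.Agent.Work.MP_6bf1e5_an.Mat.DataD

-- merged part: Pool.Agent.Work.MP_6bf1e5_an.Mat.Jord
section
/-!
The structure tensor. `∑ b, X b.1 b.2 • Sb b = X` for symmetric `X`, and `trace (Sb a * M) = (M a.1 a.2 + M a.2 a.1) / 2`.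
`cJ_embed`: the entries of `Sb` of an embedded index vanish outside the upper left block; `cJ_out`: if an index of `a` is
at least `3` then the product of the embedded matrices has no entry there.
-/

open scoped ContDiff ENNReal FourierTransform Topology ComplexConjugate Matrix
open Set MeasureTheory Filter Metric Pool.Agent.Work.MP_6bf1e5_an.Ens

namespace Pool.Agent.Work.MP_6bf1e5_an.Mat

noncomputable section

variable {n : ℕ}

theorem jord_swap (a : Fin n × Fin n) : Sb a.swap = Sb a := by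
  ext r s
  simp only [Sb, Prod.fst_swap, Prod.snd_swap]
  rw [add_comm]

theorem jord_transpose (a : Fin n × Fin n) : (Sb a)ᵀ = Sb a := by
  ext r s
  simp only [Sb, Matrix.transpose_apply]
  rw [add_comm]
  simp only [and_comm]

theorem jord_single (a : Fin n × Fin n) :
    Sb a = (1 / 2 : ℝ) • (Matrix.single a.1 a.2 (1 : ℝ) + Matrix.single a.2 a.1 (1 : ℝ)) := by
  ext r s
  simp only [Sb, Matrix.smul_apply, Matrix.add_apply, Matrix.single_apply, smul_eq_mul,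
    @eq_comm _ r, @eq_comm _ s]
  ring

theorem jord_trace (a : Fin n × Fin n) (M : Mn n) :
    (Sb a * M).trace = (M a.1 a.2 + M a.2 a.1) / 2 := by
  rw [jord_single, Matrix.smul_mul, Matrix.trace_smul, Matrix.add_mul, Matrix.trace_add,
    Matrix.trace_single_mul, Matrix.trace_single_mul]
  simp only [smul_eq_mul]
  ring

theorem jord_sum {X : Mn n} (hX : X.IsSymm) : ∑ b : Fin n × Fin n, X b.1 b.2 • Sb b = X := by
  ext r s
  simp only [Matrix.sum_apply, Matrix.smul_apply, Sb, smul_eq_mul, Fintype.sum_prod_type]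
  have h1 : ∀ i j : Fin n, X i j * (((if r = i ∧ s = j then (1 : ℝ) else 0)
      + (if r = j ∧ s = i then 1 else 0)) / 2)
      = (if r = i then if s = j then X i j / 2 else 0 else 0)
        + (if s = i then if r = j then X i j / 2 else 0 else 0) := by
    intro i j
    simp only [← ite_and, @and_comm (s = i)]
    split_ifs <;> ring
  simp only [h1, Finset.sum_add_distrib]
  have h2 : ∀ (p q : Fin n), (∑ i : Fin n, ∑ j : Fin n,
      (if p = i then if q = j then X i j / 2 else 0 else 0)) = X p q / 2 := by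
    intro p q
    rw [Finset.sum_eq_single p]
    · simp
    · intro i _ hi
      simp [hi.symm]
    · simp
  rw [h2, h2, hX.apply r s]
  ring

theorem cJ_sym (a b d : Fin n × Fin n) : cJ n a b d = cJ n d b a := by
  unfold cJ
  rw [← Matrix.trace_transpose, Matrix.transpose_mul, Matrix.transpose_mul, jord_transpose,
    jord_transpose, jord_transpose, Matrix.mul_assoc]

theorem cJ_swap1 (a b d : Fin n × Fin n) : cJ n a.swap b d = cJ n a b d := by
  unfold cJ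
  rw [jord_swap]

theorem cJ_swap2 (a b d : Fin n × Fin n) : cJ n a b.swap d = cJ n a b d := by
  unfold cJ
  rw [jord_swap]

theorem cJ_swap3 (a b d : Fin n × Fin n) : cJ n a b d.swap = cJ n a b d := by
  unfold cJ
  rw [jord_swap]

theorem cJ_contract {X Y : Mn n} (hX : X.IsSymm) (hY : Y.IsSymm) (a : Fin n × Fin n) :
    ∑ b, ∑ d, cJ n a b d * (X b.1 b.2 * Y d.1 d.2) = (X * Y + Y * X) a.1 a.2 / 2 := by
  have h1 : ∑ b, ∑ d, cJ n a b d * (X b.1 b.2 * Y d.1 d.2) = (Sb a * (X * Y)).trace := by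
    conv_rhs => rw [← jord_sum hX, ← jord_sum hY]
    rw [Finset.sum_mul_sum, Finset.mul_sum, Matrix.trace_sum]
    refine Finset.sum_congr rfl fun b _ => ?_
    rw [Finset.mul_sum, Matrix.trace_sum]
    refine Finset.sum_congr rfl fun d _ => ?_
    rw [Matrix.smul_mul, Matrix.mul_smul, Matrix.mul_smul, Matrix.mul_smul, Matrix.trace_smul,
      Matrix.trace_smul, cJ, Matrix.mul_assoc]
    simp only [smul_eq_mul]
    ring
  rw [h1, jord_trace, Matrix.add_apply]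
  have h2 : (X * Y) a.2 a.1 = (Y * X) a.1 a.2 := by
    rw [← Matrix.transpose_apply (X * Y), Matrix.transpose_mul, hX.eq, hY.eq]
  rw [h2]

theorem jord_prod (b d : Fin n × Fin n) (r s : Fin n) :
    (Sb b * Sb d) r s = ((if r = b.1 then Sb d b.2 s else 0) + (if r = b.2 then Sb d b.1 s else 0)) / 2 := by
  rw [jord_single b, Matrix.smul_mul, Matrix.add_mul, Matrix.smul_apply, Matrix.add_apply]
  have h : ∀ p q : Fin n, (Matrix.single p q (1 : ℝ) * Sb d) r s = if r = p then Sb d q s else 0 := by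
    intro p q
    split_ifs with h
    · subst h
      rw [Matrix.single_mul_apply_same, one_mul]
    · exact Matrix.single_mul_apply_of_ne _ _ _ _ _ h _
  rw [h, h, smul_eq_mul]
  ring

theorem jord_Sb_embed (hn : 3 ≤ n) (d : Fin 3 × Fin 3) (r s : Fin 3) :
    Sb (d.map (Fin.castLE hn) (Fin.castLE hn)) (Fin.castLE hn r) (Fin.castLE hn s) = Sb d r s := by
  simp only [Sb, Prod.map_fst, Prod.map_snd, Fin.castLE_inj]

theorem jord_prod_embed (hn : 3 ≤ n) (b d : Fin 3 × Fin 3) (r s : Fin 3) :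
    (Sb (b.map (Fin.castLE hn) (Fin.castLE hn)) * Sb (d.map (Fin.castLE hn) (Fin.castLE hn)))
      (Fin.castLE hn r) (Fin.castLE hn s) = (Sb b * Sb d) r s := by
  rw [jord_prod, jord_prod]
  simp only [Prod.map_fst, Prod.map_snd, Fin.castLE_inj, jord_Sb_embed]

theorem cJ_embed (hn : 3 ≤ n) (a b d : Fin 3 × Fin 3) :
    cJ n (a.map (Fin.castLE hn) (Fin.castLE hn)) (b.map (Fin.castLE hn) (Fin.castLE hn))
      (d.map (Fin.castLE hn) (Fin.castLE hn)) = cJ 3 a b d := by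
  unfold cJ
  rw [Matrix.mul_assoc, Matrix.mul_assoc, jord_trace, jord_trace]
  simp only [Prod.map_fst, Prod.map_snd, jord_prod_embed]

theorem jord_prod_out (hn : 3 ≤ n) (b d : Fin 3 × Fin 3) {r s : Fin n}
    (h : (∀ i, r ≠ Fin.castLE hn i) ∨ ∀ i, s ≠ Fin.castLE hn i) :
    (Sb (b.map (Fin.castLE hn) (Fin.castLE hn)) * Sb (d.map (Fin.castLE hn) (Fin.castLE hn)))
      r s = 0 := by
  rw [jord_prod]
  rcases h with h | h
  · simp [h]
  · simp [Sb, h]

theorem cJ_out (hn : 3 ≤ n) {a : Fin n × Fin n}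
    (ha : ∀ p : Fin 3 × Fin 3, a ≠ p.map (Fin.castLE hn) (Fin.castLE hn)) (b d : Fin 3 × Fin 3) :
    cJ n a (b.map (Fin.castLE hn) (Fin.castLE hn)) (d.map (Fin.castLE hn) (Fin.castLE hn)) = 0 := by
  have h : (∀ i, a.1 ≠ Fin.castLE hn i) ∨ ∀ i, a.2 ≠ Fin.castLE hn i := by
    by_contra hc
    push Not at hc
    obtain ⟨⟨i, hi⟩, j, hj⟩ := hc
    exact ha (i, j) (Prod.ext hi hj)
  unfold cJ
  rw [Matrix.mul_assoc, jord_trace, jord_prod_out hn b d h, jord_prod_out hn b d h.symm]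
  simp

theorem jord_pd_zero (j : Fin 3) : pd j (fun _ : R3 => (0 : ℝ)) = fun _ => 0 := by
  funext y
  simp [pd]

theorem jord_pds_zero (l : List (Fin 3)) : pds l (fun _ : R3 => (0 : ℝ)) = fun _ => 0 := by
  induction l with
  | nil => rfl
  | cons j l ih => rw [pds, jord_pd_zero, ih]

theorem jord_sy_zero (m : ℤ) : Sy m fun _ : R3 => (0 : ℝ) :=
  ⟨fun _ => contDiff_const, fun l => ⟨0, fun _ y => by simp [jord_pds_zero]⟩⟩

theorem jord_sum_ext {ι κ : Type} [Fintype ι] [Fintype κ] {e : ι → κ}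
    (he : Function.Injective e) (f : κ → ℝ) (hf : ∀ k, (∀ a, k ≠ e a) → f k = 0) :
    ∑ k, f k = ∑ a, f (e a) := by
  classical
  rw [← Finset.sum_image (s := Finset.univ) (g := e) (f := f) fun x _ y _ h => he h]
  refine (Finset.sum_subset (Finset.subset_univ _) fun k _ hk => hf k fun a ha => hk ?_).symm
  exact Finset.mem_image.2 ⟨a, Finset.mem_univ _, ha.symm⟩

/-- Extension by zero along an injective map of index sets. -/
theorem PhysProfile.embed {ι κ : Type} [Fintype ι] [Fintype κ] {ν : ℝ} {c : ι → ι → ι → ℝ}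
    {c' : κ → κ → κ → ℝ} {W : ι → R3 → R3} (h : PhysProfile ν c W) {e : ι → κ}
    (he : Function.Injective e) (h1 : ∀ a b d, c' (e a) (e b) (e d) = c a b d)
    (h2 : ∀ k, (∀ a, k ≠ e a) → ∀ b d, c' k (e b) (e d) = 0) :
    PhysProfile ν c' (Function.extend e W 0) := by
  have hin : ∀ a, Function.extend e W 0 (e a) = W a := fun a => he.extend_apply W 0 a
  have hout : ∀ k, (∀ a, k ≠ e a) → Function.extend e W 0 k = 0 := fun k hk =>
    Function.extend_apply' W (0 : κ → R3 → R3) k fun ⟨a, ha⟩ => hk a ha.symm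
  have hcases : ∀ k, (∃ a, k = e a) ∨ ∀ a, k ≠ e a := fun k => by
    by_cases hk : ∃ a, k = e a
    · exact Or.inl hk
    · exact Or.inr fun a ha => hk ⟨a, ha⟩
  have hsum : ∀ k y i, ∑ b, ∑ d, c' k b d * ∑ j, Function.extend e W 0 b y j *
      pd j (fun z => Function.extend e W 0 d z i) y
      = ∑ b, ∑ d, c' k (e b) (e d) * ∑ j, W b y j * pd j (fun z => W d z i) y := by
    intro k y i
    rw [jord_sum_ext he]
    · refine Finset.sum_congr rfl fun b _ => ?_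
      rw [jord_sum_ext he]
      · simp only [hin]
      · intro d hd
        simp [hout d hd, jord_pd_zero]
    · intro b hb
      simp [hout b hb]
  refine ⟨fun k i => ?_, fun k y => ?_, fun k => ?_, fun h0 => h.ne ?_⟩
  · rcases hcases k with ⟨a, rfl⟩ | hk
    · rw [hin]
      exact h.sy a i
    · rw [hout k hk]
      exact jord_sy_zero _
  · rcases hcases k with ⟨a, rfl⟩ | hk
    · rw [hin]
      exact h.div a y
    · rw [hout k hk]
      simp [jord_pd_zero]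
  · rcases hcases k with ⟨a, rfl⟩ | hk
    · obtain ⟨P, hP, hE⟩ := h.eqn a
      refine ⟨P, hP, fun y i => ?_⟩
      rw [hsum, hin]
      simp only [h1]
      exact hE y i
    · refine ⟨fun _ => 0, contDiff_const, fun y i => ?_⟩
      rw [hsum, hout k hk]
      simp [h2 k hk, jord_pd_zero, lap]
  · funext a
    rw [← hin a, h0]
    rfl

end

end Pool.Agent.Work.MP_6bf1e5_an.Mat
end

-- merged part: Pool.Agent.Work.MP_6bf1e5_an.Mat.TensF
section
/-!
The transport term. Either expand with `tensE`, `tens_tau`, `tens_unit` of Ens/Tens.lean (`Sb p = Am p.1 p.2 + δ / 3`, and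
`∑ p, Am p p = 0`), or use `cJ_contract` for each `j` with the symmetric matrices `X p q = FF (Am p q) a b y j`,
`Y p q = pd j (FF (Am p q) a b · i) y`, then `pd_FF`, `tens_mv`, `tens_qf`, case distinction and `ring`.
-/

open scoped ContDiff ENNReal FourierTransform Topology ComplexConjugate Matrix
open Set MeasureTheory Filter Metric Pool.Agent.Work.MP_6bf1e5_an.Ens

namespace Pool.Agent.Work.MP_6bf1e5_an.Mat

noncomputable section

theorem tensf_expand {a b : ℝ → ℝ} (ha : ContDiff ℝ ∞ a) (hb : ContDiff ℝ ∞ b)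
    {B C : Matrix (Fin 3) (Fin 3) ℝ} (hC : ∀ i j, C i j = C j i) (y : R3) (i : Fin 3) :
    ∑ j, FF B a b y j * pd j (fun z => FF C a b z i) y =
      tensE (2 * deriv a (‖y‖ ^ 2) * (a (‖y‖ ^ 2) + ‖y‖ ^ 2 * b (‖y‖ ^ 2))
          + a (‖y‖ ^ 2) * b (‖y‖ ^ 2))
        (b (‖y‖ ^ 2) * a (‖y‖ ^ 2)) (a (‖y‖ ^ 2) * a (‖y‖ ^ 2))
        (2 * deriv b (‖y‖ ^ 2) * (a (‖y‖ ^ 2) + ‖y‖ ^ 2 * b (‖y‖ ^ 2))
          + 3 * (b (‖y‖ ^ 2) * b (‖y‖ ^ 2)))
        (2 * (b (‖y‖ ^ 2) * a (‖y‖ ^ 2))) B C y i := by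
  simp only [pd_FF hC ha hb]
  simp only [FF]
  generalize a (‖y‖ ^ 2) = a0
  generalize b (‖y‖ ^ 2) = b0
  generalize deriv a (‖y‖ ^ 2) = a1
  generalize deriv b (‖y‖ ^ 2) = b1
  simp only [tensE, tens_norm, qf, Fin.sum_univ_three]
  fin_cases i <;> simp <;> ring

theorem tensf_tr {A : Matrix (Fin 3) (Fin 3) ℝ} (hs : ∀ i j, A i j = A j i) (p q r s : Fin 3) :
    (A * Sb (p, q) * Sb (r, s)).trace =
      ((if q = r then A p s else 0) + (if q = s then A p r else 0) + (if p = r then A q s else 0)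
        + if p = s then A q r else 0) / 4 := by
  have h1 := hs 1 0
  have h2 := hs 2 0
  have h3 := hs 2 1
  fin_cases p <;> fin_cases q <;> fin_cases r <;> fin_cases s <;>
    simp [Sb, Fin.sum_univ_three, Matrix.trace, Matrix.mul_apply, h1, h2, h3] <;> ring

theorem tensf_tau {A : Matrix (Fin 3) (Fin 3) ℝ} (hs : ∀ i j, A i j = A j i)
    (c1 c2 c3 c4 c5 : ℝ) (y : R3) (i : Fin 3) :
    ∑ b : Fin 3 × Fin 3, ∑ d : Fin 3 × Fin 3, (A * Sb b * Sb d).trace *
      tensE c1 c2 c3 c4 c5 (Am b.1 b.2) (Am d.1 d.2) y i =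
      ((c1 + c2) * ‖y‖ ^ 2 / 6 + 7 / 12 * c3) * (∑ k, A i k * y k - (∑ k, A k k) / 3 * y i)
        + ((c1 + c2) / 6 + c4 * ‖y‖ ^ 2 / 3 + 7 / 12 * c5) *
          (qf A y - (∑ k, A k k) / 3 * ‖y‖ ^ 2) * y i
        + (∑ k, A k k) / 3 * ((2 / 3 * (c1 + c2) * ‖y‖ ^ 2 + 5 / 3 * c3 + 2 / 3 * c4 * (‖y‖ ^ 2) ^ 2
          + 5 / 3 * c5 * ‖y‖ ^ 2) * y i) := by
  have h1 := hs 1 0
  have h2 := hs 2 0
  have h3 := hs 2 1
  simp only [Fintype.sum_prod_type, tensf_tr hs, tensE, tens_qf, tens_mv]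
  simp only [qf, tens_norm, Fin.sum_univ_three]
  fin_cases i <;> simp [Am, h1, h2, h3] <;> ring

theorem tensf_symm (p : Fin 3 × Fin 3) (i j : Fin 3) : Sb p i j = Sb p j i := by
  obtain ⟨p, q⟩ := p
  fin_cases p <;> fin_cases q <;> fin_cases i <;> fin_cases j <;> simp [Sb]

theorem tensf_trace (p : Fin 3 × Fin 3) : ∑ k, Sb p k k = if p.1 = p.2 then 1 else 0 := by
  obtain ⟨p, q⟩ := p
  fin_cases p <;> fin_cases q <;> simp [Sb, Fin.sum_univ_three]

theorem tensf_mv (p : Fin 3 × Fin 3) (y : R3) (i : Fin 3) :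
    ∑ k, Sb p i k * y k - (∑ k, Sb p k k) / 3 * y i = ∑ k, Am p.1 p.2 i k * y k := by
  obtain ⟨p, q⟩ := p
  fin_cases p <;> fin_cases q <;> fin_cases i <;> simp [Sb, Am, Fin.sum_univ_three] <;> ring

theorem tensf_qf (p : Fin 3 × Fin 3) (y : R3) :
    qf (Sb p) y - (∑ k, Sb p k k) / 3 * ‖y‖ ^ 2 = qf (Am p.1 p.2) y := by
  obtain ⟨p, q⟩ := p
  rw [tens_norm]
  fin_cases p <;> fin_cases q <;> simp [qf, Sb, Am, Fin.sum_univ_three] <;> ring

theorem contract_FF {a b : ℝ → ℝ} (ha : ContDiff ℝ ∞ a) (hb : ContDiff ℝ ∞ b) (p : Fin 3 × Fin 3)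
    (y : R3) (i : Fin 3) :
    ∑ q : Fin 3 × Fin 3, ∑ r : Fin 3 × Fin 3, cJ 3 p q r *
      ∑ j, FF (Am q.1 q.2) a b y j * pd j (fun z => FF (Am r.1 r.2) a b z i) y
      = FF (Am p.1 p.2) (nlA a b) (nlB a b) y i
        + if p.1 = p.2 then nlR a b (‖y‖ ^ 2) / 3 * y i else 0 := by
  simp only [tensf_expand ha hb (Am_symm _ _), cJ]
  rw [tensf_tau (tensf_symm p), tensf_mv, tensf_qf, tensf_trace]
  change _ = nlA a b (‖y‖ ^ 2) * _ + nlB a b (‖y‖ ^ 2) * _ * _ + _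
  simp only [nlA, nlB, nlR]
  split_ifs <;> ring

end

end Pool.Agent.Work.MP_6bf1e5_an.Mat
end

-- merged part: Pool.Agent.Work.MP_6bf1e5_an.Mat.Outer
section
/-!
The shooting argument. Variables `(g, ρ, w) = (g, J / g, -z G / J)`, field
`g' = g (ρ - 10) / (4 z)`, `ρ' = ρ (10 - ρ - 4 w) / (4 z)`, `w' = (w² - 3 w / 2) / z + ((1 + g) w - 1 - ρ g / 8) / 4`,
clamped to `[-1/2, 0] × [4, 8] × [1, 3/2]` (`exists_flow`). The first two components stay in their intervals (`stay_le`,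
`stay_ge`); `w > 3/2` and `w < 1` persist (`stay_gt`, `stay_lt`). The sets of `y` for which `w` is somewhere `< 1`,
respectively `> 3/2`, are relatively open, disjoint and nonempty, so some `y` is in neither (`isPreconnected_Icc`).
Then put `J = ρ g`, `G = -w J / z`; `z J` is nondecreasing and nonpositive.
-/

open scoped ContDiff Topology
open Set Filter

namespace Pool.Agent.Work.MP_6bf1e5_an.Mat

noncomputable section

/-- The field in the variables `(g, ρ, w)`. -/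
def outerF (z : ℝ) (x : T3) : T3 :=
  (x.1 * (x.2.1 - 10) / (4 * z), x.2.1 * (10 - x.2.1 - 4 * x.2.2) / (4 * z),
    (x.2.2 ^ 2 - 3 / 2 * x.2.2) / z + ((1 + x.1) * x.2.2 - 1 - x.2.1 * x.1 / 8) / 4)

theorem outer_smooth : ContDiffOn ℝ 1 (fun p : ℝ × T3 => outerF p.1 p.2) (Ioi 0 ×ˢ univ) := by
  have h1 : ∀ p ∈ (Ioi 0 ×ˢ univ : Set (ℝ × T3)), p.1 ≠ 0 := fun p hp => ne_of_gt hp.1
  have h2 : ∀ p ∈ (Ioi 0 ×ˢ univ : Set (ℝ × T3)), 4 * p.1 ≠ 0 := fun p hp =>
    mul_ne_zero four_ne_zero (h1 p hp)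
  unfold outerF
  refine ContDiffOn.prodMk (ContDiffOn.div (by fun_prop) (by fun_prop) h2)
    (ContDiffOn.prodMk (ContDiffOn.div (by fun_prop) (by fun_prop) h2)
      (ContDiffOn.add (ContDiffOn.div (by fun_prop) (by fun_prop) h1) (by fun_prop)))

/-- A solution of the clamped equation on `[Z, ∞)`. -/
def OuterSol (Z : ℝ) (φ : ℝ → T3) : Prop :=
  ∀ t, Z ≤ t → HasDerivWithinAt φ (outerF t (cl3 (-(1 / 2), 4, 1) (0, 8, 3 / 2) (φ t))) (Ici Z) t

section

variable {Z : ℝ} {φ : ℝ → T3}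

theorem OuterSol.d1 (h : OuterSol Z φ) (t : ℝ) (ht : Z ≤ t) : HasDerivWithinAt (fun t => (φ t).1)
    (outerF t (cl3 (-(1 / 2), 4, 1) (0, 8, 3 / 2) (φ t))).1 (Ici Z) t :=
  (ContinuousLinearMap.fst ℝ ℝ (ℝ × ℝ)).hasFDerivAt.comp_hasDerivWithinAt t (h t ht)

theorem OuterSol.d23 (h : OuterSol Z φ) (t : ℝ) (ht : Z ≤ t) : HasDerivWithinAt (fun t => (φ t).2)
    (outerF t (cl3 (-(1 / 2), 4, 1) (0, 8, 3 / 2) (φ t))).2 (Ici Z) t :=
  (ContinuousLinearMap.snd ℝ ℝ (ℝ × ℝ)).hasFDerivAt.comp_hasDerivWithinAt t (h t ht)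

theorem OuterSol.d2 (h : OuterSol Z φ) (t : ℝ) (ht : Z ≤ t) : HasDerivWithinAt (fun t => (φ t).2.1)
    (outerF t (cl3 (-(1 / 2), 4, 1) (0, 8, 3 / 2) (φ t))).2.1 (Ici Z) t :=
  (ContinuousLinearMap.fst ℝ ℝ ℝ).hasFDerivAt.comp_hasDerivWithinAt t (h.d23 t ht)

theorem OuterSol.d3 (h : OuterSol Z φ) (t : ℝ) (ht : Z ≤ t) : HasDerivWithinAt (fun t => (φ t).2.2)
    (outerF t (cl3 (-(1 / 2), 4, 1) (0, 8, 3 / 2) (φ t))).2.2 (Ici Z) t :=
  (ContinuousLinearMap.snd ℝ ℝ ℝ).hasFDerivAt.comp_hasDerivWithinAt t (h.d23 t ht)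

theorem OuterSol.g_mem (h : OuterSol Z φ) (hZ : 0 < Z) (h0 : (φ Z).1 ∈ Icc (-(1 / 2)) 0) (t : ℝ)
    (ht : Z ≤ t) : (φ t).1 ∈ Icc (-(1 / 2)) 0 := by
  refine ⟨stay_ge h.d1 h0.1 (fun s hs h1 => ?_) t ht, stay_le h.d1 h0.2 (fun s hs h1 => ?_) t ht⟩
  · have h2 := cl_mem (show (4 : ℝ) ≤ 8 by norm_num) (φ s).2.1
    simp only [outerF, cl3]
    rw [cl_of_le (by norm_num) h1.le]
    exact div_nonneg (by linarith only [h2, h2.2]) (by linarith only [hZ, hs])
  · simp only [outerF, cl3]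
    rw [cl_of_ge (by norm_num) h1.le]
    simp

theorem OuterSol.r_mem (h : OuterSol Z φ) (hZ : 0 < Z) (h0 : (φ Z).2.1 ∈ Icc 4 8) (t : ℝ)
    (ht : Z ≤ t) : (φ t).2.1 ∈ Icc 4 8 := by
  refine ⟨stay_ge h.d2 h0.1 (fun s hs h1 => ?_) t ht, stay_le h.d2 h0.2 (fun s hs h1 => ?_) t ht⟩
  · have h2 := cl_mem (show (1 : ℝ) ≤ 3 / 2 by norm_num) (φ s).2.2
    simp only [outerF, cl3]
    rw [cl_of_le (by norm_num) h1.le]
    exact div_nonneg (by linarith only [h2, h2.2]) (by linarith only [hZ, hs])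
  · have h2 := cl_mem (show (1 : ℝ) ≤ 3 / 2 by norm_num) (φ s).2.2
    simp only [outerF, cl3]
    rw [cl_of_ge (by norm_num) h1.le]
    exact div_nonpos_of_nonpos_of_nonneg (by linarith only [h2, h2.1]) (by linarith)

theorem OuterSol.w_gt (h : OuterSol Z φ) {s : ℝ} (hs : Z ≤ s) (h0 : 3 / 2 < (φ s).2.2) (t : ℝ)
    (ht : s ≤ t) : 3 / 2 < (φ t).2.2 := by
  refine stay_gt h.d3 hs h0 (fun r _ h1 => ?_) t ht
  have h2 := cl_mem (show (4 : ℝ) ≤ 8 by norm_num) (φ r).2.1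
  have h3 := cl_mem (show (-(1 / 2) : ℝ) ≤ 0 by norm_num) (φ r).1
  simp only [outerF, cl3]
  rw [cl_of_ge (by norm_num) h1.le, show ((3 / 2 : ℝ) ^ 2 - 3 / 2 * (3 / 2)) / r = 0 by norm_num]
  linarith only [h3, h2, h2.1, h2.2, h3.1, h3.2, mul_nonneg (sub_nonneg.2 h2.1) (neg_nonneg.2 h3.2)]

theorem OuterSol.w_lt (h : OuterSol Z φ) (hZ : 0 < Z) {s : ℝ} (hs : Z ≤ s) (h0 : (φ s).2.2 < 1)
    (t : ℝ) (ht : s ≤ t) : (φ t).2.2 < 1 := by
  refine stay_lt h.d3 hs h0 (fun r hr h1 => ?_) t ht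
  have h2 := cl_mem (show (4 : ℝ) ≤ 8 by norm_num) (φ r).2.1
  have h3 := cl_mem (show (-(1 / 2) : ℝ) ≤ 0 by norm_num) (φ r).1
  have h4 : ((1 : ℝ) ^ 2 - 3 / 2 * 1) / r ≤ 0 :=
    div_nonpos_of_nonpos_of_nonneg (by norm_num) (by linarith)
  simp only [outerF, cl3]
  rw [cl_of_le (by norm_num) h1.le]
  linarith only [h4, h2, h3, mul_nonneg (sub_nonneg.2 h2.2) (neg_nonneg.2 h3.2)]

theorem OuterSol.back (h : OuterSol Z φ) (hZ : 0 < Z) (hg : ∀ t, Z ≤ t → (φ t).1 ∈ Icc (-(1 / 2)) 0)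
    (hr : ∀ t, Z ≤ t → (φ t).2.1 ∈ Icc 4 8) (hw : ∀ t, Z ≤ t → (φ t).2.2 ∈ Icc 1 (3 / 2)) :
    ∃ g J G : ℝ → ℝ, g Z = (φ Z).1 ∧ J Z = (φ Z).2.1 * (φ Z).1 ∧ G Z = -((φ Z).2.2 * J Z) / Z ∧
      (∀ z, Z ≤ z → HasDerivWithinAt g (fg z (g z) (J z)) (Ici Z) z ∧
        HasDerivWithinAt J (G z) (Ici Z) z ∧
        HasDerivWithinAt G (fG z (g z) (J z) (G z)) (Ici Z) z) ∧ Tail Z g J G := by
  have e : ∀ t, Z ≤ t → cl3 (-(1 / 2), 4, 1) (0, 8, 3 / 2) (φ t) = φ t := fun t ht => by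
    simp only [cl3]
    rw [cl_eq (hg t ht).1 (hg t ht).2, cl_eq (hr t ht).1 (hr t ht).2, cl_eq (hw t ht).1 (hw t ht).2]
  have hJ : ∀ z, Z ≤ z → HasDerivWithinAt (fun t => (φ t).2.1 * (φ t).1)
      (-((φ z).2.2 * ((φ z).2.1 * (φ z).1)) / z) (Ici Z) z := fun z hz => by
    have hz0 : z ≠ 0 := by linarith only [hZ, hz]
    refine ((h.d2 z hz).fun_mul (h.d1 z hz)).congr_deriv ?_
    rw [e z hz]
    simp only [outerF]
    field_simp
    ring
  have hJ0 : ∀ z, Z ≤ z → (φ z).2.1 * (φ z).1 ≤ 0 := fun z hz =>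
    mul_nonpos_of_nonneg_of_nonpos (by linarith only [hr, hz, (hr z hz).1]) (hg z hz).2
  refine ⟨fun t => (φ t).1, fun t => (φ t).2.1 * (φ t).1,
    fun t => -((φ t).2.2 * ((φ t).2.1 * (φ t).1)) / t, rfl, rfl, rfl,
    fun z hz => ⟨?_, hJ z hz, ?_⟩, 3 / 2 * -(Z * ((φ Z).2.1 * (φ Z).1)), fun z hz => ?_⟩
  · refine (h.d1 z hz).congr_deriv ?_
    rw [e z hz]
    simp only [outerF, fg]
    ring
  · have hz0 : z ≠ 0 := by linarith
    refine (((h.d3 z hz).fun_mul (hJ z hz)).fun_neg.fun_div (hasDerivWithinAt_id z _) hz0).congr_deriv ?_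
    rw [e z hz]
    simp only [outerF, fG, id]
    field_simp
    ring
  · have hz0 : 0 < z := by linarith
    have h1 := stay_ge (f := fun t => t * ((φ t).2.1 * (φ t).1))
      (fun t ht => (hasDerivWithinAt_id t _).fun_mul (hJ t ht)) le_rfl (fun t ht _ => by
        have ht0 : t ≠ 0 := by linarith
        rw [id, mul_div_cancel₀ _ ht0]
        linarith only [hJ0, ht, hw, hJ0 t ht, (hw t ht).1, mul_nonneg_of_nonpos_of_nonpos (Mathlib.Tactic.Linarith.sub_nonpos_of_le (hJ0 t ht)) (Mathlib.Tactic.Linarith.sub_nonpos_of_le (hw t ht).left)]) z hz.le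
    have h2 := hJ0 z hz.le
    have h3 := hg z hz.le
    have h4 := hr z hz.le
    have h5 := hw z hz.le
    have h6 : z * ((φ z).2.1 * (φ z).1) ≤ 0 := mul_nonpos_of_nonneg_of_nonpos hz0.le h2
    refine ⟨h3.1, ?_, ?_, ?_⟩
    · rw [abs_of_nonpos h3.2, le_div_iff₀ hz0]
      linarith only [h1, h6, hz0, h4, h3, mul_nonneg hz0.le (mul_nonneg (sub_nonneg.2 h4.1) (neg_nonneg.2 h3.2)),
        mul_nonneg hz0.le (neg_nonneg.2 h3.2)]
    · rw [abs_of_nonpos h2, le_div_iff₀ hz0]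
      linarith only [h1, h6]
    · rw [abs_of_nonneg (div_nonneg (by linarith only [h2, h5, h5.1, mul_nonneg_of_nonpos_of_nonpos (Mathlib.Tactic.Linarith.sub_nonpos_of_le h2) (Mathlib.Tactic.Linarith.sub_nonpos_of_le h5.left)]) hz0.le),
        div_le_div_iff₀ hz0 (by positivity), sq, ← mul_assoc]
      refine mul_le_mul_of_nonneg_right ?_ hz0.le
      linarith only [h1, h5, h6, mul_nonneg (sub_nonneg.2 h5.2) (neg_nonneg.2 h6)]

end

theorem exists_outer {Z y1 y2 : ℝ} (hZ : 0 < Z) (h12 : y1 ≤ y2) {g0 J0 G0 : ℝ → ℝ}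
    (hc : ContinuousOn (fun y => ((g0 y, J0 y, G0 y) : T3)) (Icc y1 y2))
    (hg : ∀ y ∈ Icc y1 y2, -(1 / 2) ≤ g0 y ∧ g0 y < 0 ∧ 8 * g0 y ≤ J0 y ∧ J0 y ≤ 4 * g0 y)
    (h1 : Z * G0 y1 < -J0 y1) (h2 : -(3 / 2 * J0 y2) < Z * G0 y2) :
    ∃ y ∈ Icc y1 y2, ∃ g J G : ℝ → ℝ, g Z = g0 y ∧ J Z = J0 y ∧ G Z = G0 y ∧
      (∀ z, Z ≤ z → HasDerivWithinAt g (fg z (g z) (J z)) (Ici Z) z ∧
        HasDerivWithinAt J (G z) (Ici Z) z ∧
        HasDerivWithinAt G (fG z (g z) (J z) (G z)) (Ici Z) z) ∧ Tail Z g J G := by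
  obtain ⟨Φ, h0, hd, hΦ⟩ := exists_flow outer_smooth (-(1 / 2), 4, 1) (0, 8, 3 / 2) hZ
  have hS : ∀ x, OuterSol Z (Φ x) := hd
  have hJ : ∀ y ∈ Icc y1 y2, J0 y < 0 := fun y hy => by linarith only [hg, hy, (hg y hy).2.1, (hg y hy).2.2.2]
  set x0 : ℝ → T3 := fun y => (g0 y, J0 y / g0 y, Z * G0 y / -J0 y) with hx0
  have hx : ContinuousOn x0 (Icc y1 y2) :=
    hc.fst.prodMk ((hc.snd.fst.div hc.fst fun y hy => (hg y hy).2.1.ne).prodMk
      ((continuousOn_const.mul hc.snd.snd).div hc.snd.fst.neg fun y hy =>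
        neg_ne_zero.2 (hJ y hy).ne))
  have hu : IsOpen (⋃ t ∈ Ici Z, {x | (Φ x t).2.2 < 1}) :=
    isOpen_biUnion fun t ht => isOpen_lt (hΦ t ht).snd.snd continuous_const
  have hv : IsOpen (⋃ t ∈ Ici Z, {x | 3 / 2 < (Φ x t).2.2}) :=
    isOpen_biUnion fun t ht => isOpen_lt continuous_const (hΦ t ht).snd.snd
  obtain ⟨y, hy, hw⟩ : ∃ y ∈ Icc y1 y2, ∀ t, Z ≤ t → (Φ (x0 y) t).2.2 ∈ Icc 1 (3 / 2) := by
    by_contra hn
    have k1 := left_mem_Icc.2 h12
    have k2 := right_mem_Icc.2 h12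
    obtain ⟨x, -, ha, hb⟩ := (isPreconnected_Icc.image x0 hx) _ _ hu hv (by
      rintro _ ⟨y, hy, rfl⟩
      by_contra hm
      refine hn ⟨y, hy, fun t ht => ⟨not_lt.1 fun h => hm (Or.inl ?_), not_lt.1 fun h => hm (Or.inr ?_)⟩⟩
      · exact mem_biUnion ht h
      · exact mem_biUnion ht h)
      ⟨x0 y1, mem_image_of_mem _ k1, mem_biUnion (le_refl Z) (by
        rw [mem_ofPred_eq, h0]
        exact (div_lt_one (neg_pos.2 (hJ y1 k1))).2 h1)⟩
      ⟨x0 y2, mem_image_of_mem _ k2, mem_biUnion (le_refl Z) (by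
        rw [mem_ofPred_eq, h0]
        exact (lt_div_iff₀ (neg_pos.2 (hJ y2 k2))).2 (by linarith only [h2]))⟩
    obtain ⟨s, hs, ha⟩ := mem_iUnion₂.1 ha
    obtain ⟨t, ht, hb⟩ := mem_iUnion₂.1 hb
    linarith only [hS, hZ, hs, ha, ht, hb, (hS x).w_lt hZ hs ha _ (le_max_left s t), (hS x).w_gt ht hb _ (le_max_right s t)]
  obtain ⟨k1, k2, k3, k4⟩ := hg y hy
  obtain ⟨g, J, G, e1, e2, e3, H⟩ := (hS (x0 y)).back hZ
    ((hS _).g_mem hZ (by rw [h0]; exact ⟨k1, k2.le⟩))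
    ((hS _).r_mem hZ (by rw [h0]; exact ⟨(le_div_iff_of_neg k2).2 k4, (div_le_iff_of_neg k2).2 k3⟩))
    hw
  rw [h0] at e1 e2 e3
  have e4 : J Z = J0 y := e2.trans (div_mul_cancel₀ _ k2.ne)
  refine ⟨y, hy, g, J, G, e1, e4, ?_, H⟩
  have := (hJ y hy).ne
  rw [e3, e4]
  simp only [hx0]
  field_simp

end

end Pool.Agent.Work.MP_6bf1e5_an.Mat
end

-- merged part: Pool.Agent.Work.MP_6bf1e5_an.Mat.Enc
section
/-!
The enclosure at the end of the chain.
-/

open scoped ContDiff Topology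
open Set Filter

namespace Pool.Agent.Work.MP_6bf1e5_an.Mat

noncomputable section

theorem eqA : last nodeA stepsA = nodeB := Node.ext_list lastA

theorem eqB : last nodeB stepsB = nodeC := Node.ext_list lastB

theorem eqC : last nodeC stepsC = nodeD := Node.ext_list lastC

theorem eqD : last nodeD stepsD = nodeD' := Node.ext_list lastD

theorem encl_start {s : ℝ} {g J G : ℝ → ℝ} (hs : |s| ≤ 1)
    (hi : Init (126568268695055330491600665489 / 79228162514264337593543950336 +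
      4357548938284538567 / 79228162514264337593543950336 * s) g J G) :
    nodeA.Encl s (g (nodeA.z / 32)) (J (nodeA.z / 32)) (G (nodeA.z / 32)) := by
  obtain ⟨h1, h2, h3⟩ := hi
  have hz : ((nodeA.z : ℤ) : ℝ) / 32 = 0 := by simp [nodeA]
  rw [hz, h1, h2, h3]
  obtain ⟨hs1, hs2⟩ := abs_le.1 hs
  have hq : s ^ 2 ≤ 1 := by linarith only [hs1, hs2, mul_nonneg_of_nonpos_of_nonpos (Mathlib.Tactic.Linarith.sub_nonpos_of_le hs1) (Mathlib.Tactic.Linarith.sub_nonpos_of_le hs2)]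
  have hq0 : 0 ≤ s ^ 2 := sq_nonneg s
  refine ⟨?_, ?_, ?_⟩
  · simp only [nodeA, SS]
    push_cast
    rw [abs_le]
    constructor <;> linarith only []
  · simp only [nodeA, SS]
    push_cast
    rw [abs_le]
    constructor <;> linarith only []
  · simp only [nodeA, SS]
    push_cast
    rw [abs_le]
    constructor <;> linarith only [hs1, hs2, hq, sq_nonneg s]

theorem encl_end {s : ℝ} {g J G : ℝ → ℝ} (h : InSol g J G) (hs : |s| ≤ 1)
    (he : nodeA.Encl s (g (nodeA.z / 32)) (J (nodeA.z / 32)) (G (nodeA.z / 32))) :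
    nodeD'.Encl s (g (10426 / 32)) (J (10426 / 32)) (G (10426 / 32)) ∧
      ∀ z ∈ Ioc (0 : ℝ) (10426 / 32), Box g J G z := by
  obtain ⟨eA, bA⟩ := run_sound h hs stepsA nodeA runA he
  rw [eqA] at eA bA
  obtain ⟨eB, bB⟩ := run_sound h hs stepsB nodeB runB eA
  rw [eqB] at eB bB
  obtain ⟨eC, bC⟩ := run_sound h hs stepsC nodeC runC eB
  rw [eqC] at eC bC
  obtain ⟨eD, bD⟩ := run_sound h hs stepsD nodeD runD eC
  rw [eqD] at eD bD
  have zA : ((nodeA.z : ℤ) : ℝ) / 32 = 0 := by simp [nodeA]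
  have zD : ((nodeD'.z : ℤ) : ℝ) / 32 = 10426 / 32 := by simp [nodeD']
  rw [zA] at bA
  rw [zD] at eD bD
  refine ⟨eD, fun z hz => ?_⟩
  by_cases h1 : z ≤ (nodeB.z : ℝ) / 32
  · exact bA z ⟨hz.1, h1⟩
  by_cases h2 : z ≤ (nodeC.z : ℝ) / 32
  · exact bB z ⟨not_le.1 h1, h2⟩
  by_cases h3 : z ≤ (nodeD.z : ℝ) / 32
  · exact bC z ⟨not_le.1 h2, h3⟩
  · exact bD z ⟨not_le.1 h3, hz.2⟩

theorem inner_end : ∃ y0 δ Z : ℝ, 0 < δ ∧ 3 / 2 ≤ y0 - δ ∧ y0 + δ ≤ 17 / 10 ∧ 100 ≤ Z ∧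
    ∀ (s : ℝ) (g J G : ℝ → ℝ), |s| ≤ 1 → InSol g J G → Init (y0 + δ * s) g J G →
      (∀ z ∈ Ioc 0 Z, Box g J G z) ∧ -(1 / 2) ≤ g Z ∧ g Z < 0 ∧ 8 * g Z ≤ J Z ∧ J Z ≤ 4 * g Z ∧
        (s = -1 → Z * G Z < -J Z) ∧ (s = 1 → -(3 / 2 * J Z) < Z * G Z) := by
  refine ⟨126568268695055330491600665489 / 79228162514264337593543950336,
    4357548938284538567 / 79228162514264337593543950336, 10426 / 32, by norm_num, by norm_num,
    by norm_num, by norm_num, fun s g J G hs h hi => ?_⟩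
  obtain ⟨⟨e1, e2, e3⟩, hb⟩ := encl_end h hs (encl_start hs hi)
  simp only [nodeD', SS] at e1 e2 e3
  push_cast at e1 e2 e3
  obtain ⟨hs1, hs2⟩ := abs_le.1 hs
  obtain ⟨a1, a2⟩ := abs_le.1 e1
  obtain ⟨b1, b2⟩ := abs_le.1 e2
  obtain ⟨c1, c2⟩ := abs_le.1 e3
  refine ⟨hb, by linarith only [hs1, a1], by linarith only [hs2, a2], by linarith only [hs1, a2, b1], by linarith only [hs2, a1, b2], ?_, ?_⟩
  · rintro rfl
    linarith only [b2, c2]
  · rintro rfl
    linarith only [b1, c1]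

end

end Pool.Agent.Work.MP_6bf1e5_an.Mat
end

-- merged part: Pool.Agent.Work.MP_6bf1e5_an.Mat.Glue
section
/-!
The global solution. Apply `exists_outer` to the values at `Z` of the family of `exists_inner` on
`[y0 - δ, y0 + δ]` (`inner_end` with `s = (y - y0) / δ`); use the inner solution for `z ≤ Z` and the outer one for
`z ≥ Z`. It satisfies `Eqs` at every `z > 0`, so `smSol_of_eqs` applies; near `0` it is the series.
-/

open scoped ContDiff Topology
open Set Filter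

namespace Pool.Agent.Work.MP_6bf1e5_an.Mat

noncomputable section

/-- The function `f` up to `Z`, then `h`. -/
def glueF (Z : ℝ) (f h : ℝ → ℝ) (z : ℝ) : ℝ := if z ≤ Z then f z else h z

theorem glue_le {Z z : ℝ} (f h : ℝ → ℝ) (hz : z ≤ Z) : glueF Z f h z = f z := if_pos hz

theorem glue_ge {Z z : ℝ} {f h : ℝ → ℝ} (e : h Z = f Z) (hz : Z ≤ z) : glueF Z f h z = h z := by
  rcases hz.eq_or_lt with rfl | hz
  · rw [glue_le f h le_rfl, e]
  · exact if_neg hz.not_ge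

theorem glue_ev {Z z : ℝ} (f h : ℝ → ℝ) (hz : z < Z) : glueF Z f h =ᶠ[𝓝 z] f :=
  (eventually_lt_nhds hz).mono fun _ hx => glue_le f h hx.le

theorem glue_has {Z z d : ℝ} {f h : ℝ → ℝ} (e : h Z = f Z) (h1 : z ≤ Z → HasDerivAt f d z)
    (h2 : Z ≤ z → HasDerivWithinAt h d (Ici Z) z) : HasDerivAt (glueF Z f h) d z := by
  rcases lt_trichotomy z Z with hz | rfl | hz
  · exact (h1 hz.le).congr_of_eventuallyEq (glue_ev f h hz)
  · rw [← hasDerivWithinAt_univ, ← Iic_union_Ici (a := z)]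
    exact ((h1 le_rfl).hasDerivWithinAt.congr (fun x hx => glue_le f h hx)
      (glue_le f h le_rfl)).union ((h2 le_rfl).congr (fun x hx => glue_ge e hx) (glue_ge e le_rfl))
  · exact ((h2 hz.le).hasDerivAt (Ici_mem_nhds hz)).congr_of_eventuallyEq
      ((eventually_gt_nhds hz).mono fun _ hx => glue_ge e hx.le)

theorem glue_smooth {Z : ℝ} (hZ : 1 ≤ Z) {f h : ℝ → ℝ}
    (h1 : ContDiffOn ℝ ∞ f (Ioo (-(1 / 16)) (1 / 32))) (h2 : ContDiffOn ℝ ∞ (glueF Z f h) (Ioi 0)) :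
    ContDiffOn ℝ ∞ (glueF Z f h) (Ioi (-(1 / 16))) := by
  intro z hz
  rcases lt_or_ge 0 z with h0 | h0
  · exact (h2.contDiffAt (Ioi_mem_nhds h0)).contDiffWithinAt
  · exact ((h1.contDiffAt (Ioo_mem_nhds hz (by linarith only [h0]))).congr_of_eventuallyEq
      (glue_ev f h (by linarith))).contDiffWithinAt

theorem glue_smSol {Z : ℝ} (hZ : 1 ≤ Z) {g J G g' J' G' : ℝ → ℝ}
    (h1 : SmSol (Ioo (-(1 / 16)) (1 / 32)) g J G)
    (h2 : SmSol (Ioi 0) (glueF Z g g') (glueF Z J J') (glueF Z G G')) :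
    SmSol (Ioi (-(1 / 16))) (glueF Z g g') (glueF Z J J') (glueF Z G G') := by
  refine ⟨glue_smooth hZ h1.sg h2.sg, glue_smooth hZ h1.sJ h2.sJ, glue_smooth hZ h1.sG h2.sG,
    fun z hz => ?_, fun z hz => ?_, fun z hz => ?_⟩
  all_goals rcases lt_or_ge 0 z with h0 | h0
  · exact h2.e1 z h0
  · have h3 : z < Z := by linarith only [hZ, h0]
    rw [(glue_ev _ _ h3).deriv_eq, glue_le _ _ h3.le, glue_le _ _ h3.le]
    exact h1.e1 z ⟨hz, by linarith only [h0]⟩
  · exact h2.e2 z h0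
  · have h3 : z < Z := by linarith
    rw [(glue_ev _ _ h3).deriv_eq, glue_le _ _ h3.le]
    exact h1.e2 z ⟨hz, by linarith only [h0]⟩
  · exact h2.e3 z h0
  · have h3 : z < Z := by linarith
    rw [(glue_ev _ _ h3).deriv_eq, glue_le _ _ h3.le, glue_le _ _ h3.le, glue_le _ _ h3.le]
    exact h1.e3 z ⟨hz, by linarith only [h0]⟩

theorem exists_glob : ∃ (g J G : ℝ → ℝ) (Z : ℝ), SmSol (Ioi (-(1 / 16))) g J G ∧ g 0 ≠ 0 ∧
    100 ≤ Z ∧ Tail Z g J G := by
  obtain ⟨g, J, G, hs, hc⟩ := exists_inner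
  obtain ⟨y0, δ, Z, hδ, ha, hb, hZ, he⟩ := inner_end
  have hsub : Icc (y0 - δ) (y0 + δ) ⊆ Icc (3 / 2) (17 / 10) := Icc_subset_Icc ha hb
  have key : ∀ y ∈ Icc (y0 - δ) (y0 + δ), (∀ z ∈ Ioc 0 Z, Box (g y) (J y) (G y) z) ∧
      -(1 / 2) ≤ g y Z ∧ g y Z < 0 ∧ 8 * g y Z ≤ J y Z ∧ J y Z ≤ 4 * g y Z ∧
        ((y - y0) / δ = -1 → Z * G y Z < -J y Z) ∧
        ((y - y0) / δ = 1 → -(3 / 2 * J y Z) < Z * G y Z) := fun y hy => by
    refine he _ _ _ _ ?_ (hs y (hsub hy)).1 ?_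
    · rw [abs_div, abs_of_pos hδ, div_le_one hδ, abs_le]
      constructor <;> linarith only [hy, hy.1, hy.2]
    · rw [mul_div_cancel₀ _ hδ.ne', add_sub_cancel]
      exact (hs y (hsub hy)).2.1
  have h12 : y0 - δ ≤ y0 + δ := by linarith only [hδ]
  obtain ⟨y, hy, g', J', G', e1, e2, e3, hd, C, hC⟩ := exists_outer (Z := Z) (by linarith only [hδ, ha, hb, hZ]) h12
    ((hc Z (by linarith only [hδ, ha, hb, hZ])).mono hsub)
    (fun y hy => ⟨(key y hy).2.1, (key y hy).2.2.1, (key y hy).2.2.2.1, (key y hy).2.2.2.2.1⟩)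
    ((key _ (left_mem_Icc.2 h12)).2.2.2.2.2.1 (by field_simp; ring))
    ((key _ (right_mem_Icc.2 h12)).2.2.2.2.2.2 (by field_simp; ring))
  obtain ⟨hi, h0, hsm⟩ := hs y (hsub hy)
  refine ⟨glueF Z (g y) g', glueF Z (J y) J', glueF Z (G y) G', Z,
    glue_smSol (by linarith only [hδ, ha, hb, hZ]) hsm (smSol_of_eqs fun z hz => ?_), ?_, hZ, C, fun z hz => ?_⟩
  · have hin : z ≤ Z → Eqs (g y) (J y) (G y) z := fun h => hi.ode z hz ((key y hy).1 z ⟨hz, h⟩)
    refine ⟨glue_has e1 (fun h => ?_) fun h => ?_, glue_has e2 (fun h => ?_) fun h => ?_,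
      glue_has e3 (fun h => ?_) fun h => ?_⟩
    · rw [glue_le _ _ h, glue_le _ _ h]
      exact (hin h).1
    · rw [glue_ge e1 h, glue_ge e2 h]
      exact (hd z h).1
    · rw [glue_le _ _ h]
      exact (hin h).2.1
    · rw [glue_ge e3 h]
      exact (hd z h).2.1
    · rw [glue_le _ _ h, glue_le _ _ h, glue_le _ _ h]
      exact (hin h).2.2
    · rw [glue_ge e1 h, glue_ge e2 h, glue_ge e3 h]
      exact (hd z h).2.2
  · rw [glue_le _ _ (by linarith only [hδ, ha, hb, hZ]), h0.1]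
    linarith only [hδ, ha, hb, hsub, hy, (hsub hy).1]
  · rw [glue_ge e1 hz.le, glue_ge e2 hz.le, glue_ge e3 hz.le]
    exact hC z hz

end

end Pool.Agent.Work.MP_6bf1e5_an.Mat
end

-- merged part: Pool.Agent.Work.MP_6bf1e5_an.Mat.Ode
section
/-!
The fourth order equation. Multiply `g` by a smooth function that is `1` on `[-1/64, ∞)` and `0` on `(-∞, -1/32]`
(`Real.smoothTransition`). On `(-1/64, ∞)`: `lapZ g = G` (differentiate the first equation), and differentiate the third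
equation, using `J = 4 z g' + 10 g`. Decay: `decay_all` for `z > Z`, continuity on `[0, Z + 1]`.
For `scale`: `lapZ (fun z => g (z / ν)) z = lapZ g (z / ν) / ν`.
-/

open scoped ContDiff Topology
open Set Filter

namespace Pool.Agent.Work.MP_6bf1e5_an.Mat

noncomputable section

theorem ode_lapZ_congr {f g : ℝ → ℝ} {z : ℝ} (h : f =ᶠ[𝓝 z] g) : lapZ f =ᶠ[𝓝 z] lapZ g := by
  filter_upwards [h.deriv, h.deriv.deriv] with w h1 h2
  rw [lapZ, lapZ, h1, h2]

theorem ode_hasDeriv {U : Set ℝ} (hU : IsOpen U) {f : ℝ → ℝ} (hf : ContDiffOn ℝ ∞ f U) {z : ℝ}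
    (hz : z ∈ U) : HasDerivAt f (deriv f z) z ∧ HasDerivAt (deriv f) (deriv (deriv f) z) z := by
  have h1 : ContDiffOn ℝ ∞ (deriv f) U := hf.deriv_of_isOpen hU (by simp)
  exact ⟨((hf.contDiffAt (hU.mem_nhds hz)).differentiableAt (by simp)).hasDerivAt,
    ((h1.contDiffAt (hU.mem_nhds hz)).differentiableAt (by simp)).hasDerivAt⟩

theorem ode_lap_g {U : Set ℝ} (hU : IsOpen U) {g J G : ℝ → ℝ} (h : SmSol U g J G) {z : ℝ}
    (hz : z ∈ U) : lapZ g z = G z := by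
  obtain ⟨g1, g2⟩ := ode_hasDeriv hU h.sg hz
  obtain ⟨j1, -⟩ := ode_hasDeriv hU h.sJ hz
  have e : (fun w => 4 * w * deriv g w) =ᶠ[𝓝 z] fun w => J w - 10 * g w := by
    filter_upwards [hU.mem_nhds hz] with w hw using h.e1 w hw
  have l := (((hasDerivAt_id' z).const_mul 4).fun_mul g2).congr_of_eventuallyEq e.symm
  have r := j1.fun_sub (g1.const_mul 10)
  have k := l.unique r
  rw [h.e2 z hz] at k
  rw [lapZ]
  linarith only [k]

theorem ode_lap_G {U : Set ℝ} (hU : IsOpen U) {g J G : ℝ → ℝ} (h : SmSol U g J G) {z : ℝ}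
    (hz : z ∈ U) : lapZ G z = 2 * G z + z * deriv G z + (7 / 2 * g z + 2 * z * deriv g z) * G z
      + z * g z * deriv G z := by
  obtain ⟨g1, -⟩ := ode_hasDeriv hU h.sg hz
  obtain ⟨j1, -⟩ := ode_hasDeriv hU h.sJ hz
  obtain ⟨G1, G2⟩ := ode_hasDeriv hU h.sG hz
  have e : (fun w => 4 * w * deriv G w) =ᶠ[𝓝 z]
      fun w => (w * (1 + g w) - 10) * G w + J w + J w * J w / 8 := by
    filter_upwards [hU.mem_nhds hz] with w hw
    rw [h.e3 w hw, sq]
  have l := (((hasDerivAt_id' z).const_mul 4).fun_mul G2).congr_of_eventuallyEq e.symm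
  have r := ((((((hasDerivAt_id' z).fun_mul (g1.const_add 1)).sub_const 10).fun_mul G1).fun_add
    j1).fun_add ((j1.fun_mul j1).div_const 8))
  have k := l.unique r
  rw [h.e2 z hz] at k
  have hJ : J z = 4 * z * deriv g z + 10 * g z := by linarith only [h, hz, h.e1 z hz]
  rw [hJ] at k
  rw [lapZ]
  linarith only [k]

theorem ode_deriv_scale (f : ℝ → ℝ) (ν c : ℝ) :
    deriv (fun z => f (z / ν) * c) = fun z => deriv f (z / ν) * (c / ν) := by
  funext z
  have e : ∀ w : ℝ, w / ν = ν⁻¹ * w := fun w => div_eq_inv_mul w ν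
  simp only [e]
  rw [deriv_mul_const_field, deriv_comp_mul_left, smul_eq_mul]
  ring

theorem ode_lapZ_scale (f : ℝ → ℝ) (ν c : ℝ) :
    lapZ (fun z => f (z / ν) * c) = fun z => lapZ f (z / ν) * (c / ν) := by
  funext z
  rw [lapZ, lapZ, ode_deriv_scale, ode_deriv_scale]
  ring

theorem odeSol_of_glob {g J G : ℝ → ℝ} {Z : ℝ} (h : SmSol (Ioi (-(1 / 16))) g J G) (h0 : g 0 ≠ 0)
    (hZ : 100 ≤ Z) (ht : Tail Z g J G) : ∃ g, OdeSol 1 g := by
  set f : ℝ → ℝ := fun z => Real.smoothTransition (64 * z + 2) * g z with hf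
  have hfg : ∀ z : ℝ, 0 ≤ z → f =ᶠ[𝓝 z] g := by
    intro z hz
    have hm : Ioi (-(1 / 64) : ℝ) ∈ 𝓝 z := Ioi_mem_nhds (by linarith only [hz])
    filter_upwards [hm] with w hw
    have hw' : -(1 / 64) < w := hw
    rw [hf]
    simp only
    rw [Real.smoothTransition.one_of_one_le (by linarith only [hw']), one_mul]
  have hs : ContDiff ℝ ∞ f := by
    rw [contDiff_iff_contDiffAt]
    intro z
    by_cases hz : -(1 / 16) < z
    · have h1 : ContDiff ℝ ∞ fun z : ℝ => Real.smoothTransition (64 * z + 2) :=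
        Real.smoothTransition.contDiff.comp (by fun_prop)
      exact h1.contDiffAt.mul (h.sg.contDiffAt (Ioi_mem_nhds hz))
    · have hm : Iio (-(1 / 32) : ℝ) ∈ 𝓝 z := Iio_mem_nhds (by linarith only [hz, not_lt.1 hz])
      refine (contDiffAt_const (c := (0 : ℝ))).congr_of_eventuallyEq ?_
      filter_upwards [hm] with w hw
      have hw' : w < -(1 / 32) := hw
      rw [hf]
      simp only
      rw [Real.smoothTransition.zero_of_nonpos (by linarith only [hw']), zero_mul]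
  refine ⟨f, hs, fun z hz => ?_, fun n => ?_, ?_⟩
  · have hU : Ioi (-(1 / 16) : ℝ) ∈ 𝓝 z := Ioi_mem_nhds (by linarith only [hz])
    have e1 : lapZ f =ᶠ[𝓝 z] G := by
      filter_upwards [ode_lapZ_congr (hfg z hz), hU] with w h1 h2
      rw [h1, ode_lap_g isOpen_Ioi h h2]
    rw [(ode_lapZ_congr e1).eq_of_nhds, e1.eq_of_nhds, e1.deriv_eq, (hfg z hz).eq_of_nhds,
      (hfg z hz).deriv_eq, one_mul]
    exact ode_lap_G isOpen_Ioi h (mem_of_mem_nhds hU)
  · have hsub : Ioi Z ⊆ Ioi (-(1 / 16)) := Ioi_subset_Ioi (by linarith only [hZ])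
    obtain ⟨C, hC⟩ := decay_all hZ ⟨h.sg.mono hsub, h.sJ.mono hsub, h.sG.mono hsub,
      fun z hz => h.e1 z (hsub hz), fun z hz => h.e2 z (hsub hz), fun z hz => h.e3 z (hsub hz)⟩
      ht n
    have hc : Continuous fun z : ℝ => (1 + z) ^ (n + 1) * iteratedDeriv n f z :=
      (by fun_prop : Continuous fun z : ℝ => (1 + z) ^ (n + 1)).mul
        (hs.continuous_iteratedDeriv n (by exact_mod_cast le_top))
    obtain ⟨M, hM⟩ := (isCompact_Icc (a := (0 : ℝ)) (b := Z)).exists_bound_of_continuousOn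
      hc.continuousOn
    refine ⟨max M (|C| * 2 ^ (n + 1)), fun z hz => ?_⟩
    have hp : 0 < (1 + z) ^ (n + 1) := by positivity
    rw [le_div_iff₀ hp]
    rcases le_or_gt z Z with hzZ | hzZ
    · have h1 := hM z ⟨hz, hzZ⟩
      rw [Real.norm_eq_abs, abs_mul, abs_of_pos hp, mul_comm] at h1
      exact h1.trans (le_max_left _ _)
    · have hz0 : 0 < z := by linarith only [hZ, hzZ]
      have h1 := hC z hzZ
      rw [le_div_iff₀ (by positivity), ← (hfg z hz).iteratedDeriv_eq n] at h1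
      have h2 : (1 + z) ^ (n + 1) ≤ z ^ (n + 1) * 2 ^ (n + 1) := by
        rw [← mul_pow]
        exact pow_le_pow_left₀ (by linarith) (by linarith only [hZ, hzZ]) _
      refine le_trans ?_ (le_max_right _ _)
      calc |iteratedDeriv n f z| * (1 + z) ^ (n + 1)
          ≤ |iteratedDeriv n f z| * (z ^ (n + 1) * 2 ^ (n + 1)) := by gcongr
        _ = |iteratedDeriv n f z| * z ^ (n + 1) * 2 ^ (n + 1) := by ring
        _ ≤ |C| * 2 ^ (n + 1) := by
          gcongr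
          exact h1.trans (le_abs_self C)
  · rw [(hfg 0 le_rfl).eq_of_nhds]
    exact h0

theorem OdeSol.scale {g : ℝ → ℝ} (h : OdeSol 1 g) {ν : ℝ} (hν : 0 < ν) :
    OdeSol ν fun z => g (z / ν) := by
  have e0 : (fun z => g (z / ν)) = fun z => g (z / ν) * 1 := by simp only [mul_one]
  refine ⟨h.smooth.comp (by fun_prop), fun z hz => ?_, fun n => ?_, ?_⟩
  · have k := h.eqn (z / ν) (by positivity)
    have e1 : lapZ (fun z => g (z / ν)) = fun z => lapZ g (z / ν) * (1 / ν) := by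
      rw [e0, ode_lapZ_scale]
    have e2 : deriv (fun z => g (z / ν)) = fun z => deriv g (z / ν) * (1 / ν) := by
      rw [e0, ode_deriv_scale]
    rw [e1, e2, ode_lapZ_scale, ode_deriv_scale]
    simp only
    rw [one_mul] at k
    rw [k]
    field_simp
  · obtain ⟨C, hC⟩ := h.decay n
    refine ⟨ν⁻¹ ^ n * (|C| * (1 + ν) ^ (n + 1)), fun z hz => ?_⟩
    have e : ∀ w : ℝ, w / ν = ν⁻¹ * w := fun w => div_eq_inv_mul w ν
    have h1 := hC (z / ν) (by positivity)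
    have e1 : iteratedDeriv n (fun z => g (z / ν)) z = ν⁻¹ ^ n * iteratedDeriv n g (z / ν) := by
      simp only [e]
      rw [iteratedDeriv_comp_const_mul (h.smooth.of_le (by exact_mod_cast le_top))]
    rw [le_div_iff₀ (by positivity)] at h1
    rw [e1, abs_mul, abs_of_pos (by positivity : 0 < ν⁻¹ ^ n), le_div_iff₀ (by positivity),
      mul_assoc]
    have h2 : (1 + z) ^ (n + 1) ≤ (1 + z / ν) ^ (n + 1) * (1 + ν) ^ (n + 1) := by
      rw [← mul_pow]
      refine pow_le_pow_left₀ (by linarith only [hz]) ?_ _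
      have h3 : (1 + z / ν) * (1 + ν) = 1 + z + (ν + z / ν) := by
        field_simp
        ring
      have h4 : 0 ≤ ν + z / ν := by positivity
      linarith only [h3, h4]
    gcongr ν⁻¹ ^ n * ?_
    calc |iteratedDeriv n g (z / ν)| * (1 + z) ^ (n + 1)
        ≤ |iteratedDeriv n g (z / ν)| * ((1 + z / ν) ^ (n + 1) * (1 + ν) ^ (n + 1)) := by gcongr
      _ = |iteratedDeriv n g (z / ν)| * (1 + z / ν) ^ (n + 1) * (1 + ν) ^ (n + 1) := by ring
      _ ≤ |C| * (1 + ν) ^ (n + 1) := by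
        gcongr
        exact h1.trans (le_abs_self C)
  · simpa using h.ne

theorem exists_ode {ν : ℝ} (hν : 0 < ν) : ∃ g, OdeSol ν g := by
  obtain ⟨g, J, G, Z, h, h0, hZ, ht⟩ := exists_glob
  obtain ⟨g', h'⟩ := odeSol_of_glob h h0 hZ ht
  exact ⟨_, h'.scale hν⟩

end

end Pool.Agent.Work.MP_6bf1e5_an.Mat
end

-- merged part: Pool.Agent.Work.MP_6bf1e5_an.Mat.PhysJ
section
/-!
The profile for matrices. With `a = alZ g`, `b = beZ g` put
`Pz = a + z a' - ν (4 z a'' + 10 a' + 4 b) + nlA a b` and `Qz = 2 b + z b' - ν (4 z b'' + 18 b') + nlB a b`. In terms of the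
derivatives of `g`, `Pz' - Qz` is one half of the difference of the two sides of `OdeSol.eqn`, so `Qz = Pz'` for `z ≥ 0` and the
pressure is `-(Pz qf / 2)` minus the radial potential (`grad_FF`, `exists_radpot`). Nonzero: the derivative of `WJ g (0, 1) · 0`
in direction `1` at `0` is `3 g 0 / 2` (`pd_FF`). For `exists_phys` use `PhysProfile.embed`.
-/

open scoped ContDiff ENNReal FourierTransform Topology ComplexConjugate Matrix
open Set MeasureTheory Filter Metric Pool.Agent.Work.MP_6bf1e5_an.Ens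

namespace Pool.Agent.Work.MP_6bf1e5_an.Mat

noncomputable section

theorem physj_cd {f : ℝ → ℝ} (hf : ContDiff ℝ ∞ f) : ContDiff ℝ ∞ (deriv f) :=
  (contDiff_infty_iff_deriv.1 hf).2

theorem physj_hd {f : ℝ → ℝ} (hf : ContDiff ℝ ∞ f) (z : ℝ) : HasDerivAt f (deriv f z) z :=
  ((contDiff_infty_iff_deriv.1 hf).1 z).hasDerivAt

theorem physj_lin {f k : ℝ → ℝ} (hf : ContDiff ℝ ∞ f) (hk : ContDiff ℝ ∞ k) (r s : ℝ) :
    deriv (fun z => r * f z + s * z * k z) = fun z =>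
      r * deriv f z + s * k z + s * z * deriv k z := by
  funext z
  have h := ((physj_hd hf z).const_mul r).add
    (((hasDerivAt_id' z).const_mul s).mul (physj_hd hk z))
  refine (HasDerivAt.deriv h).trans ?_
  ring

theorem physj_a1 {g : ℝ → ℝ} (hg : ContDiff ℝ ∞ g) :
    deriv (alZ g) = fun z => 5 * deriv g z + 2 * z * deriv (deriv g) z := by
  refine (physj_lin hg (physj_cd hg) 3 2).trans ?_
  funext z
  ring

theorem physj_a2 {g : ℝ → ℝ} (hg : ContDiff ℝ ∞ g) : deriv (deriv (alZ g)) =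
    fun z => 7 * deriv (deriv g) z + 2 * z * deriv (deriv (deriv g)) z := by
  rw [physj_a1 hg]
  refine (physj_lin (physj_cd hg) (physj_cd (physj_cd hg)) 5 2).trans ?_
  funext z
  ring

theorem physj_a3 {g : ℝ → ℝ} (hg : ContDiff ℝ ∞ g) : deriv (deriv (deriv (alZ g))) =
    fun z => 9 * deriv (deriv (deriv g)) z + 2 * z * deriv (deriv (deriv (deriv g))) z := by
  rw [physj_a2 hg]
  refine (physj_lin (physj_cd (physj_cd hg)) (physj_cd (physj_cd (physj_cd hg))) 7 2).trans ?_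
  funext z
  ring

theorem physj_neg {f : ℝ → ℝ} (hf : ContDiff ℝ ∞ f) :
    deriv (fun z => -(2 * f z)) = fun z => -(2 * deriv f z) := by
  funext z
  exact HasDerivAt.deriv ((physj_hd hf z).const_mul 2).neg

theorem physj_b1 {g : ℝ → ℝ} (hg : ContDiff ℝ ∞ g) :
    deriv (beZ g) = fun z => -(2 * deriv (deriv g) z) := physj_neg (physj_cd hg)

theorem physj_b2 {g : ℝ → ℝ} (hg : ContDiff ℝ ∞ g) :
    deriv (deriv (beZ g)) = fun z => -(2 * deriv (deriv (deriv g)) z) := by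
  rw [physj_b1 hg]
  exact physj_neg (physj_cd (physj_cd hg))

theorem physj_l1 {g : ℝ → ℝ} (hg : ContDiff ℝ ∞ g) : deriv (lapZ g) =
    fun z => 18 * deriv (deriv g) z + 4 * z * deriv (deriv (deriv g)) z := by
  have e : lapZ g = fun z => 14 * deriv g z + 4 * z * deriv (deriv g) z := by
    funext z
    rw [lapZ, add_comm]
  rw [e]
  refine (physj_lin (physj_cd hg) (physj_cd (physj_cd hg)) 14 4).trans ?_
  funext z
  ring

theorem physj_l2 {g : ℝ → ℝ} (hg : ContDiff ℝ ∞ g) : deriv (deriv (lapZ g)) =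
    fun z => 22 * deriv (deriv (deriv g)) z + 4 * z * deriv (deriv (deriv (deriv g))) z := by
  rw [physj_l1 hg]
  refine (physj_lin (physj_cd (physj_cd hg)) (physj_cd (physj_cd (physj_cd hg))) 18 4).trans ?_
  funext z
  ring

/-- The coefficient of `A y` in the equation. -/
def physjP (ν : ℝ) (a b : ℝ → ℝ) (z : ℝ) : ℝ :=
  a z + z * deriv a z - ν * (4 * z * deriv (deriv a) z + 10 * deriv a z + 4 * b z) + nlA a b z

theorem physj_cdP (ν : ℝ) {a b : ℝ → ℝ} (ha : ContDiff ℝ ∞ a) (hb : ContDiff ℝ ∞ b) :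
    ContDiff ℝ ∞ (physjP ν a b) := by
  have h1 := physj_cd ha
  have h2 := physj_cd h1
  unfold physjP nlA
  generalize deriv (deriv a) = a2 at h2
  generalize deriv a = a1 at h1
  fun_prop

theorem physj_cdR {a b : ℝ → ℝ} (ha : ContDiff ℝ ∞ a) (hb : ContDiff ℝ ∞ b) :
    ContDiff ℝ ∞ fun z => nlR a b z / 3 := by
  have h1 := physj_cd ha
  have h2 := physj_cd hb
  unfold nlR
  generalize deriv b = b1 at h2
  generalize deriv a = a1 at h1
  fun_prop

theorem physj_dP (ν : ℝ) {a b : ℝ → ℝ} (ha : ContDiff ℝ ∞ a) (hb : ContDiff ℝ ∞ b) (z : ℝ) :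
    deriv (physjP ν a b) z = 2 * deriv a z + z * deriv (deriv a) z
      - ν * (4 * z * deriv (deriv (deriv a)) z + 14 * deriv (deriv a) z + 4 * deriv b z)
      + ((deriv (deriv a) z * (a z + b z * z) + deriv a z * (deriv a z + deriv b z * z + b z)
          + deriv a z * b z + a z * deriv b z) * z / 3
        + (deriv a z * (a z + b z * z) + a z * b z) / 3 + 7 / 6 * (a z * deriv a z)) := by
  have a0 := physj_hd ha z
  have a1 := physj_hd (physj_cd ha) z
  have a2 := physj_hd (physj_cd (physj_cd ha)) z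
  have b0 := physj_hd hb z
  have i0 := hasDerivAt_id' z
  have h := ((a0.add (i0.mul a1)).sub (((((i0.const_mul 4).mul a2).add (a1.const_mul 10)).add
    (b0.const_mul 4)).const_mul ν)).add
    (((((a1.mul (a0.add (b0.mul i0))).add (a0.mul b0)).mul i0).div_const 3).add
      ((a0.pow 2).const_mul (7 / 12)))
  refine (HasDerivAt.deriv h).trans ?_
  simp only [Pi.add_apply, Pi.mul_apply]
  push_cast
  ring

theorem physj_key {ν : ℝ} {g : ℝ → ℝ} (h : OdeSol ν g) {z : ℝ} (hz : 0 ≤ z) :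
    deriv (physjP ν (alZ g) (beZ g)) z = 2 * beZ g z + z * deriv (beZ g) z
      - ν * (4 * z * deriv (deriv (beZ g)) z + 18 * deriv (beZ g) z) + nlB (alZ g) (beZ g) z := by
  have hg := h.smooth
  have e := h.eqn z hz
  rw [lapZ, physj_l2 hg, physj_l1 hg, lapZ] at e
  rw [physj_dP ν (contDiff_alZ hg) (contDiff_beZ hg), nlB, physj_a3 hg, physj_a2 hg, physj_a1 hg,
    physj_b2 hg, physj_b1 hg]
  simp only [alZ, beZ] at e ⊢
  linear_combination (-1 / 2 : ℝ) * e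

theorem physj_Am (p q : Fin 3) : Am q p = Am p q := by
  ext r s
  simp only [Am, add_comm, eq_comm (a := q) (b := p)]

theorem OdeSol.phys3 {ν : ℝ} {g : ℝ → ℝ} (h : OdeSol ν g) : PhysProfile ν (cJ 3) (WJ g) := by
  have hg := h.smooth
  have ha := contDiff_alZ hg
  have hb := contDiff_beZ hg
  refine ⟨h.sy_WJ, fun p y => ?_, fun p => ?_, fun h0 => h.ne ?_⟩
  · unfold WJ
    rw [div_FF (Am_symm _ _) (Am_trace _ _) ha hb, physj_a1 hg, physj_b1 hg]
    simp only [beZ]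
    ring
  · obtain ⟨R, hR, hR'⟩ := exists_radpot (physj_cdR ha hb)
    have hP := physj_cdP ν ha hb
    have h1 : ContDiff ℝ ∞ fun y : R3 =>
        physjP ν (alZ g) (beZ g) (‖y‖ ^ 2) * qf (Am p.1 p.2) y / 2 :=
      ((hP.comp (contDiff_norm_sq ℝ)).mul (contDiff_qf _)).div_const 2
    have h2 : ContDiff ℝ ∞ fun y : R3 => (if p.1 = p.2 then (-1 : ℝ) else 0) * R y :=
      contDiff_const.mul hR
    refine ⟨fun y => (if p.1 = p.2 then (-1 : ℝ) else 0) * R y
      - physjP ν (alZ g) (beZ g) (‖y‖ ^ 2) * qf (Am p.1 p.2) y / 2, h2.sub h1, fun y i => ?_⟩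
    rw [pd_sub (h2.differentiable (by simp) y) (h1.differentiable (by simp) y), pd_const_mul, hR',
      grad_FF (Am_symm _ _) hP]
    unfold WJ
    rw [contract_FF ha hb, scal_FF (Am_symm _ _) ha hb, lap_FF (Am_symm _ _) (Am_trace _ _) ha hb]
    simp only [FF, physj_key h (sq_nonneg ‖y‖), physjP]
    split_ifs <;> ring
  · have h1 := pd_FF (Am_symm 0 1) ha hb 0 1 0
    have h2 : (fun z => FF (Am 0 1) (alZ g) (beZ g) z 0) = fun _ => 0 := by
      funext z
      have := congrFun (congrFun h0 (0, 1)) z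
      simp only [WJ, Pi.zero_apply] at this
      rw [this]
      rfl
    rw [h2, pd_const] at h1
    simpa [alZ, Am] using h1

theorem exists_phys {n : ℕ} (hn : 3 ≤ n) {ν : ℝ} (hν : 0 < ν) :
    ∃ W, PhysProfile ν (cJ n) W ∧ ∀ a : Fin n × Fin n, W a.swap = W a := by
  obtain ⟨g, hg⟩ := exists_ode hν
  have he : Function.Injective
      (fun p : Fin 3 × Fin 3 => p.map (Fin.castLE hn) (Fin.castLE hn)) :=
    (Fin.castLE_injective hn).prodMap (Fin.castLE_injective hn)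
  refine ⟨_, hg.phys3.embed he (cJ_embed hn) fun k hk b d => cJ_out hn hk b d, fun a => ?_⟩
  by_cases ha : ∃ p : Fin 3 × Fin 3, p.map (Fin.castLE hn) (Fin.castLE hn) = a
  · obtain ⟨p, rfl⟩ := ha
    have e : (p.map (Fin.castLE hn) (Fin.castLE hn)).swap =
        p.swap.map (Fin.castLE hn) (Fin.castLE hn) := rfl
    rw [e, he.extend_apply, he.extend_apply]
    unfold WJ
    rw [Prod.fst_swap, Prod.snd_swap, physj_Am]
  · rw [Function.extend_apply' _ _ _ ha, Function.extend_apply']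
    · rfl
    · rintro ⟨p, hp⟩
      exact ha ⟨p.swap, by rw [← Prod.swap_swap a, ← hp]; rfl⟩

end

end Pool.Agent.Work.MP_6bf1e5_an.Mat
end
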