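import Pool.Agent.Work.MP_6bf1e5_an.Ens.Stmt

/-!
Definitions used in the statement about the Navier-Stokes equations on `ℝ³` for velocity
components and pressure with values in the real symmetric `n × n` matrices.
-/

open scoped ContDiff ENNReal
open Set MeasureTheory Pool.Agent.Work.MP_6bf1e5_an.Ens

namespace Pool.Agent.Work.MP_6bf1e5_an.Mat

noncomputable section

/-- Real `n × n` matrices. -/
abbrev Mn (n : ℕ) := Matrix (Fin n) (Fin n) ℝ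

/-- The entrywise derivative in the `j`-th coordinate direction. -/
def pdM {n : ℕ} (j : Fin 3) (F : R3 → Mn n) (x : R3) : Mn n :=
  Matrix.of fun a b => pd j (fun y => F y a b) x

/-- `(U, P)` is a smooth solution on `ℝ³ × I`, with values in the symmetric matrices, of
`∂ₜ Uᵢ + (1/2) ∑ j, (Uⱼ ∂ⱼ Uᵢ + (∂ⱼ Uᵢ) Uⱼ) + ∂ᵢ P = ν Δ Uᵢ`, `∑ i, ∂ᵢ Uᵢ = 0`, `U (·,0) = U0`. -/
structure MSol {n : ℕ} (ν : ℝ) (U0 : Fin 3 → R3 → Mn n) (I : Set ℝ)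
    (U : Fin 3 → R3 → ℝ → Mn n) (P : R3 → ℝ → Mn n) : Prop where
  symm_U : ∀ i x, ∀ t ∈ I, (U i x t).IsSymm
  symm_P : ∀ x, ∀ t ∈ I, (P x t).IsSymm
  smooth_U : ∀ i a b, ContDiffOn ℝ ∞ (fun z : R3 × ℝ => U i z.1 z.2 a b) (univ ×ˢ I)
  smooth_P : ∀ a b, ContDiffOn ℝ ∞ (fun z : R3 × ℝ => P z.1 z.2 a b) (univ ×ˢ I)
  momentum : ∀ i x, ∀ t ∈ I,
    (Matrix.of fun a b => derivWithin (fun s => U i x s a b) I t)
      + (1 / 2 : ℝ) • ∑ j, (U j x t * pdM j (fun y => U i y t) x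
        + pdM j (fun y => U i y t) x * U j x t)
      + pdM i (fun y => P y t) x = ν • ∑ j, pdM j (pdM j fun y => U i y t) x
  divFree : ∀ x, ∀ t ∈ I, ∑ i, pdM i (fun y => U i y t) x = 0
  initial : ∀ i x, U i x 0 = U0 i x

/-- The energy `∑ i a b, ∫ (Vᵢ)ₐᵦ²` (possibly infinite). -/
def menergy {n : ℕ} (V : Fin 3 → R3 → Mn n) : ℝ≥0∞ := ∑ i, ∑ a, ∑ b, ∫⁻ x, ‖V i x a b‖ₑ ^ 2

end

end Pool.Agent.Work.MP_6bf1e5_an.Mat
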