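import Mathlib
import Pool.Agent.Work.MP_6bf1e5_an.Mat.Stmt
import Pool.Agent.Work.MP_6bf1e5_an.Ens.Defs
import Pool.Agent.Work.MP_6bf1e5_an.Ens.Basic
import Pool.Agent.Work.MP_6bf1e5_an.Ens.Wt
import Pool.Agent.Work.MP_6bf1e5_an.Ens.Gauss

-- merged part: Pool.Agent.Work.MP_6bf1e5_an.Mat.ODefs
section
/-!
Working definitions for the profile equation, an ordinary differential equation in `z = |y|²`:
`4 z g' = J - 10 g`, `J' = G`, `4 z G' = (z (1 + g) - 10) G + J + J² / 8`.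
The plan is in the team store, file h1_g8_plan.md.
-/

open scoped ContDiff
open Set

namespace Pool.Agent.Work.MP_6bf1e5_an.Mat

/-! ### Integer polynomials as lists -/

/-- Sum of coefficient lists. -/
def padd : List ℤ → List ℤ → List ℤ
  | [], q => q
  | a :: p, [] => a :: p
  | a :: p, b :: q => (a + b) :: padd p q

/-- Multiple of a coefficient list. -/
def psm (c : ℤ) : List ℤ → List ℤ
  | [] => []
  | a :: p => c * a :: psm c p

/-- Product of coefficient lists. -/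
def pmul : List ℤ → List ℤ → List ℤ
  | [], _ => []
  | a :: p, q => padd (psm a q) (0 :: pmul p q)

/-- Multiply the coefficients by `k, k + 1, ...`. -/
def pderA : ℤ → List ℤ → List ℤ
  | _, [] => []
  | k, a :: p => k * a :: pderA (k + 1) p

/-- Derivative of a coefficient list. -/
def pder (p : List ℤ) : List ℤ := pderA 1 p.tail

/-- Sum of the absolute values of the coefficients. -/
def pn1 : List ℤ → ℤ
  | [] => 0
  | a :: p => (a.natAbs : ℤ) + pn1 p

/-- Value at `1`. -/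
def pat1 : List ℤ → ℤ
  | [] => 0
  | a :: p => a + pat1 p

/-- Value at `-1`. -/
def patm : List ℤ → ℤ
  | [] => 0
  | a :: p => a - patm p

/-- Upper bound on `[-1, 1]`. -/
def phi : List ℤ → ℤ
  | [] => 0
  | a :: p => a + pn1 p

/-- The fixed point scale. -/
def SS : ℤ := 79228162514264337593543950336

/-- An enclosure at `z / 32`: `|SS x - (c0 + s c1)| ≤ b` for the three unknowns. -/
structure Node where
  z : ℤ
  g0 : ℤ
  J0 : ℤ
  G0 : ℤ
  g1 : ℤ
  J1 : ℤ
  G1 : ℤ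
  bg : ℤ
  bJ : ℤ
  bG : ℤ

/-- A step over `z = (a + b t) / 32`, `|t| ≤ 1`: approximate solutions `(x0 t + s x1 t) / SS`
and error bounds `w exp (m / 1024 (z - (a - b) / 32)) / SS`. -/
structure Step where
  a : ℤ
  b : ℤ
  g0 : List ℤ
  J0 : List ℤ
  G0 : List ℤ
  g1 : List ℤ
  J1 : List ℤ
  G1 : List ℤ
  wg : ℤ
  wJ : ℤ
  wG : ℤ
  m : ℤ

/-- An upper bound for `w exp (m b / 16384)`. -/
def Step.up (d : Step) (w : ℤ) : ℤ := w * 262144 ^ 16 / (262144 - d.m * d.b) ^ 16 + 1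

/-- The enclosure at the right end point. -/
def Step.out (d : Step) : Node :=
  ⟨d.a + d.b, pat1 d.g0, pat1 d.J0, pat1 d.G0, pat1 d.g1, pat1 d.J1, pat1 d.G1,
    d.up d.wg, d.up d.wJ, d.up d.wG⟩

/-- `b SS` times the residual of the first equation. -/
def Step.rg (d : Step) (g J : List ℤ) : List ℤ :=
  padd (psm 4 (pmul [d.a, d.b] (pder g))) (psm (-d.b) (padd J (psm (-10) g)))

/-- `b SS` times the residual of the second equation. -/
def Step.rJ (d : Step) (J G : List ℤ) : List ℤ := padd (psm 32 (pder J)) (psm (-d.b) G)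

/-- The linear part of `32 b SS²` times the residual of the third equation. -/
def Step.lin (d : Step) (J G : List ℤ) : List ℤ :=
  padd (psm (128 * SS) (pmul [d.a, d.b] (pder G)))
    (psm (d.b * SS) (padd (psm 320 G) (psm (-32) J)))

/-- The residual of the third equation, order zero in the parameter. -/
def Step.P0 (d : Step) : List ℤ :=
  padd (d.lin d.J0 d.G0) (psm (-d.b) (padd (pmul [d.a, d.b] (pmul (padd [SS] d.g0) d.G0))
    (psm 4 (pmul d.J0 d.J0))))

/-- The residual of the third equation, order one in the parameter. -/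
def Step.P1 (d : Step) : List ℤ :=
  padd (d.lin d.J1 d.G1) (psm (-d.b) (padd (pmul [d.a, d.b]
    (padd (pmul (padd [SS] d.g0) d.G1) (pmul d.g1 d.G0))) (psm 8 (pmul d.J0 d.J1))))

/-- Bound for the first residual. -/
def Step.Rg (d : Step) : ℤ := pn1 (d.rg d.g0 d.J0) + pn1 (d.rg d.g1 d.J1)

/-- Bound for the second residual. -/
def Step.RJ (d : Step) : ℤ := pn1 (d.rJ d.J0 d.G0) + pn1 (d.rJ d.J1 d.G1)

/-- Bound for the third residual. -/
def Step.RG (d : Step) : ℤ :=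
  pn1 d.P0 + pn1 d.P1 + d.b * ((d.a + d.b) * pn1 d.g1 * pn1 d.G1 + 4 * pn1 d.J1 ^ 2)

/-- The part of the third inequality that is proportional to `z`. -/
def Step.cz (d : Step) : ℤ :=
  256 * ((SS + phi d.g0 + pn1 d.g1 + d.up d.wg) * d.wG + (pn1 d.G0 + pn1 d.G1) * d.wg)
    - d.m * SS * d.wG

/-- The part of the third inequality that does not depend on `z`. -/
def Step.c0 (d : Step) : ℤ :=
  d.b * (1024 * (pn1 (padd [8 * SS] (psm 2 d.J0)) + 2 * pn1 d.J1 + d.up d.wJ) * d.wJ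
    - 81920 * SS * d.wG) + 256 * d.RG

/-- The conditions of a step, except the third inequality. -/
def Step.ok1 (n : Node) (d : Step) : Prop :=
  0 < d.b ∧ d.b ≤ d.a ∧ n.z = d.a - d.b ∧ 0 ≤ d.m ∧ d.m * d.b < 262144 ∧
  0 < d.wg ∧ 0 < d.wJ ∧ 0 < d.wG ∧
  ((n.g0 - patm d.g0).natAbs : ℤ) + (n.g1 - patm d.g1).natAbs + n.bg < d.wg ∧
  ((n.J0 - patm d.J0).natAbs : ℤ) + (n.J1 - patm d.J1).natAbs + n.bJ < d.wJ ∧
  ((n.G0 - patm d.G0).natAbs : ℤ) + (n.G1 - patm d.G1).natAbs + n.bG < d.wG ∧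
  pn1 d.g0 + pn1 d.g1 + d.up d.wg ≤ 40 * SS ∧
  pn1 d.J0 + pn1 d.J1 + d.up d.wJ ≤ 40 * SS ∧
  pn1 d.G0 + pn1 d.G1 + d.up d.wG ≤ 40 * SS ∧
  8192 * (d.b * (d.wJ - 10 * d.wg) + d.Rg) < d.b * (d.a - d.b) * d.m * d.wg ∧
  1024 * (d.b * d.wG + d.RJ) < d.b * d.m * d.wJ

instance (n : Node) (d : Step) : Decidable (d.ok1 n) := by
  unfold Step.ok1
  infer_instance

/-- All conditions of a step; the third inequality is checked at the worse end point. -/
def Step.ok (n : Node) (d : Step) : Bool :=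
  decide (d.ok1 n) && decide (d.c0 < -(d.b * (d.a * d.cz + d.b * (d.cz.natAbs : ℤ))))

/-- All steps of a chain are correct. -/
def run : Node → List Step → Bool
  | _, [] => true
  | n, d :: l => d.ok n && run d.out l

/-- The last node of a chain. -/
def last : Node → List Step → Node
  | n, [] => n
  | _, d :: l => last d.out l

noncomputable section

/-- Value of a coefficient list. -/
def pev : List ℤ → ℝ → ℝ
  | [], _ => 0
  | a :: p, t => a + t * pev p t

/-- The meaning of a node. -/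
def Node.Encl (n : Node) (s g J G : ℝ) : Prop :=
  |SS * g - (n.g0 + s * n.g1)| ≤ n.bg ∧ |SS * J - (n.J0 + s * n.J1)| ≤ n.bJ ∧
    |SS * G - (n.G0 + s * n.G1)| ≤ n.bG

/-- Right-hand side of the first equation. -/
def fg (z g J : ℝ) : ℝ := (J - 10 * g) / (4 * z)

/-- Right-hand side of the third equation. -/
def fG (z g J G : ℝ) : ℝ := ((z * (1 + g) - 10) * G + J + J ^ 2 / 8) / (4 * z)

/-- The box in which the equations are known to hold. -/
def Box (g J G : ℝ → ℝ) (z : ℝ) : Prop := |g z| ≤ 40 ∧ |J z| ≤ 40 ∧ |G z| ≤ 40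

/-- The equations hold at `z`. -/
def Eqs (g J G : ℝ → ℝ) (z : ℝ) : Prop :=
  HasDerivAt g (fg z (g z) (J z)) z ∧ HasDerivAt J (G z) z ∧
    HasDerivAt G (fG z (g z) (J z) (G z)) z

/-- Continuous on `[0, ∞)`, and a solution at the positive points where it lies in the box. -/
structure InSol (g J G : ℝ → ℝ) : Prop where
  cg : ContinuousOn g (Ici 0)
  cJ : ContinuousOn J (Ici 0)
  cG : ContinuousOn G (Ici 0)
  ode : ∀ z, 0 < z → Box g J G z → Eqs g J G z

/-- A smooth solution on the set `U`, with the equations multiplied by `4 z`. -/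
structure SmSol (U : Set ℝ) (g J G : ℝ → ℝ) : Prop where
  sg : ContDiffOn ℝ ∞ g U
  sJ : ContDiffOn ℝ ∞ J U
  sG : ContDiffOn ℝ ∞ G U
  e1 : ∀ z ∈ U, 4 * z * deriv g z = J z - 10 * g z
  e2 : ∀ z ∈ U, deriv J z = G z
  e3 : ∀ z ∈ U, 4 * z * deriv G z = (z * (1 + g z) - 10) * G z + J z + J z ^ 2 / 8

/-- The values at `0` for the shooting parameter `y`. -/
def Init (y : ℝ) (g J G : ℝ → ℝ) : Prop :=
  g 0 = -y ∧ J 0 = -(10 * y) ∧ G 0 = 5 / 4 * y ^ 2 - y

/-- The bounds at infinity. -/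
def Tail (Z : ℝ) (g J G : ℝ → ℝ) : Prop :=
  ∃ C : ℝ, ∀ z, Z < z → -(1 / 2) ≤ g z ∧ |g z| ≤ C / z ∧ |J z| ≤ C / z ∧ |G z| ≤ C / z ^ 2

/-- Triples of real numbers. -/
abbrev T3 := ℝ × ℝ × ℝ

/-- Clamp to `[a, b]`. -/
def cl (a b x : ℝ) : ℝ := max a (min x b)

/-- Clamp to a box. -/
def cl3 (lo hi x : T3) : T3 := (cl lo.1 hi.1 x.1, cl lo.2.1 hi.2.1 x.2.1, cl lo.2.2 hi.2.2 x.2.2)

/-- The seven-dimensional radial Laplacian in the variable `z = |y|²`. -/
def lapZ (f : ℝ → ℝ) (z : ℝ) : ℝ := 4 * z * deriv (deriv f) z + 14 * deriv f z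

/-- A nonzero decaying solution of the fourth order profile equation. -/
structure OdeSol (ν : ℝ) (g : ℝ → ℝ) : Prop where
  smooth : ContDiff ℝ ∞ g
  eqn : ∀ z, 0 ≤ z → ν * lapZ (lapZ g) z = 2 * lapZ g z + z * deriv (lapZ g) z
    + (7 / 2 * g z + 2 * z * deriv g z) * lapZ g z + z * g z * deriv (lapZ g) z
  decay : ∀ n : ℕ, ∃ C : ℝ, ∀ z, 0 ≤ z → |iteratedDeriv n g z| ≤ C / (1 + z) ^ (n + 1)
  ne : g 0 ≠ 0

end

end Pool.Agent.Work.MP_6bf1e5_an.Mat
end

-- merged part: Pool.Agent.Work.MP_6bf1e5_an.Mat.Defs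
section
/-!
Working definitions for the matrix valued system (none of them occurs in the final statement).
The plan is in the team store, file h1_g8_plan.md.
-/

open scoped ContDiff ENNReal FourierTransform Topology Matrix
open Set MeasureTheory Filter Pool.Agent.Work.MP_6bf1e5_an.Ens

namespace Pool.Agent.Work.MP_6bf1e5_an.Mat

noncomputable section

/-! ### Symbols -/

/-- Iterated partial derivatives. -/
def pds : List (Fin 3) → (R3 → ℝ) → R3 → ℝ
  | [], u => u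
  | j :: l, u => pds l (pd j u)

/-- A family of symbols of order `m`, with constants that do not depend on the parameter. -/
structure SyF {α : Type} (m : ℤ) (u : α → R3 → ℝ) : Prop where
  smooth : ∀ s, ContDiff ℝ ∞ (u s)
  bound : ∀ l : List (Fin 3), ∃ C : ℝ, ∀ s y, |pds l (u s) y| ≤ C * (1 + ‖y‖) ^ (m - l.length)

/-- A symbol of order `m`. -/
def Sy (m : ℤ) (u : R3 → ℝ) : Prop := SyF m fun _ : Unit => u

/-- The Laplacian. -/
def lap (u : R3 → ℝ) (y : R3) : ℝ := ∑ j, pd j (pd j u) y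

/-- The Fourier transform of a real function. -/
def ft (u : R3 → ℝ) : R3 → ℂ := 𝓕 fun y => (u y : ℂ)

/-- The Fourier transform of a symbol of order `-1`. -/
def hat (u : R3 → ℝ) (ξ : R3) : ℂ := ft (lap (lap u)) ξ / (((2 * Real.pi * ‖ξ‖) ^ 4 : ℝ) : ℂ)

/-- The Fourier transform of a family of vector fields. -/
def hatW {ι : Type} (W : ι → R3 → R3) (ξ : R3) : V ι := fun a i => hat (fun y => W a y i) ξ

/-- Continuous off `0`, at most like `|ξ|^(-5/2)` at `0`, rapidly decreasing at infinity. -/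
structure Rap (f : R3 → ℂ) : Prop where
  cont : ContinuousOn f {0}ᶜ
  bound : ∀ N : ℕ, ∃ C : ℝ, ∀ ξ, ξ ≠ 0 → ‖f ξ‖ ≤ C * (wt 0 ξ / (1 + ‖ξ‖) ^ N)

/-- A self-similar profile in physical space. -/
structure PhysProfile {ι : Type} [Fintype ι] (ν : ℝ) (c : ι → ι → ι → ℝ) (W : ι → R3 → R3) :
    Prop where
  sy : ∀ a i, Sy (-1) fun y => W a y i
  div : ∀ a y, ∑ i, pd i (fun z => W a z i) y = 0
  eqn : ∀ a, ∃ P : R3 → ℝ, ContDiff ℝ ∞ P ∧ ∀ y i,
    (W a y i + ∑ j, y j * pd j (fun z => W a z i) y) / 2 - ν * lap (fun z => W a z i) y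
      + ∑ b, ∑ d, c a b d * ∑ j, W b y j * pd j (fun z => W d z i) y + pd i P y = 0
  ne : W ≠ 0

/-! ### The algebra of symmetric matrices -/

/-- The symmetric part of `e_i e_jᵀ`. -/
def Sb {n : ℕ} (a : Fin n × Fin n) : Mn n := fun r s =>
  ((if r = a.1 ∧ s = a.2 then 1 else 0) + (if r = a.2 ∧ s = a.1 then 1 else 0)) / 2

/-- The structure tensor of the product `(X Y + Y X) / 2`. -/
def cJ (n : ℕ) (a b d : Fin n × Fin n) : ℝ := (Sb a * Sb b * Sb d).trace

/-- The field `a(z) A y + b(z) (y·Ay) y`, `z = |y|²`. -/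
def FF (A : Matrix (Fin 3) (Fin 3) ℝ) (a b : ℝ → ℝ) (y : R3) : R3 :=
  WithLp.toLp 2 fun i => a (‖y‖ ^ 2) * ∑ j, A i j * y j + b (‖y‖ ^ 2) * qf A y * y i

/-- First coefficient of the poloidal field. -/
def alZ (g : ℝ → ℝ) (z : ℝ) : ℝ := 3 * g z + 2 * z * deriv g z

/-- Second coefficient of the poloidal field. -/
def beZ (g : ℝ → ℝ) (z : ℝ) : ℝ := -(2 * deriv g z)

/-- The profile for `3 × 3` matrices. -/
def WJ (g : ℝ → ℝ) (a : Fin 3 × Fin 3) : R3 → R3 := FF (Am a.1 a.2) (alZ g) (beZ g)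

/-- First coefficient of the traceless part of the transport term. -/
def nlA (a b : ℝ → ℝ) (z : ℝ) : ℝ :=
  (deriv a z * (a z + b z * z) + a z * b z) * z / 3 + 7 / 12 * a z ^ 2

/-- Second coefficient of the traceless part of the transport term. -/
def nlB (a b : ℝ → ℝ) (z : ℝ) : ℝ :=
  (deriv a z * (a z + b z * z) + a z * b z) / 3
    + z / 3 * (2 * deriv b z * (a z + b z * z) + 3 * b z ^ 2) + 7 / 6 * (a z * b z)

/-- Radial coefficient of the trace of the transport term. -/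
def nlR (a b : ℝ → ℝ) (z : ℝ) : ℝ :=
  4 / 3 * (deriv a z * (a z + b z * z) + a z * b z) * z + 5 / 3 * a z ^ 2
    + 2 / 3 * z ^ 2 * (2 * deriv b z * (a z + b z * z) + 3 * b z ^ 2) + 10 / 3 * z * (a z * b z)

/-! ### The conclusions -/

/-- `CBlowup` with solutions that are invariant under the map `τ` of the index set. -/
def CBlowupS {ι : Type} [Fintype ι] (ν : ℝ) (c : ι → ι → ι → ℝ) (τ : ι → ι) : Prop :=
  ∃ u0 : ι → SchwartzMap R3 R3, (∀ a x, ∑ i, pd i (fun y => u0 a y i) x = 0) ∧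
    (∃ u p, CSol ν c (fun a => u0 a) (Ico 0 1) u p ∧ (∀ a, u (τ a) = u a) ∧ (∀ a, p (τ a) = p a) ∧
      (∀ t ∈ Ico (0 : ℝ) 1, energy (fun a x => u a x t) ≤ energy fun a => u0 a) ∧
      ∃ W : ι → R3 → R3, W ≠ 0 ∧ (∀ a, W (τ a) = W a) ∧
        (∃ C : ℝ, ∀ a y, ‖W a y‖ ≤ C / (1 + ‖y‖)) ∧
        (∃ q, CSol ν c W (Ico 0 1) (fun a x t => (√(1 - t))⁻¹ • W a ((√(1 - t))⁻¹ • x)) q ∧
          ∀ a, q (τ a) = q a) ∧
        ∀ ε > 0, ∃ t0 < 1, ∀ t ∈ Ico t0 1, ∀ a y,
          ‖√(1 - t) • u a (√(1 - t) • y) t - W a y‖ ≤ ε) ∧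
    ¬∃ u p, CSol ν c (fun a => u0 a) (Ici 0) u p ∧
      ∃ C < (⊤ : ℝ≥0∞), ∀ t ≥ 0, energy (fun a x => u a x t) ≤ C

/-- The conclusion of the theorem for `n × n` matrices. -/
def MBlowup (n : ℕ) (ν : ℝ) : Prop :=
  ∃ U0 : Fin 3 → R3 → Mn n, (∀ i a b, ∃ f : SchwartzMap R3 ℝ, ∀ x, U0 i x a b = f x) ∧
    (∀ i x, (U0 i x).IsSymm) ∧ (∀ x, ∑ i, pdM i (U0 i) x = 0) ∧
    (∃ U P, MSol ν U0 (Ico 0 1) U P ∧
      (∀ t ∈ Ico (0 : ℝ) 1, menergy (fun i x => U i x t) ≤ menergy U0) ∧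
      ∃ W : Fin 3 → R3 → Mn n, W ≠ 0 ∧ (∃ C : ℝ, ∀ i y a b, |W i y a b| ≤ C / (1 + ‖y‖)) ∧
        (∃ Q, MSol ν W (Ico 0 1) (fun i x t => (√(1 - t))⁻¹ • W i ((√(1 - t))⁻¹ • x)) Q) ∧
        ∀ ε > 0, ∃ t0 < 1, ∀ t ∈ Ico t0 1, ∀ i y a b,
          |√(1 - t) * U i (√(1 - t) • y) t a b - W i y a b| ≤ ε) ∧
    ¬∃ U P, MSol ν U0 (Ici 0) U P ∧
      ∃ C < (⊤ : ℝ≥0∞), ∀ t ≥ 0, menergy (fun i x => U i x t) ≤ C

end

end Pool.Agent.Work.MP_6bf1e5_an.Mat
end

-- merged part: Pool.Agent.Work.MP_6bf1e5_an.Mat.Sy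
section
/-!
Symbol calculus. `SyF.of_class` is the coinduction principle (induction on the list). For `mul` use induction on the
list for all pairs of families, or `of_class` with the class of finite sums of products. For `sy_rad` use the class of finite
sums of products of symbols with functions `f (|y|²)`, or induction on the length of the list with
`pd j (f ∘ |·|²) = 2 y j (f' ∘ |·|²)`; note `(1 + |y|)² ≤ 2 (1 + |y|²)`.
-/

open scoped ContDiff ENNReal FourierTransform Topology ComplexConjugate Matrix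
open Set MeasureTheory Filter Metric Pool.Agent.Work.MP_6bf1e5_an.Ens

namespace Pool.Agent.Work.MP_6bf1e5_an.Mat

noncomputable section

variable {α : Type} {m m' : ℤ} {u v : α → R3 → ℝ}

theorem sy_pos (y : R3) : (0 : ℝ) < 1 + ‖y‖ := by positivity

theorem sy_one_le (y : R3) : (1 : ℝ) ≤ 1 + ‖y‖ := le_add_of_nonneg_right (norm_nonneg y)

theorem sy_zpos (y : R3) (k : ℤ) : (0 : ℝ) < (1 + ‖y‖) ^ k := zpow_pos (sy_pos y) k

theorem sy_pd_add {f g : R3 → ℝ} (hf : ContDiff ℝ ∞ f) (hg : ContDiff ℝ ∞ g) (j : Fin 3) :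
    pd j (fun y => f y + g y) = fun y => pd j f y + pd j g y :=
  funext fun x => pd_add (hf.differentiable (by simp) x) (hg.differentiable (by simp) x) j

theorem sy_pd_mul {f g : R3 → ℝ} (hf : ContDiff ℝ ∞ f) (hg : ContDiff ℝ ∞ g) (j : Fin 3) :
    pd j (fun y => f y * g y) = fun y => pd j f y * g y + f y * pd j g y :=
  funext fun x => pd_mul (hf.differentiable (by simp) x) (hg.differentiable (by simp) x) j

theorem sy_pds_add (l : List (Fin 3)) : ∀ {f g : R3 → ℝ}, ContDiff ℝ ∞ f → ContDiff ℝ ∞ g →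
    pds l (fun y => f y + g y) = fun y => pds l f y + pds l g y := by
  induction l with
  | nil => exact fun _ _ => rfl
  | cons j l ih =>
    intro f g hf hg
    change pds l (pd j _) = _
    rw [sy_pd_add hf hg, ih (contDiff_pd hf j) (contDiff_pd hg j)]
    rfl

theorem sy_abs_add {a b C D w : ℝ} (ha : |a| ≤ C * w) (hb : |b| ≤ D * w) :
    |a + b| ≤ (C + D) * w := by
  rw [add_mul]
  exact (abs_add_le a b).trans (add_le_add ha hb)

/-- Coinduction up to sums of two terms. -/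
theorem sy_of_class (P : ℤ → (α → R3 → ℝ) → Prop) (hs : ∀ m u, P m u → ∀ s, ContDiff ℝ ∞ (u s))
    (hb : ∀ m u, P m u → ∃ C : ℝ, ∀ s y, |u s y| ≤ C * (1 + ‖y‖) ^ m)
    (hd : ∀ m u, P m u → ∀ j, ∃ a b, P (m - 1) a ∧ P (m - 1) b ∧
      ∀ s, pd j (u s) = fun y => a s y + b s y) (h : P m u) : SyF m u := by
  refine ⟨hs m u h, fun l => ?_⟩
  induction l generalizing m u with
  | nil => simpa [pds] using hb m u h
  | cons j l ih =>
    obtain ⟨a, b, ha, hb', e⟩ := hd m u h j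
    obtain ⟨C, hC⟩ := ih ha
    obtain ⟨D, hD⟩ := ih hb'
    refine ⟨C + D, fun s y => ?_⟩
    have e1 : m - ((j :: l).length : ℕ) = m - 1 - l.length := by
      simp only [List.length_cons]
      push_cast
      ring
    change |pds l (pd j (u s)) y| ≤ _
    rw [e s, sy_pds_add l (hs _ _ ha s) (hs _ _ hb' s), e1]
    exact sy_abs_add (hC s y) (hD s y)

theorem SyF.of_class (P : ℤ → (α → R3 → ℝ) → Prop) (hs : ∀ m u, P m u → ∀ s, ContDiff ℝ ∞ (u s))
    (hb : ∀ m u, P m u → ∃ C : ℝ, ∀ s y, |u s y| ≤ C * (1 + ‖y‖) ^ m)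
    (hd : ∀ m u, P m u → ∀ j, P (m - 1) fun s => pd j (u s)) (h : P m u) : SyF m u := by
  refine ⟨hs m u h, fun l => ?_⟩
  induction l generalizing m u with
  | nil => simpa [pds] using hb m u h
  | cons j l ih =>
    obtain ⟨C, hC⟩ := ih (hd m u h j)
    refine ⟨C, fun s y => ?_⟩
    have e1 : m - ((j :: l).length : ℕ) = m - 1 - l.length := by
      simp only [List.length_cons]
      push_cast
      ring
    rw [e1]
    exact hC s y

theorem SyF.le (h : SyF m u) : ∃ C : ℝ, 0 ≤ C ∧ ∀ s y, |u s y| ≤ C * (1 + ‖y‖) ^ m := by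
  obtain ⟨C, hC⟩ := h.bound []
  refine ⟨max C 0, le_max_right _ _, fun s y => ?_⟩
  have h1 : |u s y| ≤ C * (1 + ‖y‖) ^ m := by simpa [pds] using hC s y
  exact h1.trans (mul_le_mul_of_nonneg_right (le_max_left _ _) (sy_zpos y m).le)

theorem SyF.pd (h : SyF m u) (j : Fin 3) : SyF (m - 1) fun s => pd j (u s) := by
  refine ⟨fun s => contDiff_pd (h.smooth s) j, fun l => ?_⟩
  obtain ⟨C, hC⟩ := h.bound (j :: l)
  refine ⟨C, fun s y => ?_⟩
  have e1 : m - ((j :: l).length : ℕ) = m - 1 - l.length := by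
    simp only [List.length_cons]
    push_cast
    ring
  rw [← e1]
  exact hC s y

theorem SyF.mono (h : SyF m u) (hm : m ≤ m') : SyF m' u := by
  refine ⟨h.smooth, fun l => ?_⟩
  obtain ⟨C, hC⟩ := h.bound l
  refine ⟨max C 0, fun s y => (hC s y).trans ?_⟩
  exact mul_le_mul (le_max_left _ _) (zpow_le_zpow_right₀ (sy_one_le y) (by omega))
    (sy_zpos y _).le (le_max_right _ _)

theorem SyF.add (h : SyF m u) (g : SyF m v) : SyF m fun s y => u s y + v s y := by
  refine ⟨fun s => (h.smooth s).add (g.smooth s), fun l => ?_⟩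
  obtain ⟨C, hC⟩ := h.bound l
  obtain ⟨D, hD⟩ := g.bound l
  refine ⟨C + D, fun s y => ?_⟩
  rw [sy_pds_add l (h.smooth s) (g.smooth s)]
  exact sy_abs_add (hC s y) (hD s y)

theorem sy_pds_const_mul (r : ℝ) (l : List (Fin 3)) : ∀ f : R3 → ℝ,
    pds l (fun y => r * f y) = fun y => r * pds l f y := by
  induction l with
  | nil => exact fun _ => rfl
  | cons j l ih =>
    intro f
    change pds l (pd j _) = _
    rw [show pd j (fun y => r * f y) = fun y => r * pd j f y from funext (pd_const_mul r f j), ih]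
    rfl

theorem SyF.const_mul (h : SyF m u) (r : ℝ) : SyF m fun s y => r * u s y := by
  refine ⟨fun s => contDiff_const.mul (h.smooth s), fun l => ?_⟩
  obtain ⟨C, hC⟩ := h.bound l
  refine ⟨|r| * C, fun s y => ?_⟩
  rw [sy_pds_const_mul, abs_mul, mul_assoc]
  exact mul_le_mul_of_nonneg_left (hC s y) (abs_nonneg r)

theorem SyF.sub (h : SyF m u) (g : SyF m v) : SyF m fun s y => u s y - v s y := by
  simpa [sub_eq_add_neg] using h.add (g.const_mul (-1))

theorem sy_zero (m : ℤ) : SyF m fun (_ : α) (_ : R3) => (0 : ℝ) := by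
  refine SyF.of_class (fun _ u => u = fun _ _ => 0) ?_ ?_ ?_ rfl
  · rintro _ _ rfl s
    exact contDiff_const
  · rintro _ _ rfl
    exact ⟨0, fun s y => by simp⟩
  · rintro _ _ rfl j
    funext s y
    exact pd_const 0 j y

theorem SyF.sum {κ : Type} (S : Finset κ) {w : κ → α → R3 → ℝ} (h : ∀ k ∈ S, SyF m (w k)) :
    SyF m fun s y => ∑ k ∈ S, w k s y := by
  classical
  induction S using Finset.induction_on with
  | empty => simpa only [Finset.sum_empty] using sy_zero m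
  | insert a S ha ih =>
    simp only [Finset.sum_insert ha]
    exact (h a (Finset.mem_insert_self a S)).add
      (ih fun b hb => h b (Finset.mem_insert_of_mem hb))

theorem SyF.mul (h : SyF m u) (g : SyF m' v) : SyF (m + m') fun s y => u s y * v s y := by
  refine sy_of_class (fun k w => ∃ (m m' : ℤ) (u v : α → R3 → ℝ), SyF m u ∧ SyF m' v ∧
    k = m + m' ∧ w = fun s y => u s y * v s y) ?_ ?_ ?_ ⟨m, m', u, v, h, g, rfl, rfl⟩
  · rintro _ _ ⟨m, m', u, v, h, g, rfl, rfl⟩ s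
    exact (h.smooth s).mul (g.smooth s)
  · rintro _ _ ⟨m, m', u, v, h, g, rfl, rfl⟩
    obtain ⟨C, hC0, hC⟩ := h.le
    obtain ⟨D, -, hD⟩ := g.le
    refine ⟨C * D, fun s y => ?_⟩
    rw [abs_mul, zpow_add₀ (sy_pos y).ne', mul_mul_mul_comm]
    exact mul_le_mul (hC s y) (hD s y) (abs_nonneg _) (mul_nonneg hC0 (sy_zpos y m).le)
  · rintro _ _ ⟨m, m', u, v, h, g, rfl, rfl⟩ j
    exact ⟨_, _, ⟨m - 1, m', _, v, h.pd j, g, by ring, rfl⟩,
      ⟨m, m' - 1, u, _, h, g.pd j, by ring, rfl⟩, fun s => sy_pd_mul (h.smooth s) (g.smooth s) j⟩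

theorem SyF.lap (h : SyF m u) : SyF (m - 2) fun s => lap (u s) := by
  have e : m - 2 = m - 1 - 1 := by ring
  rw [e]
  exact SyF.sum Finset.univ fun j _ => (h.pd j).pd j

theorem SyF.comp {β : Type} (h : SyF m u) (e : β → α) : SyF m fun s => u (e s) := by
  refine ⟨fun s => h.smooth (e s), fun l => ?_⟩
  obtain ⟨C, hC⟩ := h.bound l
  exact ⟨C, fun s y => hC (e s) y⟩

theorem SyF.sy (h : SyF m u) (s : α) : Sy m (u s) := h.comp fun _ => s

theorem Sy.fam {w : R3 → ℝ} (h : Sy m w) (β : Type) : SyF m fun _ : β => w :=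
  SyF.comp h fun _ => ()

theorem sy_const (r : ℝ) : Sy 0 fun _ => r := by
  refine SyF.of_class (fun k u => (k = 0 ∧ u = fun _ _ => r) ∨ u = fun _ _ => 0) ?_ ?_ ?_
    (Or.inl ⟨rfl, rfl⟩)
  · rintro _ _ (⟨-, rfl⟩ | rfl) s <;> exact contDiff_const
  · rintro _ _ (⟨rfl, rfl⟩ | rfl)
    · exact ⟨|r|, fun s y => by simp⟩
    · exact ⟨0, fun s y => by simp⟩
  · rintro _ _ (⟨-, rfl⟩ | rfl) j <;> exact Or.inr (funext fun s => funext fun y => pd_const _ j y)

theorem sy_abs_coord (y : R3) (i : Fin 3) : |y i| ≤ 1 + ‖y‖ := by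
  have h : |y i| ≤ ‖y‖ := by simpa using PiLp.norm_apply_le y i
  linarith

theorem sy_coord (i : Fin 3) : Sy 1 fun y => y i := by
  refine ⟨fun _ => (EuclideanSpace.proj (𝕜 := ℝ) i).contDiff, fun l => ?_⟩
  cases l with
  | nil => exact ⟨1, fun _ y => by simpa [pds] using sy_abs_coord y i⟩
  | cons j l =>
    obtain ⟨C, hC⟩ := (sy_const (if i = j then 1 else 0)).bound l
    refine ⟨C, fun s y => ?_⟩
    have e1 : (1 : ℤ) - ((j :: l).length : ℕ) = 0 - l.length := by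
      simp only [List.length_cons]
      push_cast
      ring
    change |pds l (pd j fun y : R3 => y i) y| ≤ _
    rw [e1, show (pd j fun y : R3 => y i) = fun _ => if i = j then 1 else 0 from
      funext (pd_coord i j)]
    exact hC s y

theorem sy_smooth_rad {f : ℝ → ℝ} (hf : ContDiff ℝ ∞ f) : ContDiff ℝ ∞ fun y : R3 => f (‖y‖ ^ 2) :=
  hf.comp (contDiff_norm_sq ℝ)

theorem sy_pd_rad {f : ℝ → ℝ} (hf : ContDiff ℝ ∞ f) (j : Fin 3) (y : R3) :
    pd j (fun y : R3 => f (‖y‖ ^ 2)) y = 2 * y j * deriv f (‖y‖ ^ 2) := by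
  have h1 := (hf.differentiable (by simp) (‖y‖ ^ 2)).hasDerivAt
  have h2 := h1.comp_hasFDerivAt (f := fun y : R3 => ‖y‖ ^ 2) y
    (hasStrictFDerivAt_norm_sq y).hasFDerivAt
  unfold pd
  rw [show (fun y : R3 => f (‖y‖ ^ 2)) = f ∘ fun y : R3 => ‖y‖ ^ 2 from rfl, h2.fderiv]
  simp [EuclideanSpace.inner_single_right]
  ring

theorem sy_bound_rad {f : ℝ → ℝ} {k : ℕ} {C : ℝ} (hb : ∀ z, 0 ≤ z → |f z| ≤ C / (1 + z) ^ k)
    (y : R3) : |f (‖y‖ ^ 2)| ≤ |C| * 2 ^ k * (1 + ‖y‖) ^ (-(2 * k : ℤ)) := by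
  have h1 : (1 + ‖y‖) ^ 2 ≤ 2 * (1 + ‖y‖ ^ 2) := by linarith only [sq_nonneg (1 - ‖y‖), sq_nonneg ((1 : ℝ) - ‖y‖)]
  have h2 : ((1 + ‖y‖) ^ 2) ^ k ≤ (2 * (1 + ‖y‖ ^ 2)) ^ k := pow_le_pow_left₀ (by positivity) h1 k
  have h3 : (1 + ‖y‖) ^ (-(2 * k : ℤ)) = (((1 + ‖y‖) ^ 2) ^ k)⁻¹ := by
    rw [zpow_neg, ← pow_mul]
    norm_cast
  refine (hb _ (sq_nonneg _)).trans ?_
  rw [h3, ← div_eq_mul_inv, div_le_div_iff₀ (by positivity) (by positivity), mul_assoc, ← mul_pow]
  exact mul_le_mul (le_abs_self C) h2 (by positivity) (abs_nonneg C)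

theorem sy_rad {f : ℝ → ℝ} {k : ℕ} (hf : ContDiff ℝ ∞ f)
    (hb : ∀ n : ℕ, ∃ C : ℝ, ∀ z, 0 ≤ z → |iteratedDeriv n f z| ≤ C / (1 + z) ^ (n + k)) :
    Sy (-(2 * k)) fun y => f (‖y‖ ^ 2) := by
  refine sy_of_class (fun q w => ∃ (m : ℤ) (k : ℕ) (u : Unit → R3 → ℝ) (f : ℝ → ℝ), SyF m u ∧
    ContDiff ℝ ∞ f ∧
    (∀ n : ℕ, ∃ C : ℝ, ∀ z, 0 ≤ z → |iteratedDeriv n f z| ≤ C / (1 + z) ^ (n + k)) ∧
    q = m + -(2 * k) ∧ w = fun s y => u s y * f (‖y‖ ^ 2)) ?_ ?_ ?_
    ⟨0, k, fun _ _ => 1, f, sy_const 1, hf, hb, by ring, by simp only [one_mul]⟩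
  · rintro _ _ ⟨m, k, u, f, h, hf, -, rfl, rfl⟩ s
    exact (h.smooth s).mul (sy_smooth_rad hf)
  · rintro _ _ ⟨m, k, u, f, h, hf, hb, rfl, rfl⟩
    obtain ⟨C, hC0, hC⟩ := h.le
    obtain ⟨D, hD⟩ := hb 0
    simp only [iteratedDeriv_zero, zero_add] at hD
    refine ⟨C * (|D| * 2 ^ k), fun s y => ?_⟩
    rw [abs_mul, zpow_add₀ (sy_pos y).ne', mul_mul_mul_comm]
    exact mul_le_mul (hC s y) (sy_bound_rad hD y) (abs_nonneg _) (mul_nonneg hC0 (sy_zpos y m).le)
  · rintro _ _ ⟨m, k, u, f, h, hf, hb, rfl, rfl⟩ j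
    have h2 : SyF (m + 1) fun s y => u s y * (2 * y j) := h.mul ((sy_coord j).const_mul 2)
    refine ⟨_, _, ⟨m - 1, k, _, f, h.pd j, hf, hb, by ring, rfl⟩,
      ⟨m + 1, k + 1, _, deriv f, h2, (contDiff_infty_iff_deriv.mp hf).2, fun n => ?_,
        by push_cast; ring, rfl⟩, fun s => ?_⟩
    · rw [← iteratedDeriv_succ', show n + (k + 1) = n + 1 + k by ring]
      exact hb (n + 1)
    · rw [sy_pd_mul (h.smooth s) (sy_smooth_rad hf)]
      funext y
      rw [sy_pd_rad hf, mul_assoc (u s y)]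

theorem Sy.euler {w : R3 → ℝ} (h : Sy m w) : Sy m fun y => w y + ∑ j, y j * pd j w y := by
  refine SyF.add h (SyF.sum Finset.univ fun j _ => ?_)
  have h1 := SyF.mul (sy_coord j) (SyF.pd h j)
  rwa [show 1 + (m - 1) = m by ring] at h1

theorem Sy.tendsto {w : R3 → ℝ} (h : Sy m w) (hm : m ≤ -1) :
    Tendsto w (cocompact R3) (𝓝 0) := by
  obtain ⟨C, -, hC⟩ := (SyF.mono h hm).le
  have h1 : Tendsto (fun y : R3 => (1 + ‖y‖)⁻¹) (cocompact R3) (𝓝 0) :=
    tendsto_inv_atTop_zero.comp (tendsto_atTop_add_const_left _ 1 tendsto_norm_cocompact_atTop)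
  refine squeeze_zero_norm (a := fun y => C * (1 + ‖y‖)⁻¹) (fun y => ?_) ?_
  · simpa using hC () y
  · simpa using h1.const_mul C

theorem Sy.integrable {w : R3 → ℝ} (h : Sy m w) (hm : m ≤ -4) : Integrable w := by
  obtain ⟨C, -, hC⟩ := (SyF.mono h hm).le
  have h1 : Integrable fun y : R3 => (1 + ‖y‖) ^ (-(4 : ℝ)) :=
    integrable_one_add_norm (by simp; norm_num)
  refine (h1.const_mul C).mono' (h.smooth ()).continuous.aestronglyMeasurable
    (Eventually.of_forall fun y => ?_)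
  have e : (1 + ‖y‖) ^ (-(4 : ℝ)) = (1 + ‖y‖) ^ (-4 : ℤ) := by
    rw [← Real.rpow_intCast]
    norm_num
  rw [e]
  exact hC () y

end

end Pool.Agent.Work.MP_6bf1e5_an.Mat
end

-- merged part: Pool.Agent.Work.MP_6bf1e5_an.Ens.Rad
section
/-!
Calculus for the radial fields. `pd j (rad p) y = 2 y_j rad (dz p) y` and `|y|² rad (dz p) y = rad (th p) y`.
-/

open scoped ContDiff ENNReal FourierTransform Topology ComplexConjugate
open Set MeasureTheory Filter Polynomial Metric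

namespace Pool.Agent.Work.MP_6bf1e5_an.Ens

noncomputable section

/-- `f` is differentiable at `y` and its `j`-th derivative there is `v`. -/
def rad_D (j : Fin 3) (f : R3 → ℝ) (y : R3) (v : ℝ) : Prop :=
  ∃ L : R3 →L[ℝ] ℝ, HasFDerivAt f L y ∧ L (EuclideanSpace.single j 1) = v

theorem rad_D.pd_eq {j : Fin 3} {f : R3 → ℝ} {y : R3} {v : ℝ} (h : rad_D j f y v) :
    pd j f y = v := by
  obtain ⟨L, h1, h2⟩ := h
  rw [pd, h1.fderiv, h2]

theorem rad_D.add {j : Fin 3} {f g : R3 → ℝ} {y : R3} {v w : ℝ} (h : rad_D j f y v)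
    (k : rad_D j g y w) : rad_D j (fun z => f z + g z) y (v + w) := by
  obtain ⟨L, h1, h2⟩ := h
  obtain ⟨M, k1, k2⟩ := k
  exact ⟨L + M, h1.add k1, by simp [h2, k2]⟩

theorem rad_D.mul {j : Fin 3} {f g : R3 → ℝ} {y : R3} {v w : ℝ} (h : rad_D j f y v)
    (k : rad_D j g y w) : rad_D j (fun z => f z * g z) y (v * g y + f y * w) := by
  obtain ⟨L, h1, h2⟩ := h
  obtain ⟨M, k1, k2⟩ := k
  refine ⟨_, h1.mul k1, ?_⟩
  simp only [add_apply, smul_apply, h2, k2, smul_eq_mul]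
  ring

theorem rad_D.const (j : Fin 3) (r : ℝ) (y : R3) : rad_D j (fun _ => r) y 0 :=
  ⟨0, hasFDerivAt_const r y, rfl⟩

theorem rad_D.coord (j i : Fin 3) (y : R3) :
    rad_D j (fun z : R3 => z i) y (if i = j then 1 else 0) := by
  refine ⟨EuclideanSpace.proj i, (EuclideanSpace.proj i : R3 →L[ℝ] ℝ).hasFDerivAt, ?_⟩
  simp

theorem rad_D.congr {j : Fin 3} {f : R3 → ℝ} {y : R3} {v w : ℝ} (h : rad_D j f y v) (e : v = w) :
    rad_D j f y w := e ▸ h

theorem rad_D.sum3 {j : Fin 3} {f : Fin 3 → R3 → ℝ} {y : R3} {v : Fin 3 → ℝ}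
    (h : ∀ k, rad_D j (f k) y (v k)) : rad_D j (fun z => ∑ k, f k z) y (∑ k, v k) := by
  simp only [Fin.sum_univ_three]
  exact ((h 0).add (h 1)).add (h 2)

theorem rad_normsq (y : R3) : ‖y‖ ^ 2 = y 0 ^ 2 + y 1 ^ 2 + y 2 ^ 2 := by
  rw [EuclideanSpace.norm_sq_eq, Fin.sum_univ_three]
  simp only [Real.norm_eq_abs, sq_abs]

theorem rad_pos (y : R3) : 0 < 1 + ‖y‖ ^ 2 := by positivity

theorem rad_D.rad (j : Fin 3) (p : ℝ[X]) (y : R3) :
    rad_D j (rad p) y (2 * y j * rad (dz p) y) := by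
  have h1 : HasFDerivAt (fun z : R3 => 1 + ‖z‖ ^ 2) ((2 : ℕ) • innerSL ℝ y) y :=
    (hasStrictFDerivAt_norm_sq y).hasFDerivAt.const_add 1
  have h2 := (hasDerivAt_inv (rad_pos y).ne').comp_hasFDerivAt y h1
  have h3 := (p.hasDerivAt ((1 + ‖y‖ ^ 2)⁻¹)).comp_hasFDerivAt y h2
  refine ⟨_, h3, ?_⟩
  simp only [Ens.rad, dz, smul_apply, innerSL_apply_apply, smul_eq_mul,
    EuclideanSpace.inner_single_right, eval_neg, eval_mul, eval_pow, eval_X, nsmul_eq_mul,
    conj_trivial, inv_pow]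
  push_cast
  ring

theorem rad_D.lin (A : Matrix (Fin 3) (Fin 3) ℝ) (j i : Fin 3) (y : R3) :
    rad_D j (fun z : R3 => ∑ k, A i k * z k) y (A i j) := by
  refine (rad_D.sum3 fun k => (rad_D.const j (A i k) y).mul (rad_D.coord j k y)).congr ?_
  simp

theorem rad_D.qf {A : Matrix (Fin 3) (Fin 3) ℝ} (hs : ∀ i j, A i j = A j i) (j : Fin 3) (y : R3) :
    rad_D j (qf A) y (2 * ∑ k, A j k * y k) := by
  refine (rad_D.sum3 fun i => rad_D.sum3 fun k =>
    ((rad_D.const j (A i k) y).mul (rad_D.coord j i y)).mul (rad_D.coord j k y)).congr ?_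
  have h01 := hs 0 1
  have h02 := hs 0 2
  have h12 := hs 1 2
  fin_cases j <;> simp [Fin.sum_univ_three, h01, h02, h12] <;> ring

theorem rad_add (p q : ℝ[X]) (y : R3) : rad (p + q) y = rad p y + rad q y := by
  simp only [rad, eval_add]
theorem rad_mul (p q : ℝ[X]) (y : R3) : rad (p * q) y = rad p y * rad q y := by
  simp only [rad, eval_mul]
theorem contDiff_rad (p : ℝ[X]) : ContDiff ℝ ∞ (rad p) := by
  have h1 : ContDiff ℝ ∞ fun y : R3 => (1 + ‖y‖ ^ 2)⁻¹ :=
    (contDiff_const.add (contDiff_norm_sq ℝ)).inv fun y => (rad_pos y).ne'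
  have h2 : ContDiff ℝ ∞ fun t : ℝ => p.eval t := by
    simpa only [coe_aeval_eq_eval] using p.contDiff_aeval (𝕜 := ℝ) ∞
  exact h2.comp h1
theorem pd_rad (p : ℝ[X]) (j : Fin 3) (y : R3) : pd j (rad p) y = 2 * y j * rad (dz p) y :=
  (rad_D.rad j p y).pd_eq
theorem norm_sq_mul_dz (p : ℝ[X]) (y : R3) : ‖y‖ ^ 2 * rad (dz p) y = rad (th p) y := by
  have := (rad_pos y).ne'
  simp only [rad, dz, th, eval_neg, eval_mul, eval_pow, eval_X, eval_sub, eval_one]
  field_simp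
  ring
theorem rad_contDiff_coord (i : Fin 3) : ContDiff ℝ ∞ fun y : R3 => y i :=
  (EuclideanSpace.proj i : R3 →L[ℝ] ℝ).contDiff
theorem contDiff_qf (A : Matrix (Fin 3) (Fin 3) ℝ) : ContDiff ℝ ∞ (qf A) :=
  ContDiff.sum fun i _ => ContDiff.sum fun j _ =>
    (contDiff_const.mul (rad_contDiff_coord i)).mul (rad_contDiff_coord j)
theorem contDiff_FA (A : Matrix (Fin 3) (Fin 3) ℝ) (a b : ℝ[X]) (i : Fin 3) :
    ContDiff ℝ ∞ fun y => FA A a b y i :=
  ((contDiff_rad a).mul (ContDiff.sum fun j _ => contDiff_const.mul (rad_contDiff_coord j))).add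
    (((contDiff_rad b).mul (contDiff_qf A)).mul (rad_contDiff_coord i))

variable {A : Matrix (Fin 3) (Fin 3) ℝ}

theorem pd_qf (hs : ∀ i j, A i j = A j i) (j : Fin 3) (y : R3) :
    pd j (qf A) y = 2 * ∑ k, A j k * y k := (rad_D.qf hs j y).pd_eq
theorem pd_FA (hs : ∀ i j, A i j = A j i) (a b : ℝ[X]) (i j : Fin 3) (y : R3) :
    pd j (fun z => FA A a b z i) y = 2 * y j * rad (dz a) y * (∑ k, A i k * y k) + rad a y * A i j
      + 2 * y j * rad (dz b) y * qf A y * y i + 2 * rad b y * (∑ k, A j k * y k) * y i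
      + if i = j then rad b y * qf A y else 0 := by
  have h := ((rad_D.rad j a y).mul (rad_D.lin A j i y)).add
    (((rad_D.rad j b y).mul (rad_D.qf hs j y)).mul (rad_D.coord j i y))
  refine h.pd_eq.trans ?_
  split_ifs <;> ring
theorem pd_grad (hs : ∀ i j, A i j = A j i) (a : ℝ[X]) (i : Fin 3) (y : R3) :
    pd i (fun z => rad a z * qf A z / 2) y = FA A a (dz a) y i := by
  have h := ((rad_D.rad i a y).mul (rad_D.qf hs i y)).mul (rad_D.const i (2 : ℝ)⁻¹ y)
  simp only [div_eq_mul_inv]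
  refine h.pd_eq.trans ?_
  simp only [FA]
  ring

theorem rad_FA_apply (A : Matrix (Fin 3) (Fin 3) ℝ) (a b : ℝ[X]) (y : R3) (i : Fin 3) :
    FA A a b y i = rad a y * ∑ j, A i j * y j + rad b y * qf A y * y i := rfl

theorem rad_th_eq (p : ℝ[X]) (y : R3) :
    rad (th p) y = (y 0 ^ 2 + y 1 ^ 2 + y 2 ^ 2) * rad (dz p) y := by
  rw [← norm_sq_mul_dz, rad_normsq]

theorem rad_div_FA (hs : ∀ i j, A i j = A j i) (h0 : ∑ i, A i i = 0) (a b : ℝ[X]) (y : R3) :
    ∑ i, pd i (fun z => FA A a b z i) y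
      = qf A y * (2 * rad (dz a) y + 2 * rad (th b) y + 5 * rad b y) := by
  simp only [pd_FA hs, if_true, rad_th_eq, qf, Fin.sum_univ_three] at h0 ⊢
  linear_combination rad a y * h0

theorem rad_scal_FA (hs : ∀ i j, A i j = A j i) (a b : ℝ[X]) (i : Fin 3) (y : R3) :
    FA A a b y i + ∑ j, y j * pd j (fun z => FA A a b z i) y
      = 2 * FA A (a + th a) (2 * b + th b) y i := by
  have e : rad (2 * b) y = 2 * rad b y := by simp [rad]
  simp only [pd_FA hs]
  simp only [rad_FA_apply, rad_add, e, rad_th_eq, qf, Fin.sum_univ_three]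
  fin_cases i <;> simp <;> ring

theorem rad_pd2_FA (hs : ∀ i j, A i j = A j i) (a b : ℝ[X]) (i j : Fin 3) (y : R3) :
    pd j (pd j fun z => FA A a b z i) y =
      (2 * rad (dz a) y + 4 * y j ^ 2 * rad (dz (dz a)) y) * (∑ k, A i k * y k)
      + 4 * y j * rad (dz a) y * A i j
      + (2 * rad (dz b) y + 4 * y j ^ 2 * rad (dz (dz b)) y) * qf A y * y i
      + 8 * y j * rad (dz b) y * (∑ k, A j k * y k) * y i + 2 * rad b y * A j j * y i
      + if i = j then 4 * y j * rad (dz b) y * qf A y + 4 * rad b y * (∑ k, A j k * y k)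
        else 0 := by
  have e : (pd j fun z => FA A a b z i) = fun y : R3 =>
      2 * y j * rad (dz a) y * (∑ k, A i k * y k) + rad a y * A i j
      + 2 * y j * rad (dz b) y * qf A y * y i + 2 * rad b y * (∑ k, A j k * y k) * y i
      + (if i = j then 1 else 0) * (rad b y * qf A y) := by
    funext y
    rw [pd_FA hs]
    split_ifs <;> ring
  rw [e]
  have c2 := rad_D.const j (2 : ℝ) y
  have cj := rad_D.coord j j y
  have ci := rad_D.coord j i y
  have q := rad_D.qf hs j y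
  have h := ((((((c2.mul cj).mul (rad_D.rad j (dz a) y)).mul (rad_D.lin A j i y)).add
    ((rad_D.rad j a y).mul (rad_D.const j (A i j) y))).add
    ((((c2.mul cj).mul (rad_D.rad j (dz b) y)).mul q).mul ci)).add
    (((c2.mul (rad_D.rad j b y)).mul (rad_D.lin A j j y)).mul ci)).add
    ((rad_D.const j (if i = j then (1 : ℝ) else 0) y).mul ((rad_D.rad j b y).mul q))
  refine h.pd_eq.trans ?_
  simp only [if_true]
  split_ifs <;> ring

theorem rad_lap_FA (hs : ∀ i j, A i j = A j i) (h0 : ∑ i, A i i = 0) (a b : ℝ[X]) (i : Fin 3)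
    (y : R3) : ∑ j, pd j (pd j fun z => FA A a b z i) y
      = FA A (10 * dz a + 4 * th (dz a) + 4 * b) (18 * dz b + 4 * th (dz b)) y i := by
  have e : ∀ (n : ℕ) [n.AtLeastTwo] (p : ℝ[X]),
      rad (OfNat.ofNat n * p) y = OfNat.ofNat n * rad p y := fun n _ p => by simp [rad]
  simp only [rad_pd2_FA hs]
  simp only [rad_FA_apply, rad_add, e, rad_th_eq, qf, Fin.sum_univ_three] at h0 ⊢
  fin_cases i
  · simp
    linear_combination 2 * rad b y * y 0 * h0
  · simp
    linear_combination 2 * rad b y * y 1 * h0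
  · simp
    linear_combination 2 * rad b y * y 2 * h0

theorem div_SA (hs : ∀ i j, A i j = A j i) (h0 : ∑ i, A i i = 0) (g : ℝ[X]) (y : R3) :
    ∑ i, pd i (fun z => SA A g z i) y = 0 := by
  have e : 2 * dz (al g) + 2 * th (be g) + 5 * be g = 0 := by
    simp only [al, be, th, dz, derivative_add, derivative_mul, derivative_neg, derivative_sub,
      derivative_X, derivative_one, derivative_ofNat, derivative_X_pow, Nat.cast_ofNat, map_ofNat]
    ring
  have e' := congrArg (fun p => rad p y) e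
  simp only [rad, eval_add, eval_mul, eval_ofNat, eval_zero] at e'
  simp only [SA, rad_div_FA hs h0, rad, e', mul_zero]
theorem scal_SA (hs : ∀ i j, A i j = A j i) (g : ℝ[X]) (i : Fin 3) (y : R3) :
    SA A g y i + ∑ j, y j * pd j (fun z => SA A g z i) y = 2 * SA A (g + th g) y i := by
  have e1 : al (g + th g) = al g + th (al g) := by
    simp only [al, th, derivative_add, derivative_mul, derivative_neg, derivative_sub,
      derivative_X, derivative_one, derivative_ofNat]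
    ring
  have e2 : be (g + th g) = 2 * be g + th (be g) := by
    simp only [be, th, dz, derivative_add, derivative_mul, derivative_neg, derivative_sub,
      derivative_X, derivative_one, derivative_ofNat, derivative_X_pow, Nat.cast_ofNat, map_ofNat]
    ring
  simp only [SA, e1, e2]
  exact rad_scal_FA hs _ _ i y
theorem lap_SA (hs : ∀ i j, A i j = A j i) (h0 : ∑ i, A i i = 0) (g : ℝ[X]) (i : Fin 3) (y : R3) :
    ∑ j, pd j (pd j fun z => SA A g z i) y = SA A (lap7 g) y i := by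
  have e1 : al (lap7 g) = 10 * dz (al g) + 4 * th (dz (al g)) + 4 * be g := by
    simp only [lap7, al, be, th, dz, derivative_add, derivative_mul, derivative_neg, derivative_sub,
      derivative_X, derivative_one, derivative_ofNat, derivative_X_pow, Nat.cast_ofNat, map_ofNat,
      derivative_zero, Nat.add_one_sub_one, pow_one]
    ring
  have e2 : be (lap7 g) = 18 * dz (be g) + 4 * th (dz (be g)) := by
    simp only [lap7, be, th, dz, derivative_add, derivative_mul, derivative_neg, derivative_sub,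
      derivative_X, derivative_one, derivative_ofNat, derivative_X_pow, Nat.cast_ofNat, map_ofNat,
      derivative_zero, Nat.add_one_sub_one, pow_one]
    ring
  simp only [SA, e1, e2]
  exact rad_lap_FA hs h0 _ _ i y
theorem SA_linP (ν : ℝ) (g : ℝ[X]) (y : R3) (i : Fin 3) :
    SA A (linP ν g) y i = SA A (g + th g) y i - ν * SA A (lap7 g) y i := by
  have e1 : al (linP ν g) = al (g + th g) + C (-ν) * al (lap7 g) := by
    simp only [linP, al]
    generalize lap7 g = h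
    generalize g + th g = k
    simp only [th, derivative_sub, derivative_C_mul, map_neg]
    ring
  have e2 : be (linP ν g) = be (g + th g) + C (-ν) * be (lap7 g) := by
    simp only [linP, be]
    generalize lap7 g = h
    generalize g + th g = k
    simp only [dz, derivative_sub, derivative_C_mul, map_neg]
    ring
  have e3 : rad (C (-ν)) y = -ν := by simp only [rad, eval_C]
  simp only [SA, e1, e2, rad_FA_apply, rad_add, rad_mul, e3]
  ring
theorem coeff_zero_th (g : ℝ[X]) : (th g).coeff 0 = 0 := by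
  simp [th, mul_assoc]

theorem rad_bound (p : ℝ[X]) : ∃ M : ℝ, 0 ≤ M ∧ ∀ y, |rad p y| ≤ M := by
  obtain ⟨M, hM⟩ := (isCompact_Icc (a := (0 : ℝ)) (b := 1)).exists_bound_of_continuousOn
    p.continuous.continuousOn
  refine ⟨max M 0, le_max_right _ _, fun y => le_trans (hM _ ⟨?_, ?_⟩) (le_max_left _ _)⟩
  · exact (inv_pos.mpr (rad_pos y)).le
  · exact inv_le_one_of_one_le₀ (by linarith only [sq_nonneg ‖y‖, sq_nonneg ‖y‖])

theorem rad_abs_coord (y : R3) (i : Fin 3) : |y i| ≤ ‖y‖ := by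
  simpa only [Real.norm_eq_abs] using PiLp.norm_apply_le y i

theorem rad_lin_bound (A : Matrix (Fin 3) (Fin 3) ℝ) :
    ∃ M : ℝ, 0 ≤ M ∧ ∀ (y : R3), (∀ i, |∑ j, A i j * y j| ≤ M * ‖y‖) ∧ |qf A y| ≤ M * ‖y‖ ^ 2 := by
  refine ⟨∑ i, ∑ j, |A i j|, by positivity, fun y => ⟨fun i => ?_, ?_⟩⟩
  · refine (Finset.abs_sum_le_sum_abs _ _).trans (le_trans ?_ (mul_le_mul_of_nonneg_right
      (Finset.single_le_sum (f := fun i => ∑ j, |A i j|) (fun _ _ => by positivity)
        (Finset.mem_univ i)) (norm_nonneg y)))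
    rw [Finset.sum_mul]
    refine Finset.sum_le_sum fun j _ => ?_
    rw [abs_mul]
    exact mul_le_mul_of_nonneg_left (rad_abs_coord y j) (abs_nonneg _)
  · rw [qf, Finset.sum_mul]
    refine (Finset.abs_sum_le_sum_abs _ _).trans (Finset.sum_le_sum fun i _ => ?_)
    rw [Finset.sum_mul]
    refine (Finset.abs_sum_le_sum_abs _ _).trans (Finset.sum_le_sum fun j _ => ?_)
    rw [abs_mul, abs_mul, mul_assoc, sq]
    exact mul_le_mul_of_nonneg_left
      (mul_le_mul (rad_abs_coord y i) (rad_abs_coord y j) (abs_nonneg _) (norm_nonneg y))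
      (abs_nonneg _)

theorem decay_SA (A : Matrix (Fin 3) (Fin 3) ℝ) {g : ℝ[X]} (hg : g.coeff 0 = 0) :
    ∃ C : ℝ, ∀ y, ‖SA A g y‖ ≤ C / (1 + ‖y‖) := by
  obtain ⟨g1, hg1⟩ := X_dvd_iff.mpr hg
  obtain ⟨Ma, hMa, ha⟩ := rad_bound (3 * g1 - 2 * ((1 - X) * derivative g))
  obtain ⟨Mb, hMb, hb⟩ := rad_bound (2 * derivative g)
  obtain ⟨M, hM, hA⟩ := rad_lin_bound A
  refine ⟨4 * ((Ma + Mb) * M), fun y => ?_⟩
  obtain ⟨hL, hq⟩ := hA y
  have hr := norm_nonneg y
  have hp := rad_pos y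
  set x := (1 + ‖y‖ ^ 2)⁻¹ with hx
  have hx0 : 0 < x := inv_pos.mpr hp
  have hx1 : x * (1 + ‖y‖ ^ 2) = 1 := inv_mul_cancel₀ hp.ne'
  have ea : rad (al g) y = x * rad (3 * g1 - 2 * ((1 - X) * derivative g)) y := by
    have : al g = X * (3 * g1 - 2 * ((1 - X) * derivative g)) := by
      rw [al, th]
      linear_combination 3 * hg1
    rw [this, rad_mul, rad, eval_X]
  have eb : rad (be g) y = x ^ 2 * rad (2 * derivative g) y := by
    have : be g = X ^ 2 * (2 * derivative g) := by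
      rw [be, dz]
      ring
    rw [this, rad_mul, rad, eval_pow, eval_X]
  have key : ∀ i, |SA A g y i| ≤ (Ma + Mb) * M * (x * ‖y‖) := by
    intro i
    rw [SA, rad_FA_apply, ea, eb]
    refine (abs_add_le _ _).trans ?_
    have h1 : |x * rad (3 * g1 - 2 * ((1 - X) * derivative g)) y * ∑ j, A i j * y j|
        ≤ x * Ma * (M * ‖y‖) := by
      rw [abs_mul, abs_mul, abs_of_pos hx0]
      exact mul_le_mul (mul_le_mul_of_nonneg_left (ha y) hx0.le) (hL i) (abs_nonneg _)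
        (by positivity)
    have h2 : |x ^ 2 * rad (2 * derivative g) y * qf A y * y i|
        ≤ x ^ 2 * Mb * (M * ‖y‖ ^ 2) * ‖y‖ := by
      rw [abs_mul, abs_mul, abs_mul, abs_of_pos (pow_pos hx0 2)]
      exact mul_le_mul (mul_le_mul (mul_le_mul_of_nonneg_left (hb y) (by positivity)) hq
        (abs_nonneg _) (by positivity)) (rad_abs_coord y i) (abs_nonneg _) (by positivity)
    have h3 : x * ‖y‖ ^ 2 ≤ 1 := by linarith only [hx0, hx1]
    have h4 : x ^ 2 * Mb * (M * ‖y‖ ^ 2) * ‖y‖ ≤ Mb * M * (x * ‖y‖) := by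
      have := mul_le_mul_of_nonneg_left h3 (show 0 ≤ Mb * M * (x * ‖y‖) by positivity)
      linarith only [this]
    linarith only [h1, h2, h4]
  have h5 : x * ‖y‖ ≤ 2 / (1 + ‖y‖) := by
    rw [le_div_iff₀ (by positivity)]
    have : ‖y‖ * (1 + ‖y‖) ≤ 2 * (1 + ‖y‖ ^ 2) := by linarith only [sq_nonneg (‖y‖ - 1), sq_nonneg (‖y‖ - (1 : ℝ)), sq_nonneg ‖y‖]
    have := mul_le_mul_of_nonneg_left this hx0.le
    linarith only [hx1, this]
  set K := (Ma + Mb) * M * (x * ‖y‖) with hK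
  have hK0 : 0 ≤ K := by positivity
  have h6 : ‖SA A g y‖ ≤ 2 * K := by
    refine (pow_le_pow_iff_left₀ (norm_nonneg _) (by positivity) two_ne_zero).mp ?_
    rw [rad_normsq]
    linarith only [key, sq_le_sq' (abs_le.mp (key 0)).1 (abs_le.mp (key 0)).2,
      sq_le_sq' (abs_le.mp (key 1)).1 (abs_le.mp (key 1)).2,
      sq_le_sq' (abs_le.mp (key 2)).1 (abs_le.mp (key 2)).2, sq_nonneg K, sq_nonneg K]
  refine h6.trans ?_
  have := mul_le_mul_of_nonneg_left h5 (show 0 ≤ 2 * ((Ma + Mb) * M) by positivity)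
  calc 2 * K = 2 * ((Ma + Mb) * M) * (x * ‖y‖) := by rw [hK]; ring
    _ ≤ 2 * ((Ma + Mb) * M) * (2 / (1 + ‖y‖)) := this
    _ = 4 * ((Ma + Mb) * M) / (1 + ‖y‖) := by ring

theorem rad_exists_prim (Q : ℝ[X]) : ∃ P : ℝ[X], derivative P = Q := by
  induction Q using Polynomial.induction_on' with
  | add p q hp hq =>
    obtain ⟨P, hP⟩ := hp
    obtain ⟨R, hR⟩ := hq
    exact ⟨P + R, by rw [derivative_add, hP, hR]⟩
  | monomial n a =>
    refine ⟨monomial (n + 1) (a / ((n : ℝ) + 1)), ?_⟩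
    rw [derivative_monomial_succ, div_mul_cancel₀ _ (by positivity)]

/-- A radial field `R(z) y` with `R = O(x²)` is a gradient. -/
theorem exists_pot {R : ℝ[X]} (hR : X ^ 2 ∣ R) :
    ∃ P : ℝ[X], ∀ i y, pd i (rad P) y = rad R y * y i := by
  obtain ⟨Q, rfl⟩ := hR
  obtain ⟨P, hP⟩ := rad_exists_prim (C (-(1 / 2 : ℝ)) * Q)
  refine ⟨P, fun i y => ?_⟩
  rw [pd_rad]
  simp only [rad, dz, hP, eval_neg, eval_mul, eval_C]
  ring

end

end Pool.Agent.Work.MP_6bf1e5_an.Ens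
end

-- merged part: Pool.Agent.Work.MP_6bf1e5_an.Mat.RadF
section
/-!
Fields `FF A a b`; compare Ens/Rad.lean, where the coefficients are polynomials in `1 / (1 + z)` (the lemmas `rad_D.*` can be reused).
`exists_radpot`: take `P y = (1/2) ∫ s in 0..|y|², R s`. `OdeSol.sy_WJ`: `g` has `k = 1` in `sy_rad`, `deriv g` has `k = 2`,
and `|y|² = ∑ y j * y j` has order `2`.
-/

open scoped ContDiff ENNReal FourierTransform Topology ComplexConjugate Matrix
open Set MeasureTheory Filter Metric Pool.Agent.Work.MP_6bf1e5_an.Ens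

namespace Pool.Agent.Work.MP_6bf1e5_an.Mat

noncomputable section

variable {A : Matrix (Fin 3) (Fin 3) ℝ} {a b : ℝ → ℝ}

theorem radf_D {f : ℝ → ℝ} (hf : Differentiable ℝ f) (j : Fin 3) (y : R3) :
    rad_D j (fun x => f (‖x‖ ^ 2)) y (2 * y j * deriv f (‖y‖ ^ 2)) := by
  have h1 : HasFDerivAt (fun z : R3 => ‖z‖ ^ 2) ((2 : ℕ) • innerSL ℝ y) y :=
    (hasStrictFDerivAt_norm_sq y).hasFDerivAt
  have h3 := (hf (‖y‖ ^ 2)).hasDerivAt.comp_hasFDerivAt y h1
  refine ⟨_, h3, ?_⟩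
  simp only [smul_apply, innerSL_apply_apply, smul_eq_mul,
    EuclideanSpace.inner_single_right, nsmul_eq_mul, conj_trivial]
  push_cast
  ring

theorem radf_diff {f : ℝ → ℝ} (hf : ContDiff ℝ ∞ f) : Differentiable ℝ f :=
  hf.differentiable (by simp)

theorem radf_deriv {f : ℝ → ℝ} (hf : ContDiff ℝ ∞ f) : ContDiff ℝ ∞ (deriv f) :=
  (contDiff_infty_iff_deriv.mp hf).2

theorem radf_smooth {f : ℝ → ℝ} (hf : ContDiff ℝ ∞ f) : ContDiff ℝ ∞ fun y : R3 => f (‖y‖ ^ 2) :=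
  hf.comp (contDiff_norm_sq ℝ)

theorem radf_apply (A : Matrix (Fin 3) (Fin 3) ℝ) (a b : ℝ → ℝ) (y : R3) (i : Fin 3) :
    FF A a b y i = a (‖y‖ ^ 2) * ∑ j, A i j * y j + b (‖y‖ ^ 2) * qf A y * y i := rfl

theorem pd_radF {f : ℝ → ℝ} (hf : Differentiable ℝ f) (j : Fin 3) (y : R3) :
    pd j (fun x => f (‖x‖ ^ 2)) y = 2 * y j * deriv f (‖y‖ ^ 2) := (radf_D hf j y).pd_eq

theorem contDiff_FF (A : Matrix (Fin 3) (Fin 3) ℝ) (ha : ContDiff ℝ ∞ a) (hb : ContDiff ℝ ∞ b)
    (i : Fin 3) : ContDiff ℝ ∞ fun y => FF A a b y i :=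
  ((radf_smooth ha).mul (ContDiff.sum fun j _ => contDiff_const.mul (rad_contDiff_coord j))).add
    (((radf_smooth hb).mul (contDiff_qf A)).mul (rad_contDiff_coord i))

theorem pd_FF (hs : ∀ i j, A i j = A j i) (ha : ContDiff ℝ ∞ a) (hb : ContDiff ℝ ∞ b)
    (i j : Fin 3) (y : R3) : pd j (fun z => FF A a b z i) y =
      2 * y j * deriv a (‖y‖ ^ 2) * (∑ k, A i k * y k) + a (‖y‖ ^ 2) * A i j
      + 2 * y j * deriv b (‖y‖ ^ 2) * qf A y * y i + 2 * b (‖y‖ ^ 2) * (∑ k, A j k * y k) * y i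
      + if i = j then b (‖y‖ ^ 2) * qf A y else 0 := by
  have h := ((radf_D (radf_diff ha) j y).mul (rad_D.lin A j i y)).add
    (((radf_D (radf_diff hb) j y).mul (rad_D.qf hs j y)).mul (rad_D.coord j i y))
  refine h.pd_eq.trans ?_
  split_ifs <;> ring

theorem div_FF (hs : ∀ i j, A i j = A j i) (h0 : ∑ i, A i i = 0) (ha : ContDiff ℝ ∞ a)
    (hb : ContDiff ℝ ∞ b) (y : R3) : ∑ i, pd i (fun z => FF A a b z i) y =
      qf A y * (2 * deriv a (‖y‖ ^ 2) + 2 * ‖y‖ ^ 2 * deriv b (‖y‖ ^ 2) + 5 * b (‖y‖ ^ 2)) := by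
  simp only [pd_FF hs ha hb, if_true]
  have e := rad_normsq y
  generalize ‖y‖ ^ 2 = z at e ⊢
  generalize deriv a z = a1
  generalize deriv b z = b1
  generalize a z = a0
  generalize b z = b0
  simp only [qf, Fin.sum_univ_three, e] at h0 ⊢
  linear_combination a0 * h0

theorem scal_FF (hs : ∀ i j, A i j = A j i) (ha : ContDiff ℝ ∞ a) (hb : ContDiff ℝ ∞ b)
    (i : Fin 3) (y : R3) : FF A a b y i + ∑ j, y j * pd j (fun z => FF A a b z i) y =
      2 * FF A (fun z => a z + z * deriv a z) (fun z => 2 * b z + z * deriv b z) y i := by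
  simp only [pd_FF hs ha hb]
  simp only [radf_apply]
  have e := rad_normsq y
  generalize ‖y‖ ^ 2 = z at e ⊢
  generalize deriv a z = a1
  generalize deriv b z = b1
  generalize a z = a0
  generalize b z = b0
  simp only [qf, Fin.sum_univ_three, e]
  fin_cases i <;> simp <;> ring

theorem radf_pd2 (hs : ∀ i j, A i j = A j i) (ha : ContDiff ℝ ∞ a) (hb : ContDiff ℝ ∞ b)
    (i j : Fin 3) (y : R3) : pd j (pd j fun z => FF A a b z i) y =
      (2 * deriv a (‖y‖ ^ 2) + 4 * y j ^ 2 * deriv (deriv a) (‖y‖ ^ 2)) * (∑ k, A i k * y k)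
      + 4 * y j * deriv a (‖y‖ ^ 2) * A i j
      + (2 * deriv b (‖y‖ ^ 2) + 4 * y j ^ 2 * deriv (deriv b) (‖y‖ ^ 2)) * qf A y * y i
      + 8 * y j * deriv b (‖y‖ ^ 2) * (∑ k, A j k * y k) * y i + 2 * b (‖y‖ ^ 2) * A j j * y i
      + if i = j then 4 * y j * deriv b (‖y‖ ^ 2) * qf A y + 4 * b (‖y‖ ^ 2) * (∑ k, A j k * y k)
        else 0 := by
  have e : (pd j fun z => FF A a b z i) = fun y : R3 =>
      2 * y j * deriv a (‖y‖ ^ 2) * (∑ k, A i k * y k) + a (‖y‖ ^ 2) * A i j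
      + 2 * y j * deriv b (‖y‖ ^ 2) * qf A y * y i + 2 * b (‖y‖ ^ 2) * (∑ k, A j k * y k) * y i
      + (if i = j then 1 else 0) * (b (‖y‖ ^ 2) * qf A y) := by
    funext y
    rw [pd_FF hs ha hb]
    split_ifs <;> ring
  rw [e]
  have c2 := rad_D.const j (2 : ℝ) y
  have cj := rad_D.coord j j y
  have ci := rad_D.coord j i y
  have q := rad_D.qf hs j y
  have da := radf_D (radf_diff ha) j y
  have db := radf_D (radf_diff hb) j y
  have da' := radf_D (radf_diff (radf_deriv ha)) j y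
  have db' := radf_D (radf_diff (radf_deriv hb)) j y
  have h := ((((((c2.mul cj).mul da').mul (rad_D.lin A j i y)).add
    (da.mul (rad_D.const j (A i j) y))).add
    ((((c2.mul cj).mul db').mul q).mul ci)).add
    (((c2.mul db).mul (rad_D.lin A j j y)).mul ci)).add
    ((rad_D.const j (if i = j then (1 : ℝ) else 0) y).mul (db.mul q))
  refine h.pd_eq.trans ?_
  simp only [if_true]
  split_ifs <;> ring

theorem lap_FF (hs : ∀ i j, A i j = A j i) (h0 : ∑ i, A i i = 0) (ha : ContDiff ℝ ∞ a)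
    (hb : ContDiff ℝ ∞ b) (i : Fin 3) (y : R3) : lap (fun z => FF A a b z i) y =
      FF A (fun z => 4 * z * deriv (deriv a) z + 10 * deriv a z + 4 * b z)
        (fun z => 4 * z * deriv (deriv b) z + 18 * deriv b z) y i := by
  simp only [lap, radf_pd2 hs ha hb]
  simp only [radf_apply]
  have e := rad_normsq y
  generalize ‖y‖ ^ 2 = z at e ⊢
  generalize deriv (deriv a) z = a2
  generalize deriv (deriv b) z = b2
  generalize deriv a z = a1
  generalize deriv b z = b1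
  generalize b z = b0
  simp only [qf, Fin.sum_univ_three, e] at h0 ⊢
  fin_cases i
  · simp
    linear_combination 2 * b0 * y 0 * h0
  · simp
    linear_combination 2 * b0 * y 1 * h0
  · simp
    linear_combination 2 * b0 * y 2 * h0

theorem grad_FF (hs : ∀ i j, A i j = A j i) (ha : ContDiff ℝ ∞ a) (i : Fin 3) (y : R3) :
    pd i (fun z => a (‖z‖ ^ 2) * qf A z / 2) y = FF A a (deriv a) y i := by
  have h := ((radf_D (radf_diff ha) i y).mul (rad_D.qf hs i y)).mul (rad_D.const i (2 : ℝ)⁻¹ y)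
  simp only [div_eq_mul_inv]
  refine h.pd_eq.trans ?_
  simp only [radf_apply]
  ring

theorem exists_radpot {R : ℝ → ℝ} (hR : ContDiff ℝ ∞ R) :
    ∃ P : R3 → ℝ, ContDiff ℝ ∞ P ∧ ∀ i y, pd i P y = R (‖y‖ ^ 2) * y i := by
  have hd : ∀ z, HasDerivAt (fun t => (1 / 2 : ℝ) * ∫ s in (0 : ℝ)..t, R s) (1 / 2 * R z) z :=
    fun z => (hR.continuous.integral_hasStrictDerivAt 0 z).hasDerivAt.const_mul (1 / 2)
  have hdf : Differentiable ℝ fun t => (1 / 2 : ℝ) * ∫ s in (0 : ℝ)..t, R s :=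
    fun z => (hd z).differentiableAt
  have he : (deriv fun t => (1 / 2 : ℝ) * ∫ s in (0 : ℝ)..t, R s) = fun z => 1 / 2 * R z :=
    funext fun z => (hd z).deriv
  have hs : ContDiff ℝ ∞ fun t => (1 / 2 : ℝ) * ∫ s in (0 : ℝ)..t, R s := by
    refine contDiff_infty_iff_deriv.mpr ⟨hdf, ?_⟩
    rw [he]
    exact contDiff_const.mul hR
  refine ⟨_, radf_smooth hs, fun i y => ?_⟩
  rw [pd_radF hdf, he]
  ring

theorem contDiff_alZ {g : ℝ → ℝ} (hg : ContDiff ℝ ∞ g) : ContDiff ℝ ∞ (alZ g) :=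
  (contDiff_const.mul hg).add ((contDiff_const.mul contDiff_id).mul (radf_deriv hg))

theorem contDiff_beZ {g : ℝ → ℝ} (hg : ContDiff ℝ ∞ g) : ContDiff ℝ ∞ (beZ g) :=
  (contDiff_const.mul (radf_deriv hg)).neg

theorem radf_sy_lin (A : Matrix (Fin 3) (Fin 3) ℝ) (i : Fin 3) :
    Sy 1 fun y => ∑ j, A i j * y j :=
  SyF.sum Finset.univ (w := fun j (_ : Unit) (y : R3) => A i j * y j)
    fun j _ => SyF.const_mul (sy_coord j) (A i j)

theorem radf_sy_qf (A : Matrix (Fin 3) (Fin 3) ℝ) : Sy 2 (qf A) :=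
  SyF.sum Finset.univ (w := fun i (_ : Unit) (y : R3) => ∑ j, A i j * y i * y j) fun i _ =>
    SyF.sum Finset.univ (w := fun j (_ : Unit) (y : R3) => A i j * y i * y j) fun j _ =>
      SyF.mul (m := 1) (m' := 1) (SyF.const_mul (sy_coord i) (A i j)) (sy_coord j)

theorem radf_sy_normsq : Sy 2 fun y => ‖y‖ ^ 2 := by
  have h : Sy 2 fun y : R3 => ∑ j, y j * y j :=
    SyF.sum Finset.univ (w := fun j (_ : Unit) (y : R3) => y j * y j) fun j _ =>
      SyF.mul (m := 1) (m' := 1) (sy_coord j) (sy_coord j)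
  have e : (fun y : R3 => ‖y‖ ^ 2) = fun y : R3 => ∑ j, y j * y j := by
    funext y
    rw [norm_sq_eq_sum]
    simp only [sq]
  rw [e]
  exact h

theorem OdeSol.sy_WJ {ν : ℝ} {g : ℝ → ℝ} (h : OdeSol ν g) (p : Fin 3 × Fin 3) (i : Fin 3) :
    Sy (-1) fun y => WJ g p y i := by
  have h1 : Sy (-2) fun y => g (‖y‖ ^ 2) := sy_rad (k := 1) h.smooth h.decay
  have h2 : Sy (-4) fun y => deriv g (‖y‖ ^ 2) := by
    refine sy_rad (k := 2) (radf_deriv h.smooth) fun n => ?_
    obtain ⟨C, hC⟩ := h.decay (n + 1)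
    refine ⟨C, fun z hz => ?_⟩
    have := hC z hz
    rwa [iteratedDeriv_succ'] at this
  have h3 : Sy (-2) fun y => 3 * g (‖y‖ ^ 2) + 2 * ‖y‖ ^ 2 * deriv g (‖y‖ ^ 2) :=
    SyF.add (SyF.const_mul h1 3)
      (SyF.mul (m := 2) (m' := -4) (SyF.const_mul radf_sy_normsq 2) h2)
  have h4 : Sy (-4) fun y => -2 * deriv g (‖y‖ ^ 2) := SyF.const_mul h2 (-2)
  have h5 := SyF.add (m := -1)
    (SyF.mul (m := -2) (m' := 1) h3 (radf_sy_lin (Am p.1 p.2) i))
    (SyF.mul (m := -2) (m' := 1) (SyF.mul (m := -4) (m' := 2) h4 (radf_sy_qf (Am p.1 p.2)))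
      (sy_coord i))
  have e : (fun y => WJ g p y i) = fun y : R3 =>
      (3 * g (‖y‖ ^ 2) + 2 * ‖y‖ ^ 2 * deriv g (‖y‖ ^ 2)) * ∑ j, Am p.1 p.2 i j * y j
        + -2 * deriv g (‖y‖ ^ 2) * qf (Am p.1 p.2) y * y i := by
    funext y
    simp only [WJ, radf_apply, alZ, beZ]
    ring
  rw [e]
  exact h5

end

end Pool.Agent.Work.MP_6bf1e5_an.Mat
end

-- merged part: Pool.Agent.Work.MP_6bf1e5_an.Mat.Series
section
/-!
The power series solution at the singular point. With `g = ∑ a n z^n`, `J = ∑ c n z^n`, `G = ∑ b n z^n`: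
`c 0 = -10 y`, `c (n+1) = b n / (n+1)`, `a n = c n / (4 n + 10)`, and
`(4 n + 10) b n = b (n-1) + ∑ i + j = n - 1, a i b j + c n + (1/8) ∑ i + j = n, c i c j` (no first two terms for `n = 0`).
Induction: `|a n|, |b n|, |c n| ≤ 17 * 16 ^ n`, and all coefficients are continuous in `y`. So the series converge
for `|z| < 1/16` (`FormalMultilinearSeries.ofScalars`, or `hasDerivAt_tsum_of_isPreconnected` with `contDiff_tsum` type
lemmas; Cauchy product `tsum_mul_tsum_eq_tsum_sum_antidiagonal_of_summable_norm`), are bounded by `34` for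
`|z| ≤ 1/32`, and are continuous in `y` (`continuousOn_tsum`). A way to define the coefficients without well founded
recursion: iterate a map on functions `ℕ → ℝ`, or recurse on finite lists.
-/

open scoped ContDiff Topology
open Set Filter

namespace Pool.Agent.Work.MP_6bf1e5_an.Mat

noncomputable section

/-- Strong recursion in the form of a fixed point. -/
theorem series_fix {X : Type} [Inhabited X] (F : (ℕ → X) → ℕ → X)
    (hF : ∀ b b' n, (∀ k < n, b k = b' k) → F b n = F b' n) :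
    ∃ b : ℕ → X, ∀ n, b n = F b n := by
  classical
  let H : ∀ n : ℕ, (∀ k, k < n → X) → X :=
    fun n ih => F (fun k => if h : k < n then ih k h else default) n
  refine ⟨WellFounded.fix (C := fun _ => X) Nat.lt_wfRel.wf H, fun n => ?_⟩
  rw [WellFounded.fix_eq]
  exact hF _ _ n fun k hk => dif_pos hk

theorem series_congr {f g : ℕ → ℝ} {a : ℝ} (h : HasSum f a) (e : ∀ n, f n = g n) :
    HasSum g a := (funext e : f = g) ▸ h

/-- The sum of a power series. -/
def seriesS (u : ℕ → ℝ) (z : ℝ) : ℝ := ∑' n, u n * z ^ n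

/-- The growth condition on the coefficients. -/
def SeriesB (u : ℕ → ℝ) : Prop := ∀ n, |u n| ≤ 17 * 16 ^ n

theorem series_norm_le {u : ℕ → ℝ} (hu : SeriesB u) {z r : ℝ} (hz : |z| ≤ r) (n : ℕ) :
    ‖u n * z ^ n‖ ≤ 17 * (16 * r) ^ n := by
  rw [Real.norm_eq_abs, abs_mul, abs_pow, mul_pow, ← mul_assoc]
  exact mul_le_mul (hu n) (pow_le_pow_left₀ (abs_nonneg _) hz n) (by positivity) (by positivity)

theorem series_abs_lt {z : ℝ} (hz : z ∈ Ioo (-(1 / 16) : ℝ) (1 / 16)) : |z| < 1 / 16 :=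
  abs_lt.mpr ⟨hz.1, hz.2⟩

theorem series_summable_norm {u : ℕ → ℝ} (hu : SeriesB u) {z : ℝ}
    (hz : z ∈ Ioo (-(1 / 16) : ℝ) (1 / 16)) : Summable fun n => ‖u n * z ^ n‖ := by
  have h1 := series_abs_lt hz
  have hs : Summable fun n : ℕ => 17 * (16 * |z|) ^ n :=
    (summable_geometric_of_lt_one (by positivity) (by linarith only [h1])).mul_left 17
  exact Summable.of_nonneg_of_le (fun _ => norm_nonneg _) (series_norm_le hu le_rfl) hs

theorem series_hasSum {u : ℕ → ℝ} (hu : SeriesB u) {z : ℝ}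
    (hz : z ∈ Ioo (-(1 / 16) : ℝ) (1 / 16)) : HasSum (fun n => u n * z ^ n) (seriesS u z) :=
  (series_summable_norm hu hz).of_norm.hasSum

theorem series_zero (u : ℕ → ℝ) : seriesS u 0 = u 0 := by
  unfold seriesS
  rw [tsum_eq_single 0 fun n hn => by simp [hn]]
  simp

theorem series_box {u : ℕ → ℝ} (hu : SeriesB u) {z : ℝ} (hz : z ∈ Icc (0 : ℝ) (1 / 32)) :
    |seriesS u z| ≤ 40 := by
  have h1 : |z| ≤ 1 / 32 := by rw [abs_of_nonneg hz.1]; exact hz.2
  have hs : HasSum (fun n : ℕ => 17 * ((16 : ℝ) * (1 / 32)) ^ n) (17 * (1 - 16 * (1 / 32))⁻¹) :=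
    (hasSum_geometric_of_lt_one (by norm_num) (by norm_num)).mul_left 17
  have h2 := tsum_of_norm_bounded hs (series_norm_le hu h1)
  rw [Real.norm_eq_abs] at h2
  refine h2.trans ?_
  norm_num

theorem series_smooth {u : ℕ → ℝ} (hu : SeriesB u) :
    ContDiffOn ℝ ∞ (seriesS u) (Ioo (-(1 / 16)) (1 / 16)) := by
  have hr : (((1 / 16 : NNReal) : NNReal) : ENNReal) ≤
      (FormalMultilinearSeries.ofScalars ℝ u).radius := by
    refine FormalMultilinearSeries.le_radius_of_bound _ 17 fun n => ?_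
    rw [FormalMultilinearSeries.ofScalars_norm, Real.norm_eq_abs]
    have h1 : (((1 / 16 : NNReal) : NNReal) : ℝ) = 1 / 16 := by norm_num
    rw [h1]
    calc |u n| * (1 / 16) ^ n ≤ 17 * 16 ^ n * (1 / 16) ^ n :=
          mul_le_mul_of_nonneg_right (hu n) (by positivity)
      _ = 17 := by rw [mul_assoc, ← mul_pow]; norm_num
  have hpos : 0 < (FormalMultilinearSeries.ofScalars ℝ u).radius :=
    lt_of_lt_of_le (by norm_num) hr
  have ha := ((FormalMultilinearSeries.ofScalars ℝ u).hasFPowerSeriesOnBall hpos).analyticOnNhd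
  have he : (FormalMultilinearSeries.ofScalars ℝ u).sum = seriesS u := by
    funext z
    exact FormalMultilinearSeries.ofScalars_sum_eq u z
  rw [he] at ha
  refine (ha.mono fun z hz => ?_).contDiffOn_of_completeSpace
  refine Metric.eball_subset_eball hr ?_
  rw [Metric.eball_coe, Metric.mem_ball, dist_zero_right, Real.norm_eq_abs]
  have h1 : (((1 / 16 : NNReal) : NNReal) : ℝ) = 1 / 16 := by norm_num
  rw [h1]
  exact series_abs_lt hz

theorem series_deriv {u : ℕ → ℝ} (hu : SeriesB u) {z : ℝ}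
    (hz : z ∈ Ioo (-(1 / 16) : ℝ) (1 / 16)) :
    HasSum (fun n : ℕ => u n * (n * z ^ (n - 1))) (deriv (seriesS u) z) := by
  have h1 := series_abs_lt hz
  obtain ⟨r, hr1, hr2⟩ := exists_between h1
  have hr0 : 0 < r := lt_of_le_of_lt (abs_nonneg _) hr1
  have hs : Summable fun n : ℕ => 17 / r * ((n : ℝ) ^ 1 * (16 * r) ^ n) :=
    (summable_pow_mul_geometric_of_norm_lt_one (R := ℝ) (r := 16 * r) 1 (by
      rw [Real.norm_eq_abs, abs_of_pos (by positivity)]; linarith only [hr2])).mul_left (17 / r)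
  have hb : ∀ (n : ℕ) (w : ℝ), w ∈ Ioo (-r) r →
      ‖u n * (n * w ^ (n - 1))‖ ≤ 17 / r * ((n : ℝ) ^ 1 * (16 * r) ^ n) := by
    intro n w hw
    have hw' : |w| ≤ r := (abs_lt.mpr ⟨hw.1, hw.2⟩).le
    rcases n with _ | n
    · simp
    · rw [Real.norm_eq_abs, abs_mul, abs_mul, abs_pow, Nat.add_sub_cancel, Nat.abs_cast]
      calc |u (n + 1)| * (((n + 1 : ℕ) : ℝ) * |w| ^ n)
          ≤ 17 * 16 ^ (n + 1) * (((n + 1 : ℕ) : ℝ) * r ^ n) :=
            mul_le_mul (hu _) (mul_le_mul_of_nonneg_left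
              (pow_le_pow_left₀ (abs_nonneg _) hw' n) (by positivity)) (by positivity)
              (by positivity)
        _ = 17 / r * (((n + 1 : ℕ) : ℝ) ^ 1 * (16 * r) ^ (n + 1)) := by
            rw [mul_pow, pow_succ r n]; field_simp
  have hzr : z ∈ Ioo (-r) r := abs_lt.mp hr1
  have hd := hasDerivAt_tsum_of_isPreconnected (𝕜 := ℝ) (F := ℝ) (t := Ioo (-r) r)
    (g := fun (n : ℕ) (w : ℝ) => u n * w ^ n)
    (g' := fun (n : ℕ) (w : ℝ) => u n * (n * w ^ (n - 1))) hs isOpen_Ioo isPreconnected_Ioo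
    (fun n w _ => (hasDerivAt_pow n w).const_mul (u n)) hb hzr
    (series_summable_norm hu hz).of_norm hzr
  have he : deriv (seriesS u) z = ∑' n : ℕ, u n * (n * z ^ (n - 1)) := hd.deriv
  rw [he]
  exact (Summable.of_norm_bounded hs fun n => hb n z hzr).hasSum

theorem series_zderiv {u : ℕ → ℝ} (hu : SeriesB u) {z : ℝ}
    (hz : z ∈ Ioo (-(1 / 16) : ℝ) (1 / 16)) :
    HasSum (fun n : ℕ => 4 * n * u n * z ^ n) (4 * z * deriv (seriesS u) z) := by
  have h := (series_deriv hu hz).mul_left (4 * z)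
  refine series_congr h fun n => ?_
  rcases n with _ | n
  · simp
  · rw [Nat.add_sub_cancel, pow_succ]; ring

theorem series_shift {u : ℕ → ℝ} (hu : SeriesB u) {z : ℝ}
    (hz : z ∈ Ioo (-(1 / 16) : ℝ) (1 / 16)) :
    HasSum (fun n : ℕ => (n + 1) * u (n + 1) * z ^ n) (deriv (seriesS u) z) := by
  have h := (hasSum_nat_add_iff' 1).mpr (series_deriv hu hz)
  simp only [Finset.range_one, Finset.sum_singleton, Nat.cast_zero, zero_mul, mul_zero,
    sub_zero, Nat.add_sub_cancel, Nat.cast_add, Nat.cast_one] at h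
  refine series_congr h fun n => ?_
  ring

/-- The convolution of two sequences. -/
def seriesC (u v : ℕ → ℝ) (n : ℕ) : ℝ :=
  ∑ p ∈ Finset.HasAntidiagonal.antidiagonal n, u p.1 * v p.2

theorem series_mul {u v : ℕ → ℝ} (hu : SeriesB u) (hv : SeriesB v) {z : ℝ}
    (hz : z ∈ Ioo (-(1 / 16) : ℝ) (1 / 16)) :
    HasSum (fun n => seriesC u v n * z ^ n) (seriesS u z * seriesS v z) := by
  have h1 := series_summable_norm hu hz
  have h2 := series_summable_norm hv hz
  have h := (summable_norm_sum_mul_antidiagonal_of_summable_norm h1 h2).of_norm.hasSum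
  rw [← tsum_mul_tsum_eq_tsum_sum_antidiagonal_of_summable_norm h1 h2] at h
  refine series_congr h fun n => ?_
  rw [seriesC, Finset.sum_mul]
  refine Finset.sum_congr rfl fun p hp => ?_
  rw [← Finset.HasAntidiagonal.mem_antidiagonal.mp hp, pow_add]; ring

theorem series_conv_le {u v : ℕ → ℝ} {n : ℕ} (hu : ∀ k ≤ n, |u k| ≤ 17 * 16 ^ k)
    (hv : ∀ k ≤ n, |v k| ≤ 17 * 16 ^ k) : |seriesC u v n| ≤ (n + 1) * (289 * 16 ^ n) := by
  refine (Finset.abs_sum_le_sum_abs _ _).trans ?_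
  have h : ∀ p ∈ Finset.HasAntidiagonal.antidiagonal n, |u p.1 * v p.2| ≤ 289 * 16 ^ n := by
    intro p hp
    have he := Finset.HasAntidiagonal.mem_antidiagonal.mp hp
    rw [abs_mul]
    calc |u p.1| * |v p.2| ≤ 17 * 16 ^ p.1 * (17 * 16 ^ p.2) :=
          mul_le_mul (hu _ (by omega)) (hv _ (by omega)) (abs_nonneg _) (by positivity)
      _ = 289 * 16 ^ n := by rw [← he, pow_add]; ring
  refine (Finset.sum_le_card_nsmul _ _ _ h).trans (le_of_eq ?_)
  rw [Finset.Nat.card_antidiagonal, nsmul_eq_mul]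
  push_cast
  ring

/-- The coefficients of `J` from those of `G`. -/
def seriesJ (y : ℝ) (b : ℕ → ℝ) : ℕ → ℝ
  | 0 => -(10 * y)
  | n + 1 => b n / (n + 1)

/-- The coefficients of `g` from those of `G`. -/
def seriesA (y : ℝ) (b : ℕ → ℝ) (n : ℕ) : ℝ := seriesJ y b n / (4 * n + 10)

/-- The coefficients of `z (1 + g) G`. -/
def seriesP (y : ℝ) (b : ℕ → ℝ) : ℕ → ℝ
  | 0 => 0
  | n + 1 => b n + seriesC (seriesA y b) b n

/-- The right-hand side of the recursion. -/
def seriesR (y : ℝ) (b : ℕ → ℝ) (n : ℕ) : ℝ :=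
  (seriesP y b n + seriesJ y b n + seriesC (seriesJ y b) (seriesJ y b) n / 8) / (4 * n + 10)

theorem series_C_congr {u v u' v' : ℕ → ℝ} {n : ℕ} (hu : ∀ k ≤ n, u k = u' k)
    (hv : ∀ k ≤ n, v k = v' k) : seriesC u v n = seriesC u' v' n := by
  refine Finset.sum_congr rfl fun p hp => ?_
  have he := Finset.HasAntidiagonal.mem_antidiagonal.mp hp
  rw [hu _ (by omega), hv _ (by omega)]

theorem series_R_congr (y : ℝ) {b b' : ℕ → ℝ} {n : ℕ} (h : ∀ k < n, b k = b' k) :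
    seriesR y b n = seriesR y b' n := by
  have hJ : ∀ k ≤ n, seriesJ y b k = seriesJ y b' k := by
    intro k hk
    rcases k with _ | k
    · rfl
    · simp only [seriesJ]; rw [h k (by omega)]
  have hP : seriesP y b n = seriesP y b' n := by
    rcases n with _ | n
    · rfl
    · simp only [seriesP]
      rw [h n (by omega), series_C_congr (u' := seriesA y b') (v' := b')
        (fun k hk => by rw [seriesA, seriesA, hJ k (by omega)]) (fun k hk => h k (by omega))]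
  rw [seriesR, seriesR, hP, hJ n le_rfl, series_C_congr hJ hJ]

theorem series_exists_b : ∃ b : ℝ → ℕ → ℝ, ∀ y n, b y n = seriesR y (b y) n := by
  have h : ∀ y, ∃ b : ℕ → ℝ, ∀ n, b n = seriesR y b n := fun y =>
    series_fix (seriesR y) fun _ _ _ h => series_R_congr y h
  choose b hb using h
  exact ⟨b, hb⟩

theorem series_J_le {y : ℝ} (hy : y ∈ Icc (3 / 2 : ℝ) (17 / 10)) {b : ℕ → ℝ} {n : ℕ}
    (h : ∀ k < n, |b k| ≤ 17 * 16 ^ k) : ∀ k ≤ n, |seriesJ y b k| ≤ 17 * 16 ^ k := by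
  intro k hk
  rcases k with _ | k
  · simp only [seriesJ]
    rw [abs_neg, abs_of_nonneg (by linarith only [hy, hy.1])]
    linarith only [hy, hy.2]
  · simp only [seriesJ]
    have h1 := h k (by omega)
    have h2 : (0 : ℝ) < 16 ^ k := by positivity
    have h3 : (1 : ℝ) ≤ (k : ℝ) + 1 := by linarith only [(Nat.cast_nonneg k : (0 : ℝ) ≤ k)]
    rw [abs_div, abs_of_pos (by linarith : (0 : ℝ) < (k : ℝ) + 1), pow_succ]
    refine (div_le_self (abs_nonneg _) h3).trans ?_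
    linarith only [h1, h2]

theorem series_A_le {y : ℝ} {b : ℕ → ℝ} {k : ℕ} (h : |seriesJ y b k| ≤ 17 * 16 ^ k) :
    |seriesA y b k| ≤ 17 * 16 ^ k := by
  have h3 : (1 : ℝ) ≤ 4 * (k : ℝ) + 10 := by linarith only [(Nat.cast_nonneg k : (0 : ℝ) ≤ k)]
  rw [seriesA, abs_div, abs_of_pos (by linarith : (0 : ℝ) < 4 * (k : ℝ) + 10)]
  exact (div_le_self (abs_nonneg _) h3).trans h

theorem series_b_le {y : ℝ} (hy : y ∈ Icc (3 / 2 : ℝ) (17 / 10)) {b : ℕ → ℝ}
    (hb : ∀ n, b n = seriesR y b n) : SeriesB b := by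
  intro n
  induction n using Nat.strong_induction_on with
  | _ n ih =>
    have hJ := series_J_le hy ih
    have hn : (0 : ℝ) ≤ n := Nat.cast_nonneg n
    have h2 : (0 : ℝ) < 16 ^ n := by positivity
    have hC := series_conv_le hJ hJ
    have hP : |seriesP y b n| ≤ (2 + 19 * n) * 16 ^ n := by
      rcases n with _ | n
      · simp [seriesP]
      · simp only [seriesP]
        have h4 := ih n (by omega)
        have h5 := series_conv_le (u := seriesA y b) (v := b) (n := n)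
          (fun k hk => series_A_le (hJ k (by omega))) (fun k hk => ih k (by omega))
        have h6 : (0 : ℝ) < 16 ^ n := by positivity
        have h7 : (0 : ℝ) ≤ n * 16 ^ n := by positivity
        refine (abs_add_le _ _).trans ?_
        rw [pow_succ]
        push_cast
        linarith only [h4, h5, h6, h7]
    have h8 := hJ n le_rfl
    have h9 : (0 : ℝ) ≤ n * 16 ^ n := by positivity
    rw [hb n, seriesR, abs_div, abs_of_pos (by linarith only [] : (0 : ℝ) < 4 * (n : ℝ) + 10),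
      div_le_iff₀ (by linarith only [])]
    refine (abs_add_le _ _).trans ?_
    have h10 := abs_add_le (seriesP y b n) (seriesJ y b n)
    rw [abs_div, abs_of_pos (by norm_num : (0 : ℝ) < 8)]
    linarith only [h2, hC, hP, h8, h9, h10]

theorem series_C_cont {u v : ℝ → ℕ → ℝ} {n : ℕ} (hu : ∀ k ≤ n, Continuous fun y => u y k)
    (hv : ∀ k ≤ n, Continuous fun y => v y k) : Continuous fun y => seriesC (u y) (v y) n := by
  refine continuous_finsetSum _ fun p hp => ?_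
  have he := Finset.HasAntidiagonal.mem_antidiagonal.mp hp
  exact (hu _ (by omega)).mul (hv _ (by omega))

theorem series_J_cont {b : ℝ → ℕ → ℝ} {n : ℕ} (h : ∀ k < n, Continuous fun y => b y k) :
    ∀ k ≤ n, Continuous fun y => seriesJ y (b y) k := by
  intro k hk
  rcases k with _ | k
  · simp only [seriesJ]
    fun_prop
  · simp only [seriesJ]
    exact (h k (by omega)).div_const _

theorem series_b_cont {b : ℝ → ℕ → ℝ} (hb : ∀ y n, b y n = seriesR y (b y) n) (n : ℕ) :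
    Continuous fun y => b y n := by
  induction n using Nat.strong_induction_on with
  | _ n ih =>
    have hJ := series_J_cont ih
    have hP : Continuous fun y => seriesP y (b y) n := by
      rcases n with _ | n
      · simp only [seriesP]
        exact continuous_const
      · simp only [seriesP]
        exact (ih n (by omega)).add (series_C_cont (u := fun y => seriesA y (b y))
          (fun k hk => (hJ k (by omega)).div_const _) (fun k hk => ih k (by omega)))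
    have he : (fun y => b y n) = fun y => seriesR y (b y) n := funext fun y => hb y n
    rw [he]
    exact ((hP.add (hJ n le_rfl)).add
      ((series_C_cont (u := fun y => seriesJ y (b y)) (v := fun y => seriesJ y (b y))
        hJ hJ).div_const _)).div_const _

theorem series_cont {u : ℝ → ℕ → ℝ} {s : Set ℝ} (hc : ∀ n, Continuous fun y => u y n)
    (hu : ∀ y ∈ s, SeriesB (u y)) : ContinuousOn (fun y => seriesS (u y) (1 / 32)) s := by
  have hs : Summable fun n : ℕ => 17 * ((16 : ℝ) * (1 / 32)) ^ n :=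
    (summable_geometric_of_lt_one (by norm_num) (by norm_num)).mul_left 17
  refine continuousOn_tsum (f := fun n y => u y n * (1 / 32 : ℝ) ^ n)
    (fun n => ((hc n).mul continuous_const).continuousOn) hs fun n y hy => ?_
  exact series_norm_le (hu y hy) (by norm_num [abs_of_pos]) n

theorem series_sol {y : ℝ} {b : ℕ → ℝ} (hb : ∀ n, b n = seriesR y b n) (hB : SeriesB b)
    (hJ : SeriesB (seriesJ y b)) (hA : SeriesB (seriesA y b)) :
    SmSol (Ioo (-(1 / 16)) (1 / 16)) (seriesS (seriesA y b)) (seriesS (seriesJ y b))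
      (seriesS b) := by
  have hpos : ∀ n : ℕ, (4 * (n : ℝ) + 10) ≠ 0 := fun n => by positivity
  refine ⟨series_smooth hA, series_smooth hJ, series_smooth hB, fun z hz => ?_, fun z hz => ?_,
    fun z hz => ?_⟩
  · have h1 := series_zderiv hA hz
    have h2 := (series_hasSum hJ hz).sub ((series_hasSum hA hz).mul_left 10)
    refine h1.unique (series_congr h2 fun n => ?_)
    have h3 : seriesJ y b n = seriesA y b n * (4 * n + 10) := by
      rw [seriesA, div_mul_cancel₀ _ (hpos n)]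
    rw [h3]; ring
  · have h1 := series_shift hJ hz
    refine h1.unique (series_congr (series_hasSum hB hz) fun n => ?_)
    have h3 : ((n : ℝ) + 1) ≠ 0 := by positivity
    simp only [seriesJ]
    field_simp
  · have h1 := series_zderiv hB hz
    have h2 := ((series_hasSum hB hz).add (series_mul hA hB hz)).mul_left z
    have h3 : HasSum (fun n : ℕ => seriesP y b (n + 1) * z ^ (n + 1))
        (z * (seriesS b z + seriesS (seriesA y b) z * seriesS b z)) := by
      refine series_congr h2 fun n => ?_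
      simp only [seriesP]
      ring
    have h4 := (hasSum_nat_add_iff (f := fun n : ℕ => seriesP y b n * z ^ n) 1).mp h3
    have h5 := ((h4.sub ((series_hasSum hB hz).mul_left 10)).add (series_hasSum hJ hz)).add
      ((series_mul hJ hJ hz).div_const 8)
    have h6 : (fun n : ℕ => seriesP y b n * z ^ n - 10 * (b n * z ^ n) + seriesJ y b n * z ^ n +
        seriesC (seriesJ y b) (seriesJ y b) n * z ^ n / 8) =
        fun n : ℕ => 4 * n * b n * z ^ n := by
      funext n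
      have h7 : seriesP y b n + seriesJ y b n + seriesC (seriesJ y b) (seriesJ y b) n / 8 =
          b n * (4 * n + 10) := by
        rw [hb n, seriesR, div_mul_cancel₀ _ (hpos n)]
      linear_combination z ^ n * h7
    rw [h6] at h5
    rw [h1.unique h5]
    simp only [Finset.range_one, Finset.sum_singleton, seriesP]
    ring

theorem exists_series : ∃ g J G : ℝ → ℝ → ℝ,
    (∀ y ∈ Icc (3 / 2 : ℝ) (17 / 10), SmSol (Ioo (-(1 / 16)) (1 / 16)) (g y) (J y) (G y) ∧
      Init y (g y) (J y) (G y) ∧ ∀ z ∈ Icc (0 : ℝ) (1 / 32), Box (g y) (J y) (G y) z) ∧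
    ContinuousOn (fun y => ((g y (1 / 32), J y (1 / 32), G y (1 / 32)) : T3))
      (Icc (3 / 2) (17 / 10)) := by
  obtain ⟨b, hb⟩ := series_exists_b
  have hB : ∀ y ∈ Icc (3 / 2 : ℝ) (17 / 10), SeriesB (b y) := fun y hy => series_b_le hy (hb y)
  have hJ : ∀ y ∈ Icc (3 / 2 : ℝ) (17 / 10), SeriesB (seriesJ y (b y)) := fun y hy n =>
    series_J_le hy (fun k _ => hB y hy k) n le_rfl
  have hA : ∀ y ∈ Icc (3 / 2 : ℝ) (17 / 10), SeriesB (seriesA y (b y)) := fun y hy n =>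
    series_A_le (hJ y hy n)
  have cB := series_b_cont hb
  have cJ : ∀ n, Continuous fun y => seriesJ y (b y) n := fun n =>
    series_J_cont (fun k _ => cB k) n le_rfl
  have cA : ∀ n, Continuous fun y => seriesA y (b y) n := fun n => (cJ n).div_const _
  refine ⟨fun y => seriesS (seriesA y (b y)), fun y => seriesS (seriesJ y (b y)),
    fun y => seriesS (b y), fun y hy => ⟨series_sol (hb y) (hB y hy) (hJ y hy) (hA y hy),
      ⟨?_, ?_, ?_⟩, fun z hz => ⟨series_box (hA y hy) hz, series_box (hJ y hy) hz,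
        series_box (hB y hy) hz⟩⟩,
    (series_cont (u := fun y => seriesA y (b y)) cA hA).prodMk
      ((series_cont (u := fun y => seriesJ y (b y)) cJ hJ).prodMk (series_cont cB hB))⟩
  · simp only [series_zero, seriesA, seriesJ]
    push_cast
    ring
  · simp only [series_zero, seriesJ]
  · simp only [series_zero]
    rw [hb y 0]
    simp only [seriesR, seriesP, seriesC, seriesJ, Finset.Nat.antidiagonal_zero,
      Finset.sum_singleton]
    push_cast
    ring

end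

end Pool.Agent.Work.MP_6bf1e5_an.Mat
end

-- merged part: Pool.Agent.Work.MP_6bf1e5_an.Mat.Flow
section
/-!
Global flow of a clamped vector field. On `[a, b]` the field `(t, x) ↦ F t (cl3 lo hi x)` is bounded and Lipschitz in
`x` (the derivative of `F` is bounded on a compact convex set, `cl3` is `1`-Lipschitz with bounded range), so
`IsPicardLindelof` holds on all of `[a, b]` with a large ball. Glue the solutions on `[a, a + n]` by uniqueness
(`ODE_solution_unique`); continuity in `x` from `dist_le_of_trajectories_ODE`. `contDiffOn_of_ode`: induction on the order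
with `contDiffOn_succ_iff_deriv_of_isOpen`, for the three functions together.
-/

open scoped ContDiff Topology
open Set Filter

namespace Pool.Agent.Work.MP_6bf1e5_an.Mat

noncomputable section

theorem cl_eq {a b x : ℝ} (h1 : a ≤ x) (h2 : x ≤ b) : cl a b x = x := by
  unfold cl
  rw [min_eq_left h2, max_eq_right h1]

theorem cl_mem {a b : ℝ} (h : a ≤ b) (x : ℝ) : cl a b x ∈ Icc a b :=
  ⟨le_max_left _ _, max_le h (min_le_right _ _)⟩

theorem cl_of_le {a b x : ℝ} (h : a ≤ b) (h1 : x ≤ a) : cl a b x = a := by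
  unfold cl
  rw [min_eq_left (h1.trans h), max_eq_left h1]

theorem cl_of_ge {a b x : ℝ} (h : a ≤ b) (h1 : b ≤ x) : cl a b x = b := by
  unfold cl
  rw [min_eq_right h1, max_eq_right h]

theorem flow_cl_mem (a b x : ℝ) : cl a b x ∈ Icc a (max a b) :=
  ⟨le_max_left _ _, max_le_max le_rfl (min_le_right _ _)⟩

theorem flow_cl_lip (a b : ℝ) : LipschitzWith 1 (cl a b) :=
  (LipschitzWith.id.min_const b).const_max a

theorem flow_cl3_lip (lo hi : T3) : LipschitzWith 1 (cl3 lo hi) := by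
  have h1 : LipschitzWith 1 fun x : T3 => cl lo.1 hi.1 x.1 := by
    simpa [Function.comp_def] using (flow_cl_lip lo.1 hi.1).comp (LipschitzWith.prod_fst (α := ℝ) (β := ℝ × ℝ))
  have h2 : LipschitzWith 1 fun x : T3 => cl lo.2.1 hi.2.1 x.2.1 := by
    simpa [Function.comp_def] using (flow_cl_lip lo.2.1 hi.2.1).comp ((LipschitzWith.prod_fst (α := ℝ) (β := ℝ)).comp
      (LipschitzWith.prod_snd (α := ℝ) (β := ℝ × ℝ)))
  have h3 : LipschitzWith 1 fun x : T3 => cl lo.2.2 hi.2.2 x.2.2 := by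
    simpa [Function.comp_def] using (flow_cl_lip lo.2.2 hi.2.2).comp ((LipschitzWith.prod_snd (α := ℝ) (β := ℝ)).comp
      (LipschitzWith.prod_snd (α := ℝ) (β := ℝ × ℝ)))
  have h4 := h1.prodMk (h2.prodMk h3)
  rw [max_self, max_self] at h4
  exact h4

/-- The global flow of a field that is bounded and Lipschitz on bounded time intervals. -/
theorem flow_gen {E : Type} [NormedAddCommGroup E] [NormedSpace ℝ E] [CompleteSpace E]
    {f : ℝ → E → E} {a : ℝ}
    (hL : ∀ b, ∃ K L : NNReal, ∀ t ∈ Icc a b, LipschitzWith K (f t) ∧ ∀ x, ‖f t x‖ ≤ L)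
    (hc : ∀ x, ContinuousOn (fun t => f t x) (Ici a)) :
    ∃ Φ : E → ℝ → E, (∀ x, Φ x a = x) ∧
      (∀ x t, a ≤ t → HasDerivWithinAt (Φ x) (f t (Φ x t)) (Ici a) t) ∧
      ∀ t, a ≤ t → Continuous fun x => Φ x t := by
  have ex : ∀ (b : ℝ) (x : E), ∃ α : ℝ → E, a ≤ b → α a = x ∧
      ∀ t ∈ Icc a b, HasDerivWithinAt α (f t (α t)) (Icc a b) t := by
    intro b x
    by_cases hab : a ≤ b
    · obtain ⟨K, L, h⟩ := hL b
      have hp : IsPicardLindelof f (⟨a, le_rfl, hab⟩ : Icc a b) x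
          (L * ⟨b - a, sub_nonneg.2 hab⟩) 0 L K := by
        refine ⟨fun t ht => (h t ht).1.lipschitzOnWith,
          fun y _ => (hc y).mono Icc_subset_Ici_self, fun t ht y _ => (h t ht).2 y, ?_⟩
        have : max (b - a) (a - a) = b - a := max_eq_left (by linarith)
        simp only [this, NNReal.coe_mul, NNReal.coe_zero, sub_zero]
        exact le_rfl
      obtain ⟨α, h1, h2⟩ := hp.exists_eq_forall_mem_Icc_hasDerivWithinAt₀
      exact ⟨α, fun _ => ⟨h1, h2⟩⟩
    · exact ⟨fun _ => x, fun h => absurd h hab⟩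
  choose α hα using ex
  have cont : ∀ b x c, a ≤ b → c ≤ b → ContinuousOn (α b x) (Icc a c) := fun b x c hab hc =>
    (HasDerivWithinAt.continuousOn (hα b x hab).2).mono (Icc_subset_Icc_right hc)
  have der : ∀ b x c, a ≤ b → c ≤ b → ∀ t ∈ Ico a c,
      HasDerivWithinAt (α b x) (f t (α b x t)) (Ici t) t := by
    intro b x c hab hc t ht
    have h := (hα b x hab).2 t ⟨ht.1, ht.2.le.trans hc⟩
    exact h.mono_of_mem_nhdsWithin (Icc_mem_nhdsGE_of_mem ⟨ht.1, ht.2.trans_le hc⟩)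
  have est : ∀ c, ∃ K : NNReal, ∀ b b' x y, a ≤ b → a ≤ b' → c ≤ b → c ≤ b' → ∀ t ∈ Icc a c,
      dist (α b x t) (α b' y t) ≤ dist x y * Real.exp (K * (t - a)) := by
    intro c
    obtain ⟨K, L, h⟩ := hL c
    refine ⟨K, fun b b' x y hb hb' hc hc' => ?_⟩
    refine dist_le_of_trajectories_ODE_of_mem (v := f) (s := fun _ => univ)
      (fun t ht => (h t (Ico_subset_Icc_self ht)).1.lipschitzOnWith) (cont b x c hb hc)
      (der b x c hb hc) (fun _ _ => trivial) (cont b' y c hb' hc') (der b' y c hb' hc')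
      (fun _ _ => trivial) ?_
    rw [(hα b x hb).1, (hα b' y hb').1]
  have uniq : ∀ b b' x t, a ≤ t → t ≤ b → t ≤ b' → α b x t = α b' x t := by
    intro b b' x t ht hb hb'
    obtain ⟨K, h⟩ := est t
    have := h b b' x x (ht.trans hb) (ht.trans hb') hb hb' t ⟨ht, le_rfl⟩
    rwa [dist_self, zero_mul, dist_le_zero] at this
  refine ⟨fun x t => α (t + 1) x t, fun x => (hα (a + 1) x (by linarith)).1, ?_, ?_⟩
  · intro x t ht
    have h := (hα (t + 1) x (by linarith)).2 t ⟨ht, by linarith⟩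
    have hm : Icc a (t + 1) ∈ 𝓝[Ici a] t := by
      rw [← Ici_inter_Iic]
      exact inter_mem_nhdsWithin _ (Iic_mem_nhds (by linarith))
    refine (h.mono_of_mem_nhdsWithin hm).congr_of_eventuallyEq ?_ rfl
    filter_upwards [hm] with s hs
    exact uniq _ _ x s hs.1 (by linarith) hs.2
  · intro t ht
    obtain ⟨K, h⟩ := est t
    refine (LipschitzWith.of_dist_le' (K := Real.exp (K * (t - a))) fun x y => ?_).continuous
    rw [mul_comm]
    exact h _ _ x y (by linarith) (by linarith) (by linarith) (by linarith) t ⟨ht, le_rfl⟩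

theorem exists_flow {F : ℝ → T3 → T3}
    (hF : ContDiffOn ℝ 1 (fun p : ℝ × T3 => F p.1 p.2) (Ioi 0 ×ˢ univ)) (lo hi : T3) {a : ℝ}
    (ha : 0 < a) : ∃ Φ : T3 → ℝ → T3, (∀ x, Φ x a = x) ∧
      (∀ x t, a ≤ t → HasDerivWithinAt (Φ x) (F t (cl3 lo hi (Φ x t))) (Ici a) t) ∧
      ∀ t, a ≤ t → Continuous fun x => Φ x t := by
  refine flow_gen (f := fun t x => F t (cl3 lo hi x)) (fun b => ?_) (fun x => ?_)
  · set B : Set T3 := Icc lo.1 (max lo.1 hi.1) ×ˢ (Icc lo.2.1 (max lo.2.1 hi.2.1) ×ˢ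
      Icc lo.2.2 (max lo.2.2 hi.2.2)) with hB
    have hm : ∀ x, cl3 lo hi x ∈ B := fun x =>
      ⟨flow_cl_mem _ _ _, flow_cl_mem _ _ _, flow_cl_mem _ _ _⟩
    have hK : IsCompact (Icc a b ×ˢ B) :=
      isCompact_Icc.prod (isCompact_Icc.prod (isCompact_Icc.prod isCompact_Icc))
    have hC : Convex ℝ (Icc a b ×ˢ B) :=
      (convex_Icc _ _).prod ((convex_Icc _ _).prod ((convex_Icc _ _).prod (convex_Icc _ _)))
    have hS : ContDiffOn ℝ 1 (fun p : ℝ × T3 => F p.1 p.2) (Icc a b ×ˢ B) :=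
      hF.mono fun p hp => ⟨ha.trans_le hp.1.1, trivial⟩
    obtain ⟨K, hK1⟩ := hS.exists_lipschitzOnWith one_ne_zero hC hK
    obtain ⟨L, hL⟩ := hK.exists_bound_of_continuousOn hS.continuousOn
    refine ⟨K, L.toNNReal, fun t ht => ⟨?_, fun x => ?_⟩⟩
    · refine LipschitzWith.of_dist_le_mul fun x y => ?_
      have h1 := hK1.dist_le_mul (t, cl3 lo hi x) ⟨ht, hm x⟩ (t, cl3 lo hi y) ⟨ht, hm y⟩
      have h2 := (flow_cl3_lip lo hi).dist_le_mul x y
      rw [dist_prod_same_left] at h1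
      rw [NNReal.coe_one, one_mul] at h2
      exact h1.trans (mul_le_mul_of_nonneg_left h2 K.2)
    · exact (hL (t, cl3 lo hi x) ⟨ht, hm x⟩).trans (Real.le_coe_toNNReal L)
  · exact hF.continuousOn.comp (f := fun t : ℝ => (t, cl3 lo hi x))
      (by fun_prop) fun t ht => ⟨ha.trans_le ht, trivial⟩

theorem smSol_of_eqs {g J G : ℝ → ℝ} (h : ∀ z, 0 < z → Eqs g J G z) : SmSol (Ioi 0) g J G := by
  have key : ∀ n : ℕ, ContDiffOn ℝ n g (Ioi 0) ∧ ContDiffOn ℝ n J (Ioi 0) ∧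
      ContDiffOn ℝ n G (Ioi 0) := by
    intro n
    induction n with
    | zero =>
      refine ⟨?_, ?_, ?_⟩ <;> rw [Nat.cast_zero, contDiffOn_zero] <;> intro z hz
      · exact (h z hz).1.continuousAt.continuousWithinAt
      · exact (h z hz).2.1.continuousAt.continuousWithinAt
      · exact (h z hz).2.2.continuousAt.continuousWithinAt
    | succ n ih =>
      obtain ⟨h1, h2, h3⟩ := ih
      have hz : ∀ z ∈ Ioi (0 : ℝ), 4 * z ≠ 0 := fun z hz => by
        have : 0 < z := hz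
        positivity
      have hid : ContDiffOn ℝ n (fun z : ℝ => z) (Ioi 0) := contDiffOn_id
      have h4 : ContDiffOn ℝ n (fun z : ℝ => 4 * z) (Ioi 0) := contDiffOn_const.mul hid
      refine ⟨?_, ?_, ?_⟩ <;> rw [Nat.cast_succ, contDiffOn_succ_iff_deriv_of_isOpen isOpen_Ioi]
      · refine ⟨fun z hz => (h z hz).1.differentiableAt.differentiableWithinAt, by simp, ?_⟩
        refine ContDiffOn.congr (f := fun z => fg z (g z) (J z)) ?_ fun z hz => (h z hz).1.deriv
        exact (h2.sub (contDiffOn_const.mul h1)).div h4 hz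
      · refine ⟨fun z hz => (h z hz).2.1.differentiableAt.differentiableWithinAt, by simp, ?_⟩
        exact h3.congr fun z hz => (h z hz).2.1.deriv
      · refine ⟨fun z hz => (h z hz).2.2.differentiableAt.differentiableWithinAt, by simp, ?_⟩
        refine ContDiffOn.congr (f := fun z => fG z (g z) (J z) (G z)) ?_
          fun z hz => (h z hz).2.2.deriv
        exact (((((hid.mul (contDiffOn_const.add h1)).sub contDiffOn_const).mul h3).add h2).add
          ((h2.pow 2).div_const 8)).div h4 hz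
  refine ⟨contDiffOn_infty.2 fun n => (key n).1, contDiffOn_infty.2 fun n => (key n).2.1,
    contDiffOn_infty.2 fun n => (key n).2.2, fun z hz => ?_, fun z hz => (h z hz).2.1.deriv,
    fun z hz => ?_⟩
  · have : (0 : ℝ) < z := hz
    rw [(h z hz).1.deriv, fg]
    field_simp
  · have : (0 : ℝ) < z := hz
    rw [(h z hz).2.2.deriv, fG]
    field_simp

end

end Pool.Agent.Work.MP_6bf1e5_an.Mat
end

-- merged part: Pool.Agent.Work.MP_6bf1e5_an.Mat.Inner
section
/-!
The family of solutions on `[0, ∞)`: the series for `z ≤ 1/32`, then the flow of the field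
with components `fg, G, fG`, clamped to the box `[-40, 40]³`. At `z = 1/32` glue the one-sided derivatives (the series lies in the box there).
-/

open scoped ContDiff Topology
open Set Filter

namespace Pool.Agent.Work.MP_6bf1e5_an.Mat

noncomputable section

/-- The vector field of the profile equation. -/
def innerF (z : ℝ) (x : T3) : T3 := (fg z x.1 x.2.1, x.2.2, fG z x.1 x.2.1 x.2.2)

theorem inner_smooth : ContDiffOn ℝ 1 (fun p : ℝ × T3 => innerF p.1 p.2) (Ioi 0 ×ˢ univ) := by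
  have h2 : ∀ p ∈ (Ioi 0 ×ˢ univ : Set (ℝ × T3)), 4 * p.1 ≠ 0 := fun p hp =>
    mul_ne_zero four_ne_zero (ne_of_gt hp.1)
  unfold innerF fg fG
  exact ContDiffOn.prodMk (ContDiffOn.div (by fun_prop) (by fun_prop) h2)
    (ContDiffOn.prodMk (by fun_prop) (ContDiffOn.div (by fun_prop) (by fun_prop) h2))

theorem inner_diff {U : Set ℝ} (hU : IsOpen U) {f : ℝ → ℝ} (hf : ContDiffOn ℝ ∞ f U) {z : ℝ}
    (hz : z ∈ U) : HasDerivAt f (deriv f z) z :=
  ((hf.contDiffAt (hU.mem_nhds hz)).differentiableAt (by simp)).hasDerivAt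

theorem inner_series_deriv {U : Set ℝ} (hU : IsOpen U) {g J G : ℝ → ℝ} (h : SmSol U g J G) {z : ℝ}
    (hz : z ∈ U) (h0 : 0 < z) :
    HasDerivAt (fun t => ((g t, J t, G t) : T3)) (innerF z (g z, J z, G z)) z := by
  have h4 : (4 * z) ≠ 0 := by positivity
  refine HasDerivAt.prodMk ?_ (HasDerivAt.prodMk ?_ ?_)
  · refine (inner_diff hU h.sg hz).congr_deriv ?_
    simp only [fg]
    rw [eq_div_iff h4, ← h.e1 z hz]
    ring
  · exact (inner_diff hU h.sJ hz).congr_deriv (h.e2 z hz)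
  · refine (inner_diff hU h.sG hz).congr_deriv ?_
    simp only [fG]
    rw [eq_div_iff h4, ← h.e3 z hz]
    ring

theorem inner_eqs {u : ℝ → T3} {z : ℝ} (h : HasDerivAt u (innerF z (u z)) z) :
    Eqs (fun t => (u t).1) (fun t => (u t).2.1) (fun t => (u t).2.2) z := by
  have h2 := (ContinuousLinearMap.snd ℝ ℝ (ℝ × ℝ)).hasFDerivAt.comp_hasDerivAt z h
  exact ⟨(ContinuousLinearMap.fst ℝ ℝ (ℝ × ℝ)).hasFDerivAt.comp_hasDerivAt z h,
    (ContinuousLinearMap.fst ℝ ℝ ℝ).hasFDerivAt.comp_hasDerivAt z h2,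
    (ContinuousLinearMap.snd ℝ ℝ ℝ).hasFDerivAt.comp_hasDerivAt z h2⟩

theorem inner_cl {x : T3} (h1 : |x.1| ≤ 40) (h2 : |x.2.1| ≤ 40) (h3 : |x.2.2| ≤ 40) :
    cl3 (-40, -40, -40) (40, 40, 40) x = x := by
  simp only [cl3]
  rw [cl_eq (abs_le.1 h1).1 (abs_le.1 h1).2, cl_eq (abs_le.1 h2).1 (abs_le.1 h2).2,
    cl_eq (abs_le.1 h3).1 (abs_le.1 h3).2]

theorem inner_smSol_congr {U V : Set ℝ} (hV : IsOpen V) (hVU : V ⊆ U) {g J G g' J' G' : ℝ → ℝ}
    (h : SmSol U g J G) (hg : EqOn g' g V) (hJ : EqOn J' J V) (hG : EqOn G' G V) :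
    SmSol V g' J' G' := by
  have e : ∀ {f f' : ℝ → ℝ}, EqOn f' f V → ∀ z ∈ V, deriv f' z = deriv f z := fun hf z hz =>
    (hf.eventuallyEq_of_mem (hV.mem_nhds hz)).deriv_eq
  refine ⟨(h.sg.mono hVU).congr hg, (h.sJ.mono hVU).congr hJ, (h.sG.mono hVU).congr hG,
    fun z hz => ?_, fun z hz => ?_, fun z hz => ?_⟩
  · rw [e hg z hz, hg hz, hJ hz]
    exact h.e1 z (hVU hz)
  · rw [e hJ z hz, hG hz]
    exact h.e2 z (hVU hz)
  · rw [e hG z hz, hg hz, hJ hz, hG hz]
    exact h.e3 z (hVU hz)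

theorem inner_glue {g J G : ℝ → ℝ} (h : SmSol (Ioo (-(1 / 16)) (1 / 16)) g J G) {φ u : ℝ → T3}
    (hφ : ∀ t, 1 / 32 ≤ t →
      HasDerivWithinAt φ (innerF t (cl3 (-40, -40, -40) (40, 40, 40) (φ t))) (Ici (1 / 32)) t)
    (h1 : ∀ t, t ≤ 1 / 32 → u t = (g t, J t, G t)) (h2 : ∀ t, 1 / 32 ≤ t → u t = φ t) :
    InSol (fun t => (u t).1) (fun t => (u t).2.1) (fun t => (u t).2.2) := by
  have hs : Icc (0 : ℝ) (1 / 32) ⊆ Ioo (-(1 / 16)) (1 / 16) := fun t ht =>
    ⟨by linarith only [ht, ht.1], by linarith only [ht, ht.2]⟩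
  have c1 : ContinuousOn u (Icc 0 (1 / 32)) :=
    (((h.sg.continuousOn.mono hs).prodMk ((h.sJ.continuousOn.mono hs).prodMk
      (h.sG.continuousOn.mono hs))).congr fun t ht => h1 t ht.2)
  have c2 : ContinuousOn u (Ici (1 / 32)) :=
    ContinuousOn.congr (f := φ) (fun t ht => (hφ t ht).continuousWithinAt) fun t ht => h2 t ht
  have c : ContinuousOn u (Ici 0) := by
    rw [← Icc_union_Ici_eq_Ici (show (0 : ℝ) ≤ 1 / 32 by norm_num)]
    exact c1.union_of_isClosed c2 isClosed_Icc isClosed_Ici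
  refine ⟨c.fst, c.snd.fst, c.snd.snd, fun z hz hb => inner_eqs ?_⟩
  have d1 : z ≤ 1 / 32 → HasDerivWithinAt u (innerF z (u z)) (Iic (1 / 32)) z := fun hz1 => by
    rw [h1 z hz1]
    exact (inner_series_deriv isOpen_Ioo h (hs ⟨hz.le, hz1⟩) hz).hasDerivWithinAt.congr
      (fun t ht => h1 t ht) (h1 z hz1)
  have d2 : 1 / 32 ≤ z → HasDerivWithinAt u (innerF z (u z)) (Ici (1 / 32)) z := fun hz1 => by
    have k := hφ z hz1
    rw [← h2 z hz1, inner_cl hb.1 hb.2.1 hb.2.2] at k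
    exact k.congr (fun t ht => h2 t ht) (h2 z hz1)
  rcases lt_trichotomy z (1 / 32) with hz1 | hz1 | hz1
  · exact (d1 hz1.le).hasDerivAt (Iic_mem_nhds hz1)
  · have k := (d1 hz1.le).union (d2 hz1.ge)
    rwa [Iic_union_Ici, hasDerivWithinAt_univ] at k
  · exact (d2 hz1.le).hasDerivAt (Ici_mem_nhds hz1)

theorem exists_inner : ∃ g J G : ℝ → ℝ → ℝ,
    (∀ y ∈ Icc (3 / 2 : ℝ) (17 / 10), InSol (g y) (J y) (G y) ∧ Init y (g y) (J y) (G y) ∧
      SmSol (Ioo (-(1 / 16)) (1 / 32)) (g y) (J y) (G y)) ∧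
    ∀ z, 1 / 32 ≤ z →
      ContinuousOn (fun y => ((g y z, J y z, G y z) : T3)) (Icc (3 / 2) (17 / 10)) := by
  obtain ⟨g, J, G, h, hc⟩ := exists_series
  obtain ⟨Φ, h0, hd, hΦ⟩ := exists_flow inner_smooth (-40, -40, -40) (40, 40, 40)
    (show (0 : ℝ) < 1 / 32 by norm_num)
  let u : ℝ → ℝ → T3 := fun y t =>
    if t ≤ 1 / 32 then (g y t, J y t, G y t) else Φ (g y (1 / 32), J y (1 / 32), G y (1 / 32)) t
  have h1 : ∀ y t, t ≤ 1 / 32 → u y t = (g y t, J y t, G y t) := fun y t ht => if_pos ht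
  have h2 : ∀ y t, 1 / 32 ≤ t → u y t = Φ (g y (1 / 32), J y (1 / 32), G y (1 / 32)) t :=
    fun y t ht => by
      rcases ht.eq_or_lt with rfl | ht
      · rw [h1 y _ le_rfl, h0]
      · exact if_neg (not_le.2 ht)
  refine ⟨fun y t => (u y t).1, fun y t => (u y t).2.1, fun y t => (u y t).2.2,
    fun y hy => ⟨inner_glue (h y hy).1 (hd _) (h1 y) (h2 y), ?_, ?_⟩, fun z hz => ?_⟩
  · have k := (h y hy).2.1
    simp only [Init, h1 y 0 (by norm_num)]
    exact k
  · refine inner_smSol_congr isOpen_Ioo (Ioo_subset_Ioo le_rfl (by norm_num)) (h y hy).1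
      (fun t ht => ?_) (fun t ht => ?_) (fun t ht => ?_) <;> simp only [h1 y t ht.2.le]
  · exact ((hΦ z hz).comp_continuousOn hc).congr fun y _ => h2 y z hz

end

end Pool.Agent.Work.MP_6bf1e5_an.Mat
end

-- merged part: Pool.Agent.Work.MP_6bf1e5_an.Mat.Fence
section
/-!
Elementary lemmas on differential inequalities. `fence`: look at the infimum `T` of the closed set of
points where some `u i` is nonnegative; `a < T`, all `u j T ≤ 0`, one `u i T = 0`, and a negative derivative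
at `T` makes `u i` positive just before `T`. `stay_le`: on a maximal interval where `c < f` the function is
antitone. `repel`: if `f z0 > B / a0` with `B = C / z0 ^ m`, then `f' ≥ a0 f z0 - B > 0` as long as `f ≥ f z0`,
so `f` grows at least linearly; apply this to `f` and `-f`.
-/

open scoped ContDiff Topology
open Set Filter

namespace Pool.Agent.Work.MP_6bf1e5_an.Mat

noncomputable section

theorem fence {ι : Type} [Finite ι] {a b : ℝ} {u : ι → ℝ → ℝ}
    (hc : ∀ i, ContinuousOn (u i) (Icc a b)) (h0 : ∀ i, u i a < 0)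
    (hd : ∀ t ∈ Ioc a b, (∀ j, u j t ≤ 0) → ∀ i, u i t = 0 → ∃ e < 0, HasDerivAt (u i) e t) :
    ∀ t ∈ Icc a b, ∀ i, u i t < 0 := by
  by_contra hne
  push Not at hne
  obtain ⟨t1, ht1, i1, hi1⟩ := hne
  have hcl : IsClosed (⋃ i, Icc a b ∩ u i ⁻¹' Ici 0) := isClosed_iUnion_of_finite fun i =>
    (hc i).preimage_isClosed_of_isClosed isClosed_Icc isClosed_Ici
  have hcp : IsCompact (⋃ i, Icc a b ∩ u i ⁻¹' Ici 0) :=
    isCompact_Icc.of_isClosed_subset hcl (iUnion_subset fun _ => inter_subset_left)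
  obtain ⟨T, hT, hmin⟩ := hcp.exists_isLeast ⟨t1, mem_iUnion.2 ⟨i1, ht1, hi1⟩⟩
  obtain ⟨i, hTab, hi⟩ := mem_iUnion.1 hT
  have hi : 0 ≤ u i T := hi
  have haT : a < T := lt_of_le_of_ne hTab.1 fun h => by
    rw [← h] at hi
    linarith [h0 i]
  have hlt : ∀ j, ∀ t ∈ Ico a T, u j t < 0 := fun j t ht => by
    by_contra h
    exact ht.2.not_ge (hmin (mem_iUnion.2 ⟨j, ⟨ht.1, ht.2.le.trans hTab.2⟩, not_lt.1 h⟩))
  have hle : ∀ j, u j T ≤ 0 := fun j => by
    refine ContinuousWithinAt.closure_le (s := Ico a T) (g := fun _ => 0) ?_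
      ((hc j T hTab).mono fun t ht => ⟨ht.1, ht.2.le.trans hTab.2⟩) continuousWithinAt_const
      fun t ht => (hlt j t ht).le
    rw [closure_Ico haT.ne]
    exact right_mem_Icc.2 haT.le
  have hz := le_antisymm (hle i) hi
  obtain ⟨e, he, hde⟩ := hd T ⟨haT, hTab.2⟩ hle i hz
  refine he.not_ge (ge_of_tendsto (hasDerivAt_iff_tendsto_slope_left_right.1 hde).1 ?_)
  filter_upwards [Ico_mem_nhdsLT haT] with t ht
  rw [slope_def_field, hz, sub_zero]
  exact div_nonneg_of_nonpos (hlt i t ht).le (by linarith [ht.2])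

theorem fence_cont {a s t : ℝ} {f f' : ℝ → ℝ}
    (hd : ∀ t, a ≤ t → HasDerivWithinAt f (f' t) (Ici a) t) (hs : a ≤ s) :
    ContinuousOn f (Icc s t) := fun x hx =>
  (hd x (hs.trans hx.1)).continuousWithinAt.mono fun _ hy => hs.trans hy.1

theorem fence_mono {a s t : ℝ} {f f' : ℝ → ℝ}
    (hd : ∀ t, a ≤ t → HasDerivWithinAt f (f' t) (Ici a) t) (hs : a ≤ s) (hst : s ≤ t)
    (h : ∀ x ∈ Ioo s t, 0 ≤ f' x) : f s ≤ f t := by
  refine monotoneOn_of_hasDerivWithinAt_nonneg (convex_Icc s t) (f' := f') (fence_cont hd hs)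
    (fun x hx => ?_) (fun x hx => ?_) (left_mem_Icc.2 hst) (right_mem_Icc.2 hst) hst
  · rw [interior_Icc] at hx ⊢
    exact (hd x (hs.trans hx.1.le)).mono fun _ hy => hs.trans hy.1.le
  · rw [interior_Icc] at hx
    exact h x hx

theorem fence_ge {a c : ℝ} {f f' : ℝ → ℝ} (hd : ∀ t, a ≤ t → HasDerivWithinAt f (f' t) (Ici a) t)
    (h0 : c ≤ f a) (h : ∀ t, a ≤ t → f t < c → 0 ≤ f' t) : ∀ t, a ≤ t → c ≤ f t := by
  intro t1 ht1
  have hcp : IsCompact (Icc a t1 ∩ f ⁻¹' Ici c) := isCompact_Icc.of_isClosed_subset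
    ((fence_cont hd le_rfl).preimage_isClosed_of_isClosed isClosed_Icc isClosed_Ici)
    inter_subset_left
  obtain ⟨T, ⟨hT, hTc⟩, hmax⟩ := hcp.exists_isGreatest ⟨a, left_mem_Icc.2 ht1, h0⟩
  refine le_trans hTc (fence_mono hd hT.1 hT.2 fun x hx => h x (hT.1.trans hx.1.le) ?_)
  by_contra hx'
  exact hx.1.not_ge (hmax ⟨⟨hT.1.trans hx.1.le, hx.2.le⟩, not_lt.1 hx'⟩)

theorem stay_le {a c : ℝ} {f f' : ℝ → ℝ} (hd : ∀ t, a ≤ t → HasDerivWithinAt f (f' t) (Ici a) t)
    (h0 : f a ≤ c) (h : ∀ t, a ≤ t → c < f t → f' t ≤ 0) : ∀ t, a ≤ t → f t ≤ c := fun t ht =>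
  neg_le_neg_iff.1 (fence_ge (f := fun t => -f t) (f' := fun t => -f' t) (c := -c)
    (fun t ht => (hd t ht).neg) (neg_le_neg h0)
    (fun t ht h' => neg_nonneg.2 (h t ht (neg_lt_neg_iff.1 h'))) t ht)

theorem stay_ge {a c : ℝ} {f f' : ℝ → ℝ} (hd : ∀ t, a ≤ t → HasDerivWithinAt f (f' t) (Ici a) t)
    (h0 : c ≤ f a) (h : ∀ t, a ≤ t → f t < c → 0 ≤ f' t) : ∀ t, a ≤ t → c ≤ f t :=
  fence_ge hd h0 h

theorem stay_gt {a c t0 : ℝ} {f f' : ℝ → ℝ}
    (hd : ∀ t, a ≤ t → HasDerivWithinAt f (f' t) (Ici a) t) (ht0 : a ≤ t0) (h0 : c < f t0)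
    (h : ∀ t, a ≤ t → c < f t → 0 ≤ f' t) : ∀ t, t0 ≤ t → c < f t := by
  intro t1 ht1
  by_contra hne
  have hcp : IsCompact (Icc t0 t1 ∩ f ⁻¹' Iic c) := isCompact_Icc.of_isClosed_subset
    ((fence_cont hd ht0).preimage_isClosed_of_isClosed isClosed_Icc isClosed_Iic)
    inter_subset_left
  obtain ⟨T, ⟨hT, hTc⟩, hmin⟩ := hcp.exists_isLeast ⟨t1, right_mem_Icc.2 ht1, not_lt.1 hne⟩
  refine h0.not_ge (le_trans (fence_mono hd ht0 hT.1 fun x hx =>
    h x (ht0.trans hx.1.le) ?_) hTc)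
  by_contra hx'
  exact hx.2.not_ge (hmin ⟨⟨hx.1.le, hx.2.le.trans hT.2⟩, not_lt.1 hx'⟩)

theorem stay_lt {a c t0 : ℝ} {f f' : ℝ → ℝ}
    (hd : ∀ t, a ≤ t → HasDerivWithinAt f (f' t) (Ici a) t) (ht0 : a ≤ t0) (h0 : f t0 < c)
    (h : ∀ t, a ≤ t → f t < c → f' t ≤ 0) : ∀ t, t0 ≤ t → f t < c := fun t ht =>
  neg_lt_neg_iff.1 (stay_gt (f := fun t => -f t) (f' := fun t => -f' t) (c := -c)
    (fun t ht => (hd t ht).neg) ht0 (neg_lt_neg h0)
    (fun t ht h' => neg_nonneg.2 (h t ht (neg_lt_neg_iff.1 h'))) t ht)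

theorem fence_repel {Z a0 C M : ℝ} {m : ℕ} {f a b : ℝ → ℝ} (hZ : 0 ≤ Z) (ha0 : 0 < a0)
    (hd : ∀ z, Z < z → HasDerivAt f (a z * f z + b z) z) (ha : ∀ z, Z < z → a0 ≤ a z)
    (hb : ∀ z, Z < z → |b z| ≤ C / z ^ m) (hM : ∀ z, Z < z → f z ≤ M) :
    ∀ z, Z < z → f z ≤ C / a0 / z ^ m := by
  intro z0 hz0
  by_contra hne
  have hz : 0 < z0 := hZ.trans_lt hz0
  obtain ⟨B, hB⟩ : ∃ B, B = C / z0 ^ m := ⟨_, rfl⟩
  have hB0 : 0 ≤ B := hB ▸ (abs_nonneg _).trans (hb z0 hz0)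
  have hC : 0 ≤ C := by
    rw [hB, le_div_iff₀ (pow_pos hz m), zero_mul] at hB0
    exact hB0
  have h0 : B / a0 < f z0 := by
    rw [hB, div_right_comm]
    exact not_le.1 hne
  have hbB : ∀ t, z0 ≤ t → -B ≤ b t := fun t ht => by
    have h1 := (abs_le.1 (hb t (hz0.trans_le ht))).1
    have h2 : C / t ^ m ≤ B :=
      hB ▸ div_le_div_of_nonneg_left hC (pow_pos hz m) (pow_le_pow_left₀ hz.le ht m)
    linarith only [h1, h2]
  have hd' : ∀ t, z0 ≤ t → HasDerivWithinAt f (a t * f t + b t) (Ici z0) t := fun t ht =>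
    (hd t (hz0.trans_le ht)).hasDerivWithinAt
  have key : ∀ t, z0 ≤ t → B / a0 < f t → a0 * f t - B ≤ a t * f t + b t := fun t ht h => by
    have h1 : 0 ≤ f t := (div_nonneg hB0 ha0.le).trans h.le
    linarith only [ha, hz0, ht, h1, hbB, mul_le_mul_of_nonneg_right (ha t (hz0.trans_le ht)) h1, hbB t ht]
  have pos : ∀ t, z0 ≤ t → B / a0 < f t → 0 ≤ a t * f t + b t := fun t ht h => by
    have := (div_lt_iff₀' ha0).1 h
    linarith only [this, key, ht, h, key t ht h]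
  have s0 := stay_gt hd' le_rfl h0 pos
  have s1 := stay_ge hd' le_rfl fun t ht _ => pos t ht (s0 t ht)
  obtain ⟨δ, hδ⟩ : ∃ δ, δ = a0 * f z0 - B := ⟨_, rfl⟩
  have hδ0 : 0 < δ := by
    have := (div_lt_iff₀' ha0).1 h0
    linarith only [hδ, this]
  have s2 := stay_ge (f := fun t => f t - δ * t) (f' := fun t => a t * f t + b t - δ * 1)
    (fun t ht => (hd' t ht).sub ((hasDerivWithinAt_id t _).const_mul δ)) le_rfl
    fun t ht _ => by
      linarith only [hδ, key, ht, s0, s1, ha0, key t ht (s0 t ht), mul_le_mul_of_nonneg_left (s1 t ht) ha0.le]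
  have hMz := hM z0 hz0
  have ht : z0 ≤ z0 + (M - f z0 + 1) / δ :=
    le_add_of_nonneg_right (div_nonneg (by linarith only [hMz]) hδ0.le)
  have s3 := s2 _ ht
  have s4 := hM _ (hz0.trans_le ht)
  simp only [mul_add, mul_div_cancel₀ _ hδ0.ne'] at s3
  linarith only [s4, s3]

theorem repel {Z a0 C M : ℝ} {m : ℕ} {f a b : ℝ → ℝ} (hZ : 0 ≤ Z) (ha0 : 0 < a0)
    (hd : ∀ z, Z < z → HasDerivAt f (a z * f z + b z) z) (ha : ∀ z, Z < z → a0 ≤ a z)
    (hb : ∀ z, Z < z → |b z| ≤ C / z ^ m) (hM : ∀ z, Z < z → |f z| ≤ M) :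
    ∀ z, Z < z → |f z| ≤ C / a0 / z ^ m := fun z hz => by
  refine abs_le.2 ⟨neg_le.1 ?_, fence_repel hZ ha0 hd ha hb (fun t ht => (abs_le.1 (hM t ht)).2) z hz⟩
  refine fence_repel (f := fun t => -f t) (a := a) (b := fun t => -b t) (M := M) hZ ha0
    (fun t ht => ?_) ha (fun t ht => by rw [abs_neg]; exact hb t ht)
    (fun t ht => neg_le.1 (abs_le.1 (hM t ht)).1) z hz
  exact (hd t ht).neg.congr_deriv (by ring)

end

end Pool.Agent.Work.MP_6bf1e5_an.Mat
end

-- merged part: Pool.Agent.Work.MP_6bf1e5_an.Mat.Poly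
section
/-!
Coefficient lists. All proofs are inductions on the lists.
-/

open scoped ContDiff Topology
open Set Filter

namespace Pool.Agent.Work.MP_6bf1e5_an.Mat

noncomputable section

theorem pev_add (p q : List ℤ) (t : ℝ) : pev (padd p q) t = pev p t + pev q t := by
  induction p generalizing q with
  | nil => simp [padd, pev]
  | cons a p ih =>
    cases q with
    | nil => simp [padd, pev]
    | cons b q =>
      simp only [padd, pev, ih]
      push_cast
      ring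

theorem pev_sm (c : ℤ) (p : List ℤ) (t : ℝ) : pev (psm c p) t = c * pev p t := by
  induction p with
  | nil => simp [psm, pev]
  | cons a p ih =>
    simp only [psm, pev, ih]
    push_cast
    ring

theorem pev_mul (p q : List ℤ) (t : ℝ) : pev (pmul p q) t = pev p t * pev q t := by
  induction p with
  | nil => simp [pmul, pev]
  | cons a p ih =>
    simp only [pmul, pev, pev_add, pev_sm, ih]
    push_cast
    ring

theorem poly_derA (p : List ℤ) (k : ℤ) (t : ℝ) :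
    pev (pderA (k + 1) p) t = pev (pderA k p) t + pev p t := by
  induction p generalizing k with
  | nil => simp [pderA, pev]
  | cons a p ih =>
    simp only [pderA, pev, ih (k + 1)]
    push_cast
    ring

theorem poly_der_cons (a : ℤ) (p : List ℤ) (t : ℝ) :
    pev (pder (a :: p)) t = pev p t + t * pev (pder p) t := by
  cases p with
  | nil => simp [pder, pderA, pev]
  | cons b p =>
    simp only [pder, List.tail_cons, pderA, pev, poly_derA p 1]
    push_cast
    ring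

theorem hasDerivAt_pev (p : List ℤ) (t : ℝ) : HasDerivAt (pev p) (pev (pder p) t) t := by
  induction p with
  | nil => exact hasDerivAt_const t 0
  | cons a p ih =>
    rw [poly_der_cons, ← one_mul (pev p t)]
    exact ((hasDerivAt_id t).mul ih).const_add (a : ℝ)

theorem pn1_nonneg (p : List ℤ) : 0 ≤ pn1 p := by
  induction p with
  | nil => exact le_rfl
  | cons a p ih => exact add_nonneg (Int.natCast_nonneg _) ih

theorem poly_mul_le {s x c : ℝ} (hs : |s| ≤ 1) (hx : |x| ≤ c) : |s * x| ≤ c := by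
  rw [abs_mul]
  exact (mul_le_of_le_one_left (abs_nonneg x) hs).trans hx

theorem abs_pev_le (p : List ℤ) {t : ℝ} (ht : |t| ≤ 1) : |pev p t| ≤ pn1 p := by
  induction p with
  | nil => simp [pev, pn1]
  | cons a p ih =>
    simp only [pev, pn1, Int.natCast_natAbs]
    push_cast
    exact (abs_add_le _ _).trans (add_le_add le_rfl (poly_mul_le ht ih))

theorem pev_le_phi (p : List ℤ) {t : ℝ} (ht : |t| ≤ 1) : pev p t ≤ phi p := by
  cases p with
  | nil => simp [pev, phi]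
  | cons a p =>
    simp only [pev, phi]
    push_cast
    exact add_le_add le_rfl ((le_abs_self _).trans (poly_mul_le ht (abs_pev_le p ht)))

theorem pev_one (p : List ℤ) : pev p 1 = pat1 p := by
  induction p with
  | nil => simp [pev, pat1]
  | cons a p ih => simp [pev, pat1, ih]

theorem pev_neg_one (p : List ℤ) : pev p (-1) = patm p := by
  induction p with
  | nil => simp [pev, patm]
  | cons a p ih => simp [pev, patm, ih, sub_eq_add_neg]

theorem SS_pos : (0 : ℝ) < SS := by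
  norm_num [SS]

/-- `exp x ≤ (1 - x / 16)⁻¹ ^ 16`, and the integer quotient plus one is an upper bound. -/
theorem Step.le_up (d : Step) (h0 : 0 ≤ d.m * d.b) (h : d.m * d.b < 262144) {w : ℤ} (hw : 0 ≤ w) :
    (w : ℝ) * Real.exp (d.m * d.b / 16384) ≤ d.up w := by
  have hD : 0 < 262144 - d.m * d.b := sub_pos.2 h
  have hD' : (0 : ℝ) < 262144 - d.m * d.b := by exact_mod_cast hD
  have h1 : Real.exp (d.m * d.b / 262144) * (262144 - d.m * d.b) ≤ 262144 := by
    have h2 := Real.add_one_le_exp (-(d.m * d.b / 262144 : ℝ))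
    have h3 := mul_le_mul_of_nonneg_left h2 (Real.exp_pos (d.m * d.b / 262144)).le
    rw [← Real.exp_add, add_neg_cancel, Real.exp_zero] at h3
    linarith only [h3]
  have h2 := pow_le_pow_left₀ (by positivity) h1 16
  rw [mul_pow, ← Real.exp_nat_mul,
    show ((16 : ℕ) : ℝ) * (d.m * d.b / 262144) = d.m * d.b / 16384 by push_cast; ring] at h2
  have h3 : (w * 262144 ^ 16 : ℝ) ≤ d.up w * (262144 - d.m * d.b) ^ 16 := by
    have h4 : w * 262144 ^ 16 < d.up w * (262144 - d.m * d.b) ^ 16 :=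
      Int.lt_ediv_add_one_mul_self _ (pow_pos hD 16)
    exact_mod_cast h4.le
  refine le_of_mul_le_mul_right ?_ (pow_pos hD' 16)
  rw [mul_assoc]
  exact (mul_le_mul_of_nonneg_left h2 (by exact_mod_cast hw)).trans h3

/-- The first residual. -/
theorem Step.abs_rg_le (d : Step) {s t : ℝ} (hs : |s| ≤ 1) (ht : |t| ≤ 1) :
    |(4 : ℝ) * (d.a + d.b * t) * (pev (pder d.g0) t + s * pev (pder d.g1) t)
      - d.b * ((pev d.J0 t + s * pev d.J1 t) - 10 * (pev d.g0 t + s * pev d.g1 t))| ≤ (d.Rg : ℝ) := by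
  have h := (abs_add_le _ _).trans (add_le_add (abs_pev_le (d.rg d.g0 d.J0) ht)
    (poly_mul_le hs (abs_pev_le (d.rg d.g1 d.J1) ht)))
  rw [Step.Rg, Int.cast_add]
  refine le_of_eq_of_le (congrArg abs ?_) h
  simp only [Step.rg, pev_add, pev_sm, pev_mul, pev]
  push_cast
  ring

/-- The second residual. -/
theorem Step.abs_rJ_le (d : Step) {s t : ℝ} (hs : |s| ≤ 1) (ht : |t| ≤ 1) :
    |(32 : ℝ) * (pev (pder d.J0) t + s * pev (pder d.J1) t) - d.b * (pev d.G0 t + s * pev d.G1 t)|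
      ≤ (d.RJ : ℝ) := by
  have h := (abs_add_le _ _).trans (add_le_add (abs_pev_le (d.rJ d.J0 d.G0) ht)
    (poly_mul_le hs (abs_pev_le (d.rJ d.J1 d.G1) ht)))
  rw [Step.RJ, Int.cast_add]
  refine le_of_eq_of_le (congrArg abs ?_) h
  simp only [Step.rJ, pev_add, pev_sm]
  push_cast
  ring

/-- The third residual: it is `P0 + s P1 - s² b ((a + b t) g1 G1 + 4 J1²)`. -/
theorem Step.abs_rG_le (d : Step) (hb : 0 ≤ d.b) (hab : d.b ≤ d.a) {s t : ℝ} (hs : |s| ≤ 1)
    (ht : |t| ≤ 1) :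
    |(128 : ℝ) * SS * (d.a + d.b * t) * (pev (pder d.G0) t + s * pev (pder d.G1) t)
      - d.b * (((d.a + d.b * t) * (SS + (pev d.g0 t + s * pev d.g1 t)) - 320 * SS)
          * (pev d.G0 t + s * pev d.G1 t) + 32 * SS * (pev d.J0 t + s * pev d.J1 t)
          + 4 * (pev d.J0 t + s * pev d.J1 t) ^ 2)| ≤ (d.RG : ℝ) := by
  have hb' : (0 : ℝ) ≤ d.b := by exact_mod_cast hb
  have hab' : (d.b : ℝ) ≤ d.a := by exact_mod_cast hab
  have h1 : |(d.a + d.b * t : ℝ)| ≤ d.a + d.b := by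
    obtain ⟨h2, h3⟩ := abs_le.1 ht
    rw [abs_le]
    constructor <;> linarith only [hb', hab', h2, h3, mul_nonneg_of_nonpos_of_nonpos (Mathlib.Tactic.Linarith.sub_nonpos_of_le hb') (Mathlib.Tactic.Linarith.sub_nonpos_of_le h2), mul_nonneg_of_nonpos_of_nonpos (Mathlib.Tactic.Linarith.sub_nonpos_of_le hb') (Mathlib.Tactic.Linarith.sub_nonpos_of_le h3)]
  have h2 : |(d.a + d.b * t) * pev d.g1 t * pev d.G1 t + 4 * pev d.J1 t ^ 2| ≤
      (d.a + d.b) * pn1 d.g1 * pn1 d.G1 + 4 * (pn1 d.J1 : ℝ) ^ 2 := by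
    have h3 := abs_pev_le d.g1 ht
    have h4 := abs_pev_le d.G1 ht
    have h5 := abs_pev_le d.J1 ht
    have h6 := (abs_nonneg _).trans h1
    have h7 := (abs_nonneg _).trans h3
    refine (abs_add_le _ _).trans ?_
    rw [abs_mul, abs_mul, abs_mul, abs_pow, abs_of_pos (four_pos (α := ℝ))]
    gcongr
  have h3 : |(-d.b : ℝ) * ((d.a + d.b * t) * pev d.g1 t * pev d.G1 t + 4 * pev d.J1 t ^ 2)| ≤
      d.b * ((d.a + d.b) * pn1 d.g1 * pn1 d.G1 + 4 * (pn1 d.J1 : ℝ) ^ 2) := by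
    rw [abs_mul, abs_neg, abs_of_nonneg hb']
    exact mul_le_mul_of_nonneg_left h2 hb'
  have h := (abs_add_le _ _).trans (add_le_add ((abs_add_le _ _).trans (add_le_add
    (abs_pev_le d.P0 ht) (poly_mul_le hs (abs_pev_le d.P1 ht)))) (poly_mul_le hs (poly_mul_le hs h3)))
  rw [Step.RG]
  push_cast
  refine le_of_eq_of_le (congrArg abs ?_) h
  simp only [Step.P0, Step.P1, Step.lin, pev_add, pev_sm, pev_mul, pev]
  push_cast
  ring

end

end Pool.Agent.Work.MP_6bf1e5_an.Mat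
end

-- merged part: Pool.Agent.Work.MP_6bf1e5_an.Mat.StepS
section
/-!
Soundness of a step. Put `t z = (32 z - a) / b`, `zl = (a - b) / 32`, `E z = exp (m / 1024 (z - zl)) ≥ 1`,
`eg z = SS g z - (pev g0 t + s pev g1 t)` and likewise `eJ`, `eG`. Apply `fence` to the six functions
`± e z - w E z` (index type `Fin 3 × Bool`, or prove a three component lemma first). Inside the closed fences
`|e| ≤ w E ≤ up w` (`Step.le_up`), so `Box` holds and `InSol.ode` applies. With the residuals of `Poly`: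
`4 z eg' = eJ - 10 eg - rg / b`, `eJ' = eG - rJ / b`,
`4 z eG' = (z (1 + g) - 10) eG + z (Gt / SS) eg + (1 + (2 Jt + eJ) / (8 SS)) eJ - rG / (32 b SS)`,
where `Gt`, `Jt` are the approximate solutions (times `SS`). At a touching point use `1 ≤ E`,
`SS (1 + g) ≤ SS + phi g0 + pn1 g1 + up wg`, `|Gt| ≤ pn1 G0 + pn1 G1`,
`|8 SS + 2 Jt + eJ| ≤ pn1 (padd [8 SS] (psm 2 J0)) + 2 pn1 J1 + up wJ`; the third inequality reads
`b (32 z) cz + c0 < 0` after multiplication by `8192 b SS`, and `32 z cz ≤ a cz + b |cz|`.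
-/

open scoped ContDiff Topology
open Set Filter

namespace Pool.Agent.Work.MP_6bf1e5_an.Mat

noncomputable section

theorem steps_fence {ι : Type} [Finite ι] {a b μ : ℝ} {e : ι → ℝ → ℝ} {w : ι → ℝ}
    (hc : ∀ i, ContinuousOn (e i) (Icc a b)) (h0 : ∀ i, |e i a| < w i)
    (hd : ∀ z ∈ Ioc a b, (∀ j, |e j z| ≤ w j * Real.exp (μ * (z - a))) → ∀ i, ∃ e',
      HasDerivAt (e i) e' z ∧ ∀ σ : ℝ, (σ = 1 ∨ σ = -1) → σ * e i z = w i * Real.exp (μ * (z - a)) →
        σ * e' < μ * (w i * Real.exp (μ * (z - a)))) :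
    ∀ z ∈ Icc a b, ∀ i, |e i z| ≤ w i * Real.exp (μ * (z - a)) := by
  have key := fence (ι := ι × Bool) (a := a) (b := b)
    (u := fun p z => (if p.2 then 1 else -1) * e p.1 z - w p.1 * Real.exp (μ * (z - a)))
    (fun p => ((hc p.1).const_smul (if p.2 then (1 : ℝ) else -1)).sub (by fun_prop))
    (fun p => by
      have := abs_lt.1 (h0 p.1)
      rcases p with ⟨i, _ | _⟩ <;> simp at this ⊢ <;> linarith only [this, this.1, this.2])
    (fun z hz hle p hp => by
      have h1 : ∀ j, |e j z| ≤ w j * Real.exp (μ * (z - a)) := fun j => by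
        have h2 := hle (j, true)
        have h3 := hle (j, false)
        simp at h2 h3
        exact abs_le.2 ⟨by linarith, by linarith⟩
      obtain ⟨e', he', hσ⟩ := hd z hz h1 p.1
      have hE : HasDerivAt (fun z => w p.1 * Real.exp (μ * (z - a)))
          (w p.1 * (Real.exp (μ * (z - a)) * (μ * 1))) z :=
        ((((hasDerivAt_id z).sub_const a).const_mul μ).exp).const_mul _
      refine ⟨_, ?_, (he'.const_mul (if p.2 then (1 : ℝ) else -1)).sub hE⟩
      have := hσ (if p.2 then 1 else -1) (by cases p.2 <;> simp) (by linarith only [hp])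
      linarith)
  intro z hz i
  have h2 := key z hz (i, true)
  have h3 := key z hz (i, false)
  simp at h2 h3
  exact abs_le.2 ⟨by linarith, by linarith⟩

theorem steps_sign {σ x y : ℝ} (hσ : σ = 1 ∨ σ = -1) (h : |x| ≤ y) : σ * x ≤ y := by
  have := abs_le.1 h
  rcases hσ with rfl | rfl <;> linarith only [this, this.1, this.2]

theorem steps_one {σ z a b m E wg wJ R eg eJ r e' : ℝ} (hσ : σ = 1 ∨ σ = -1) (hb : 0 < b)
    (hz : 0 < z) (hz' : a - b ≤ 32 * z) (hm : 0 ≤ m) (hE : 1 ≤ E) (hw : 0 < wg)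
    (hJ : |eJ| ≤ wJ * E) (hr : |r| ≤ R) (ht : σ * eg = wg * E)
    (he : b * (4 * z * e') = b * (eJ - 10 * eg) - r)
    (h : 8192 * (b * (wJ - 10 * wg) + R) < b * (a - b) * m * wg) :
    σ * e' < m / 1024 * (wg * E) := by
  have h1 := steps_sign hσ hJ
  have h2 : σ * -r ≤ R := steps_sign hσ (by rwa [abs_neg])
  have hR : 0 ≤ R := (abs_nonneg _).trans hr
  have h3 : b * (4 * z * (σ * e')) = b * (σ * eJ) - 10 * b * (wg * E) + σ * -r := by
    rw [← ht]; linear_combination σ * he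
  have h4 : b * (σ * eJ) ≤ b * (wJ * E) := mul_le_mul_of_nonneg_left h1 hb.le
  have h5 : R ≤ R * E := le_mul_of_one_le_right hR hE
  have h6 := mul_lt_mul_of_pos_right h (zero_lt_one.trans_le hE)
  have h7 : b * (a - b) * m * wg * E ≤ b * (32 * z) * m * wg * E := by
    have : 0 ≤ E := by linarith only [hE]
    gcongr
  have h8 : b * (4 * z) * (σ * e') < b * (4 * z) * (m / 1024 * (wg * E)) := by linarith only [h2, h3, h4, h5, h6, h7]
  exact lt_of_mul_lt_mul_left h8 (by positivity)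

theorem steps_two {σ b m E wJ wG R eG r e' : ℝ} (hσ : σ = 1 ∨ σ = -1) (hb : 0 < b)
    (hE : 1 ≤ E) (hG : |eG| ≤ wG * E) (hr : |r| ≤ R) (he : b * e' = b * eG - r)
    (h : 1024 * (b * wG + R) < b * m * wJ) : σ * e' < m / 1024 * (wJ * E) := by
  have h1 := steps_sign hσ hG
  have h2 : σ * -r ≤ R := steps_sign hσ (by rwa [abs_neg])
  have hR : 0 ≤ R := (abs_nonneg _).trans hr
  have h3 : b * (σ * e') = b * (σ * eG) + σ * -r := by linear_combination σ * he
  have h4 : b * (σ * eG) ≤ b * (wG * E) := mul_le_mul_of_nonneg_left h1 hb.le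
  have h5 : R ≤ R * E := le_mul_of_one_le_right hR hE
  have h6 := mul_lt_mul_of_pos_right h (zero_lt_one.trans_le hE)
  have h8 : b * (σ * e') < b * (m / 1024 * (wJ * E)) := by linarith only [h2, h3, h4, h5, h6]
  exact lt_of_mul_lt_mul_left h8 hb.le

theorem steps_three {σ z b m S E wg wJ wG R eg eJ eG r e' A A' B B' C C' : ℝ}
    (hσ : σ = 1 ∨ σ = -1) (hb : 0 < b) (hS : 0 < S) (hz : 0 < z) (hE : 1 ≤ E) (hw : 0 < wG)
    (hg : |eg| ≤ wg * E) (hJ : |eJ| ≤ wJ * E) (hr : |r| ≤ R) (ht : σ * eG = wG * E)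
    (hA : A ≤ A') (hB : |B| ≤ B') (hC : |C| ≤ C')
    (he : 32 * b * S * (4 * z * e') =
      32 * b * ((z * A - 10 * S) * eG + z * B * eg) + 4 * b * C * eJ - r)
    (h : b * (32 * z) * (256 * (A' * wG + B' * wg) - m * S * wG)
      + (b * (1024 * C' * wJ - 81920 * S * wG) + 256 * R) < 0) :
    σ * e' < m / 1024 * (wG * E) := by
  have hE0 : 0 < E := by linarith only [hE]
  have h1 : σ * (B * eg) ≤ B' * (wg * E) := steps_sign hσ (by
    rw [abs_mul]; exact mul_le_mul hB hg (abs_nonneg _) ((abs_nonneg _).trans hB))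
  have h1' : σ * (C * eJ) ≤ C' * (wJ * E) := steps_sign hσ (by
    rw [abs_mul]; exact mul_le_mul hC hJ (abs_nonneg _) ((abs_nonneg _).trans hC))
  have h2 : σ * -r ≤ R := steps_sign hσ (by rwa [abs_neg])
  have hR : 0 ≤ R := (abs_nonneg _).trans hr
  have h3 : 32 * b * S * (4 * z) * (σ * e') = 32 * b * z * (A * (wG * E))
      - 320 * b * S * (wG * E) + 32 * b * z * (σ * (B * eg)) + 4 * b * (σ * (C * eJ)) + σ * -r := by
    rw [← ht]; linear_combination σ * he
  have h4 : 32 * b * z * (A * (wG * E)) ≤ 32 * b * z * (A' * (wG * E)) := by gcongr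
  have h4' : 32 * b * z * (σ * (B * eg)) ≤ 32 * b * z * (B' * (wg * E)) := by gcongr
  have h4'' : 4 * b * (σ * (C * eJ)) ≤ 4 * b * (C' * (wJ * E)) := by gcongr
  have h5 : R ≤ R * E := le_mul_of_one_le_right hR hE
  have h6 := mul_lt_mul_of_pos_right h hE0
  have h8 : 32 * b * S * (4 * z) * (σ * e') < 32 * b * S * (4 * z) * (m / 1024 * (wG * E)) := by
    linarith only [h2, h3, h4, h4', h4'', h5, h6]
  exact lt_of_mul_lt_mul_left h8 (by positivity)

theorem steps_pev2 (p q : List ℤ) {s t : ℝ} (hs : |s| ≤ 1) (ht : |t| ≤ 1) :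
    |pev p t + s * pev q t| ≤ pn1 p + pn1 q := by
  refine (abs_add_le _ _).trans (add_le_add (abs_pev_le p ht) ?_)
  rw [abs_mul]
  exact (mul_le_of_le_one_left (abs_nonneg _) hs).trans (abs_pev_le q ht)

theorem steps_deriv (p q : List ℤ) (s a b z : ℝ) :
    HasDerivAt (fun z => pev p ((32 * z - a) / b) + s * pev q ((32 * z - a) / b))
      ((pev (pder p) ((32 * z - a) / b) + s * pev (pder q) ((32 * z - a) / b)) * (32 / b)) z := by
  have ht : HasDerivAt (fun z : ℝ => (32 * z - a) / b) (32 / b) z := by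
    simpa using ((((hasDerivAt_id z).const_mul 32).sub_const a).div_const b)
  have h1 := (hasDerivAt_pev p _).comp z ht
  have h2 := ((hasDerivAt_pev q _).comp z ht).const_mul s
  refine (h1.add h2).congr_deriv ?_
  ring

theorem steps_start {x s : ℝ} {c0 c1 p0 p1 β w : ℤ} (hs : |s| ≤ 1)
    (h : |x - (c0 + s * c1)| ≤ β) (hw : ((c0 - p0).natAbs : ℤ) + (c1 - p1).natAbs + β < w) :
    |x - (p0 + s * p1)| < w := by
  have h1 : |(c0 : ℝ) - p0| + |(c1 : ℝ) - p1| + β < w := by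
    have h2 : (((((c0 - p0).natAbs : ℤ) + (c1 - p1).natAbs + β : ℤ) : ℝ)) < w := by exact_mod_cast hw
    simpa [Int.natCast_natAbs] using h2
  have h3 : |s * ((c1 : ℝ) - p1)| ≤ |(c1 : ℝ) - p1| := by
    rw [abs_mul]; exact mul_le_of_le_one_left (abs_nonneg _) hs
  have h4 : x - (p0 + s * p1) = (x - (c0 + s * c1)) + ((c0 - p0) + s * (c1 - p1)) := by ring
  rw [h4]
  have h5 := abs_add_le (x - (c0 + s * c1)) (((c0 : ℝ) - p0) + s * (c1 - p1))
  have h6 := abs_add_le ((c0 : ℝ) - p0) (s * (c1 - p1))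
  linarith only [h, h1, h3, h5, h6]

theorem steps_box {x y : ℝ} {c u : ℝ} (hy : |y| ≤ c) (he : |SS * x - y| ≤ u)
    (h : c + u ≤ 40 * SS) : |x| ≤ 40 := by
  have h1 : |(SS : ℝ) * x| ≤ 40 * SS := by
    have := abs_add_le ((SS : ℝ) * x - y) y
    rw [sub_add_cancel] at this
    linarith only [hy, he, h, this]
  rw [abs_mul, abs_of_pos SS_pos, mul_comm] at h1
  exact le_of_mul_le_mul_right h1 SS_pos

theorem Step.sound {n : Node} {d : Step} {s : ℝ} {g J G : ℝ → ℝ} (h : InSol g J G) (hs : |s| ≤ 1)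
    (hok : d.ok n = true) (he : n.Encl s (g (n.z / 32)) (J (n.z / 32)) (G (n.z / 32))) :
    d.out.Encl s (g (d.out.z / 32)) (J (d.out.z / 32)) (G (d.out.z / 32)) ∧ n.z ≤ d.out.z ∧
      ∀ z ∈ Icc ((n.z : ℝ) / 32) (d.out.z / 32), Box g J G z := by
  simp only [Step.ok, Bool.and_eq_true, decide_eq_true_eq] at hok
  obtain ⟨⟨hb, hab, hn, hm, hmb, hwg, hwJ, hwG, i1, i2, i3, b1, b2, b3, k1, k2⟩, k3⟩ := hok
  have hbR : (0 : ℝ) < d.b := by exact_mod_cast hb
  have habR : (d.b : ℝ) ≤ d.a := by exact_mod_cast hab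
  have hmR : (0 : ℝ) ≤ d.m := by exact_mod_cast hm
  have hnR : (n.z : ℝ) = d.a - d.b := by exact_mod_cast hn
  have hoR : (d.out.z : ℝ) = d.a + d.b := by simp [Step.out]
  have hS := SS_pos
  set T : ℝ → ℝ := fun z => (32 * z - d.a) / d.b with hT
  have hT1 : ∀ z ∈ Icc ((n.z : ℝ) / 32) (d.out.z / 32), |T z| ≤ 1 := fun z hz => by
    rw [hnR, hoR] at hz
    simp only [hT]
    rw [abs_div, abs_of_pos hbR, div_le_one hbR]
    exact abs_le.2 ⟨by linarith only [hz, hz.1], by linarith only [hz, hz.2]⟩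
  have hT2 : ∀ z, (d.a : ℝ) + d.b * T z = 32 * z := fun z => by
    simp only [hT]; field_simp; ring
  have hE1 : ∀ z ∈ Icc ((n.z : ℝ) / 32) (d.out.z / 32),
      1 ≤ Real.exp (d.m / 1024 * (z - n.z / 32)) := fun z hz =>
    Real.one_le_exp (mul_nonneg (by positivity) (by linarith only [hz, hz.1]))
  have hE2 : ∀ z ∈ Icc ((n.z : ℝ) / 32) (d.out.z / 32), ∀ w : ℤ, 0 < w →
      w * Real.exp (d.m / 1024 * (z - n.z / 32)) ≤ d.up w := fun z hz w hw => by
    refine le_trans ?_ (d.le_up (mul_nonneg hm hb.le) hmb hw.le)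
    have hwR : (0 : ℝ) ≤ w := by exact_mod_cast hw.le
    have h1 : z - n.z / 32 ≤ d.b / 16 := by
      have := hz.2
      rw [hoR] at this
      rw [hnR]; linarith only [this]
    have h2 : d.m / 1024 * (z - n.z / 32) ≤ (d.m : ℝ) * d.b / 16384 := by
      calc d.m / 1024 * (z - n.z / 32) ≤ d.m / 1024 * ((d.b : ℝ) / 16) := by gcongr
        _ = _ := by ring
    gcongr
  let e : Fin 3 → ℝ → ℝ := ![fun z => SS * g z - (pev d.g0 (T z) + s * pev d.g1 (T z)),
    fun z => SS * J z - (pev d.J0 (T z) + s * pev d.J1 (T z)),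
    fun z => SS * G z - (pev d.G0 (T z) + s * pev d.G1 (T z))]
  let w : Fin 3 → ℝ := ![d.wg, d.wJ, d.wG]
  have hbox : ∀ z ∈ Icc ((n.z : ℝ) / 32) (d.out.z / 32),
      (∀ j, |e j z| ≤ w j * Real.exp (d.m / 1024 * (z - n.z / 32))) → Box g J G z :=
    fun z hz hle => ⟨steps_box (steps_pev2 _ _ hs (hT1 z hz)) ((hle 0).trans (hE2 z hz _ hwg))
        (by exact_mod_cast b1),
      steps_box (steps_pev2 _ _ hs (hT1 z hz)) ((hle 1).trans (hE2 z hz _ hwJ))
        (by exact_mod_cast b2),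
      steps_box (steps_pev2 _ _ hs (hT1 z hz)) ((hle 2).trans (hE2 z hz _ hwG))
        (by exact_mod_cast b3)⟩
  have hsub : Icc ((n.z : ℝ) / 32) (d.out.z / 32) ⊆ Ici 0 := fun z hz => by
    have := hz.1
    rw [hnR] at this
    show (0 : ℝ) ≤ z
    linarith only [habR, this]
  have hcp : ∀ p q : List ℤ, ContinuousOn (fun z => pev p (T z) + s * pev q (T z))
      (Icc ((n.z : ℝ) / 32) (d.out.z / 32)) := fun p q z _ =>
    (steps_deriv p q s d.a d.b z).continuousAt.continuousWithinAt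
  have hTl : T (n.z / 32) = -1 := by
    simp only [hT]; rw [hnR]; field_simp; ring
  have hTr : T (d.out.z / 32) = 1 := by
    simp only [hT]; rw [hoR]; field_simp; ring
  have key := steps_fence (a := (n.z : ℝ) / 32) (b := d.out.z / 32) (μ := d.m / 1024) (e := e)
    (w := w)
    (fun i => by
      fin_cases i
      · exact (continuousOn_const.mul (h.cg.mono hsub)).sub (hcp _ _)
      · exact (continuousOn_const.mul (h.cJ.mono hsub)).sub (hcp _ _)
      · exact (continuousOn_const.mul (h.cG.mono hsub)).sub (hcp _ _))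
    (fun i => by
      fin_cases i
      · show |SS * g _ - (pev d.g0 (T _) + s * pev d.g1 (T _))| < (d.wg : ℝ)
        rw [hTl, pev_neg_one, pev_neg_one]
        exact steps_start hs he.1 i1
      · show |SS * J _ - (pev d.J0 (T _) + s * pev d.J1 (T _))| < (d.wJ : ℝ)
        rw [hTl, pev_neg_one, pev_neg_one]
        exact steps_start hs he.2.1 i2
      · show |SS * G _ - (pev d.G0 (T _) + s * pev d.G1 (T _))| < (d.wG : ℝ)
        rw [hTl, pev_neg_one, pev_neg_one]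
        exact steps_start hs he.2.2 i3)
    (fun z hz hle i => by
      have hz' : z ∈ Icc ((n.z : ℝ) / 32) (d.out.z / 32) := Ioc_subset_Icc_self hz
      have hzl : (d.a : ℝ) - d.b < 32 * z := by
        have := hz.1
        rw [hnR] at this
        linarith only [this]
      have hz0 : 0 < z := by linarith only [habR, hzl]
      obtain ⟨o1, o2, o3⟩ := h.ode z hz0 (hbox z hz' hle)
      have ht := hT1 z hz'
      fin_cases i
      · refine ⟨_, (o1.const_mul (SS : ℝ)).sub (steps_deriv d.g0 d.g1 s d.a d.b z), ?_⟩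
        intro σ hσ hσe
        refine steps_one (wg := d.wg) (wJ := d.wJ)
          (eg := SS * g z - (pev d.g0 (T z) + s * pev d.g1 (T z)))
          (eJ := SS * J z - (pev d.J0 (T z) + s * pev d.J1 (T z))) hσ hbR hz0 hzl.le hmR (hE1 z hz') (by exact_mod_cast hwg) (hle 1)
          (d.abs_rg_le hs ht) hσe ?_ (by exact_mod_cast k1)
        simp only [e, fg, mul_assoc (4 : ℝ), hT2 z]
        simp only [hT, Matrix.cons_val_zero, Matrix.cons_val_one, Fin.zero_eta, Fin.isValue]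
        field_simp
        ring
      · refine ⟨_, (o2.const_mul (SS : ℝ)).sub (steps_deriv d.J0 d.J1 s d.a d.b z), ?_⟩
        intro σ hσ _
        refine steps_two (wJ := d.wJ) (wG := d.wG)
          (eG := SS * G z - (pev d.G0 (T z) + s * pev d.G1 (T z))) hσ hbR (hE1 z hz') (hle 2) (d.abs_rJ_le hs ht) ?_ (by exact_mod_cast k2)
        simp only [e, hT, Matrix.cons_val]
        field_simp
        ring
      · refine ⟨_, (o3.const_mul (SS : ℝ)).sub (steps_deriv d.G0 d.G1 s d.a d.b z), ?_⟩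
        intro σ hσ hσe
        have hr := d.abs_rG_le hb.le hab hs ht
        rw [hT2 z] at hr
        have e0 := (hle 0).trans (hE2 z hz' _ hwg)
        have e1 := (hle 1).trans (hE2 z hz' _ hwJ)
        refine steps_three (wg := d.wg) (wJ := d.wJ) (wG := d.wG)
          (eg := SS * g z - (pev d.g0 (T z) + s * pev d.g1 (T z)))
          (eJ := SS * J z - (pev d.J0 (T z) + s * pev d.J1 (T z)))
          (eG := SS * G z - (pev d.G0 (T z) + s * pev d.G1 (T z))) (A := SS * (1 + g z)) (A' := SS + phi d.g0 + pn1 d.g1 + d.up d.wg)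
          (C := 8 * SS + 2 * (pev d.J0 (T z) + s * pev d.J1 (T z)) + e 1 z)
          (C' := pn1 (padd [8 * SS] (psm 2 d.J0)) + 2 * pn1 d.J1 + d.up d.wJ)
          hσ hbR hS hz0 (hE1 z hz') (by exact_mod_cast hwG) (hle 0) (hle 1) hr hσe ?_
          (steps_pev2 d.G0 d.G1 hs ht) ?_ ?_ ?_
        · have a1 := pev_le_phi d.g0 ht
          have a2 : |s * pev d.g1 (T z)| ≤ pn1 d.g1 := by
            rw [abs_mul]
            exact (mul_le_of_le_one_left (abs_nonneg _) hs).trans (abs_pev_le _ ht)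
          have a3 : SS * g z - (pev d.g0 (T z) + s * pev d.g1 (T z)) ≤ d.up d.wg :=
            (abs_le.1 e0).2
          linarith only [a1, a3, a2, (abs_le.1 a2).2]
        · have a1 := abs_pev_le (padd [8 * SS] (psm 2 d.J0)) ht
          rw [pev_add, pev_sm] at a1
          simp only [pev, mul_zero, add_zero] at a1
          push_cast at a1
          have a2 : |s * pev d.J1 (T z)| ≤ pn1 d.J1 := by
            rw [abs_mul]
            exact (mul_le_of_le_one_left (abs_nonneg _) hs).trans (abs_pev_le _ ht)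
          have a4 := abs_le.1 a1
          have a5 := abs_le.1 a2
          have a6 := abs_le.1 e1
          exact abs_le.2 ⟨by linarith only [a4, a5, a6, a4.1, a5.1, a6.1], by linarith only [a4, a5, a6, a4.2, a5.2, a6.2]⟩
        · simp only [e, fG, hT, Matrix.cons_val]
          field_simp
          ring
        · have k4 : (d.c0 : ℝ) < -(d.b * (d.a * d.cz + d.b * |(d.cz : ℝ)|)) := by
            have k5 : ((d.c0 : ℤ) : ℝ) < ((-(d.b * (d.a * d.cz + d.b * (d.cz.natAbs : ℤ))) : ℤ) : ℝ) := by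
              exact_mod_cast k3
            simpa [Int.natCast_natAbs] using k5
          have k6 : T z * d.cz ≤ |(d.cz : ℝ)| := by
            refine (le_abs_self _).trans ?_
            rw [abs_mul]
            exact mul_le_of_le_one_left (abs_nonneg _) ht
          have k7 : (d.b : ℝ) * (32 * z) * d.cz + d.c0 < 0 := by
            rw [← hT2 z]
            have := mul_le_mul_of_nonneg_left k6 (mul_pos hbR hbR).le
            linarith only [k4, this]
          simp only [Step.cz, Step.c0] at k7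
          push_cast at k7
          linarith only [k7])
  have hr : (d.out.z : ℝ) / 32 ∈ Icc ((n.z : ℝ) / 32) (d.out.z / 32) :=
    ⟨by rw [hnR, hoR]; linarith only [hbR], le_rfl⟩
  refine ⟨⟨?_, ?_, ?_⟩, ?_, fun z hz => hbox z hz (key z hz)⟩
  · have := (key _ hr 0).trans (hE2 _ hr _ hwg)
    simp only [e, Matrix.cons_val_zero, hTr, pev_one] at this
    exact this
  · have := (key _ hr 1).trans (hE2 _ hr _ hwJ)
    simp only [e, Matrix.cons_val, hTr, pev_one] at this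
    exact this
  · have := (key _ hr 2).trans (hE2 _ hr _ hwG)
    simp only [e, Matrix.cons_val, hTr, pev_one] at this
    exact this
  · simp only [Step.out]
    omega

theorem run_sound {s : ℝ} {g J G : ℝ → ℝ} (h : InSol g J G) (hs : |s| ≤ 1) (l : List Step)
    (n : Node) (hok : run n l = true)
    (he : n.Encl s (g (n.z / 32)) (J (n.z / 32)) (G (n.z / 32))) :
    (last n l).Encl s (g ((last n l).z / 32)) (J ((last n l).z / 32)) (G ((last n l).z / 32)) ∧
      ∀ z ∈ Ioc ((n.z : ℝ) / 32) ((last n l).z / 32), Box g J G z := by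
  induction l generalizing n with
  | nil => exact ⟨he, fun z hz => absurd (hz.1.trans_le hz.2) (lt_irrefl _)⟩
  | cons d l ih =>
    simp only [run, Bool.and_eq_true] at hok
    obtain ⟨h1, -, h3⟩ := Step.sound h hs hok.1 he
    obtain ⟨h4, h5⟩ := ih d.out hok.2 h1
    refine ⟨h4, fun z hz => ?_⟩
    rcases le_or_gt z (d.out.z / 32) with hle | hlt
    · exact h3 z ⟨hz.1.le, hle⟩
    · exact h5 z ⟨hlt, hz.2⟩

end

end Pool.Agent.Work.MP_6bf1e5_an.Mat
end

-- merged part: Pool.Agent.Work.MP_6bf1e5_an.Mat.Data0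
section
/-!
Comparison of nodes.
-/

namespace Pool.Agent.Work.MP_6bf1e5_an.Mat

/-- The entries of a node. -/
def Node.toList (n : Node) : List ℤ := [n.z, n.g0, n.J0, n.G0, n.g1, n.J1, n.G1, n.bg, n.bJ, n.bG]

theorem Node.ext_list {n m : Node} (h : n.toList = m.toList) : n = m := by
  cases n
  cases m
  simpa [Node.toList] using h

end Pool.Agent.Work.MP_6bf1e5_an.Mat
end

-- merged part: Pool.Agent.Work.MP_6bf1e5_an.Mat.Decay
section
/-!
Decay of all derivatives. Define by recursion on `k` a class `OO k m f` on `Ioi Z` (`|f| ≤ C / z ^ m`, and for `k + 1` also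
`f` differentiable with `OO k (m + 1) (deriv f)`); it only depends on the values on `Ioi Z`, is closed under sums, and
under products with addition of the orders; `1 / z` has order `1`. Lemma, by induction on `k` for all `m, f, b`:
if `f' = a f + b`, `a ≥ 1/10`, `OO k 0 a`, `OO k m b` and `f` is bounded then `OO k m f` (`repel`; in the step `f1 = f'` solves
`f1' = a f1 + (a' f + b')`). Then by induction `OO k 1 g`, `OO k 1 J`, `OO k 2 G`, with
`a = (1 + g) / 4 - 10 / (4 z)`, `b = (J + J² / 8) / (4 z)`.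
-/

open scoped ContDiff Topology
open Set Filter

namespace Pool.Agent.Work.MP_6bf1e5_an.Mat

noncomputable section

/-- The bound `|f| ≤ C / z ^ m` beyond `Z`. -/
def decayBd (Z : ℝ) (m : ℕ) (f : ℝ → ℝ) : Prop := ∃ C : ℝ, ∀ z, Z < z → |f z| ≤ C / z ^ m

/-- Order `m` with `k` derivatives. -/
def decayOO (Z : ℝ) : ℕ → ℕ → (ℝ → ℝ) → Prop
  | 0, m, f => decayBd Z m f
  | k + 1, m, f => decayBd Z m f ∧
      ∃ f' : ℝ → ℝ, (∀ z, Z < z → HasDerivAt f (f' z) z) ∧ decayOO Z k (m + 1) f'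

variable {Z : ℝ}

theorem decay_bd_congr {m : ℕ} {f g : ℝ → ℝ} (h : ∀ z, Z < z → f z = g z) (hf : decayBd Z m f) :
    decayBd Z m g := by
  obtain ⟨C, hC⟩ := hf
  exact ⟨C, fun z hz => h z hz ▸ hC z hz⟩

theorem decay_bd_add {m : ℕ} {f g : ℝ → ℝ} (hf : decayBd Z m f) (hg : decayBd Z m g) :
    decayBd Z m (fun z => f z + g z) := by
  obtain ⟨C, hC⟩ := hf
  obtain ⟨D, hD⟩ := hg
  refine ⟨C + D, fun z hz => ?_⟩
  rw [add_div]
  exact (abs_add_le _ _).trans (add_le_add (hC z hz) (hD z hz))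

theorem decay_bd_mul {m n : ℕ} {f g : ℝ → ℝ} (hf : decayBd Z m f) (hg : decayBd Z n g) :
    decayBd Z (m + n) (fun z => f z * g z) := by
  obtain ⟨C, hC⟩ := hf
  obtain ⟨D, hD⟩ := hg
  refine ⟨C * D, fun z hz => ?_⟩
  rw [abs_mul, pow_add, ← div_mul_div_comm]
  exact mul_le_mul (hC z hz) (hD z hz) (abs_nonneg _) ((abs_nonneg _).trans (hC z hz))

theorem decay_bd_succ (hZ : 1 ≤ Z) {m : ℕ} {f : ℝ → ℝ} (hf : decayBd Z (m + 1) f) :
    decayBd Z m f := by
  obtain ⟨C, hC⟩ := hf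
  refine ⟨|C|, fun z hz => (hC z hz).trans ?_⟩
  have h1 : 1 ≤ z := by linarith
  have h0 : 0 < z ^ m := by positivity
  have h2 : z ^ m ≤ z ^ (m + 1) := pow_le_pow_right₀ h1 (Nat.le_succ m)
  calc C / z ^ (m + 1) ≤ |C| / z ^ (m + 1) :=
        div_le_div_of_nonneg_right (le_abs_self C) (by positivity)
    _ ≤ |C| / z ^ m := div_le_div_of_nonneg_left (abs_nonneg C) h0 h2

theorem decay_bd_zero (hZ : 1 ≤ Z) {m : ℕ} {f : ℝ → ℝ} (hf : decayBd Z m f) :
    ∃ M : ℝ, ∀ z, Z < z → |f z| ≤ M := by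
  induction m with
  | zero =>
    obtain ⟨C, hC⟩ := hf
    exact ⟨C, fun z hz => by simpa using hC z hz⟩
  | succ m ih => exact ih (decay_bd_succ hZ hf)

theorem decay_bd {k m : ℕ} {f : ℝ → ℝ} (hf : decayOO Z k m f) : decayBd Z m f := by
  cases k with
  | zero => exact hf
  | succ k => exact hf.1

theorem decay_congr {k m : ℕ} {f g : ℝ → ℝ} (h : ∀ z, Z < z → f z = g z)
    (hf : decayOO Z k m f) : decayOO Z k m g := by
  cases k with
  | zero => exact decay_bd_congr h hf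
  | succ k =>
    obtain ⟨h1, f', h2, h3⟩ := hf
    refine ⟨decay_bd_congr h h1, f', fun z hz => (h2 z hz).congr_of_eventuallyEq ?_, h3⟩
    filter_upwards [Ioi_mem_nhds hz] with w hw
    exact (h w hw).symm

theorem decay_down {k : ℕ} : ∀ {m : ℕ} {f : ℝ → ℝ}, decayOO Z (k + 1) m f → decayOO Z k m f := by
  induction k with
  | zero => exact fun hf => hf.1
  | succ k ih =>
    rintro m f ⟨h1, f', h2, h3⟩
    exact ⟨h1, f', h2, ih h3⟩

theorem decay_succ (hZ : 1 ≤ Z) {k : ℕ} :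
    ∀ {m : ℕ} {f : ℝ → ℝ}, decayOO Z k (m + 1) f → decayOO Z k m f := by
  induction k with
  | zero => exact fun hf => decay_bd_succ hZ hf
  | succ k ih =>
    rintro m f ⟨h1, f', h2, h3⟩
    exact ⟨decay_bd_succ hZ h1, f', h2, ih h3⟩

theorem decay_add {k : ℕ} : ∀ {m : ℕ} {f g : ℝ → ℝ}, decayOO Z k m f → decayOO Z k m g →
    decayOO Z k m (fun z => f z + g z) := by
  induction k with
  | zero => exact fun hf hg => decay_bd_add hf hg
  | succ k ih =>
    rintro m f g ⟨h1, f', h2, h3⟩ ⟨k1, g', k2, k3⟩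
    exact ⟨decay_bd_add h1 k1, fun z => f' z + g' z, fun z hz => (h2 z hz).add (k2 z hz), ih h3 k3⟩

theorem decay_mul {k : ℕ} : ∀ {m n : ℕ} {f g : ℝ → ℝ}, decayOO Z k m f → decayOO Z k n g →
    decayOO Z k (m + n) (fun z => f z * g z) := by
  induction k with
  | zero => exact fun hf hg => decay_bd_mul hf hg
  | succ k ih =>
    intro m n f g hf hg
    have hf0 := decay_down hf
    have hg0 := decay_down hg
    obtain ⟨h1, f', h2, h3⟩ := hf
    obtain ⟨k1, g', k2, k3⟩ := hg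
    refine ⟨decay_bd_mul h1 k1, fun z => f' z * g z + f z * g' z,
      fun z hz => (h2 z hz).mul (k2 z hz), decay_add ?_ ?_⟩
    · have := ih h3 hg0
      rwa [Nat.add_right_comm] at this
    · have := ih hf0 k3
      rwa [← Nat.add_assoc] at this

theorem decay_nil {k : ℕ} : ∀ {m : ℕ}, decayOO Z k m (fun _ => 0) := by
  have h0 : ∀ m, decayBd Z m (fun _ => 0) := fun m => ⟨0, fun z _ => by simp⟩
  induction k with
  | zero => exact fun {m} => h0 m
  | succ k ih => exact fun {m} => ⟨h0 m, fun _ => 0, fun z _ => hasDerivAt_const z 0, ih⟩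

theorem decay_const {k : ℕ} (c : ℝ) : decayOO Z k 0 (fun _ => c) := by
  have h0 : decayBd Z 0 (fun _ => c) := ⟨|c|, fun z _ => by simp⟩
  cases k with
  | zero => exact h0
  | succ k => exact ⟨h0, fun _ => 0, fun z _ => hasDerivAt_const z c, decay_nil⟩

theorem decay_smul {k m : ℕ} (c : ℝ) {f : ℝ → ℝ} (hf : decayOO Z k m f) :
    decayOO Z k m (fun z => c * f z) := by
  have := decay_mul (decay_const c) hf
  rwa [Nat.zero_add] at this

theorem decay_inv (hZ : 1 ≤ Z) {k : ℕ} : decayOO Z k 1 (fun z => z⁻¹) := by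
  have h0 : decayBd Z 1 (fun z => z⁻¹) := ⟨1, fun z hz => by
    have : 0 < z := by linarith only [hZ, hz]
    rw [abs_of_pos (inv_pos.2 this)]
    simp⟩
  induction k with
  | zero => exact h0
  | succ k ih =>
    refine ⟨h0, fun z => -1 * (z⁻¹ * z⁻¹), fun z hz => ?_, decay_smul (-1) (decay_mul ih ih)⟩
    have hz0 : z ≠ 0 := by
      have : 0 < z := by linarith
      exact this.ne'
    refine (hasDerivAt_inv hz0).congr_deriv ?_
    field_simp

theorem decay_lin (hZ : 1 ≤ Z) {a : ℝ → ℝ} (ha : ∀ z, Z < z → 1 / 10 ≤ a z) {k : ℕ} :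
    ∀ {m : ℕ} {f b : ℝ → ℝ}, (∀ z, Z < z → HasDerivAt f (a z * f z + b z) z) →
      decayOO Z k 0 a → decayOO Z k m b → (∃ M : ℝ, ∀ z, Z < z → |f z| ≤ M) →
      decayOO Z k m f := by
  induction k with
  | zero =>
    rintro m f b hd - ⟨C, hC⟩ ⟨M, hM⟩
    exact ⟨C / (1 / 10), repel (by linarith) (by norm_num) hd ha hC hM⟩
  | succ k ih =>
    intro m f b hd hoa hob hM
    have ha0 := decay_down hoa
    have hb0 := decay_down hob
    have hf := ih hd ha0 hb0 hM
    obtain ⟨-, a', a2, a3⟩ := hoa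
    obtain ⟨-, b', b2, b3⟩ := hob
    have h1 : decayOO Z k m (fun z => a z * f z + b z) := by
      have := decay_mul ha0 hf
      rw [Nat.zero_add] at this
      exact decay_add this hb0
    have h2 : decayOO Z k (m + 1) (fun z => a' z * f z + b' z) := by
      have := decay_mul a3 hf
      rw [Nat.zero_add, Nat.add_comm] at this
      exact decay_add this b3
    refine ⟨decay_bd hf, fun z => a z * f z + b z, hd,
      ih (fun z hz => ?_) ha0 h2 (decay_bd_zero hZ (decay_bd h1))⟩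
    refine (((a2 z hz).mul (hd z hz)).add (b2 z hz)).congr_deriv ?_
    ring

theorem decay_iter {k : ℕ} : ∀ {m : ℕ} {f : ℝ → ℝ}, decayOO Z k m f →
    decayBd Z (m + k) (iteratedDeriv k f) := by
  induction k with
  | zero =>
    intro m f hf
    rw [iteratedDeriv_zero]
    exact hf
  | succ k ih =>
    rintro m f ⟨-, f', h2, h3⟩
    rw [iteratedDeriv_succ']
    have := ih (decay_congr (g := deriv f) (fun z hz => (h2 z hz).deriv.symm) h3)
    rwa [Nat.add_right_comm] at this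

theorem decay_three (hZ : 100 ≤ Z) {g J G : ℝ → ℝ} (h : SmSol (Ioi Z) g J G)
    (hb : Tail Z g J G) (k : ℕ) : decayOO Z k 1 g ∧ decayOO Z k 1 J ∧ decayOO Z k 2 G := by
  obtain ⟨C, hC⟩ := hb
  have hZ1 : 1 ≤ Z := by linarith only [hZ]
  have bg : decayBd Z 1 g := ⟨C, fun z hz => by simpa using (hC z hz).2.1⟩
  have bJ : decayBd Z 1 J := ⟨C, fun z hz => by simpa using (hC z hz).2.2.1⟩
  have bG : decayBd Z 2 G := ⟨C, fun z hz => (hC z hz).2.2.2⟩
  have hd : ∀ {f : ℝ → ℝ}, ContDiffOn ℝ ∞ f (Ioi Z) → ∀ z, Z < z → HasDerivAt f (deriv f z) z :=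
    fun hf z hz => ((hf.differentiableOn (by simp)).differentiableAt (Ioi_mem_nhds hz)).hasDerivAt
  induction k with
  | zero => exact ⟨bg, bJ, bG⟩
  | succ k ih =>
    obtain ⟨ig, iJ, iG⟩ := ih
    have og : decayOO Z (k + 1) 1 g := by
      refine ⟨bg, fun z => (1 / 4 * J z + -(10 / 4) * g z) * z⁻¹, fun z hz => ?_,
        decay_mul (decay_add (decay_smul _ iJ) (decay_smul _ ig)) (decay_inv hZ1)⟩
      have hz0 : 0 < z := by linarith
      have e := h.e1 z hz
      convert hd h.sg z hz using 1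
      field_simp
      linarith only [e]
    have oJ : decayOO Z (k + 1) 1 J := by
      refine ⟨bJ, G, fun z hz => ?_, iG⟩
      rw [← h.e2 z hz]
      exact hd h.sJ z hz
    refine ⟨og, oJ, decay_lin hZ1 (a := fun z => 1 / 4 + (1 / 4 * g z + -(10 / 4) * z⁻¹))
      (b := fun z => (1 / 4 * J z + 1 / 32 * (J z * J z)) * z⁻¹) (fun z hz => ?_) (fun z hz => ?_)
      (decay_add (decay_const _) (decay_succ hZ1
        (decay_add (decay_smul _ og) (decay_smul _ (decay_inv hZ1)))))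
      (decay_mul (decay_add (decay_smul _ oJ) (decay_smul _ (decay_succ hZ1 (decay_mul oJ oJ))))
        (decay_inv hZ1)) (decay_bd_zero hZ1 bG)⟩
    · have h1 := (hC z hz).1
      have h2 : z⁻¹ ≤ (100 : ℝ)⁻¹ := inv_anti₀ (by norm_num) (by linarith only [hZ, hz])
      linarith only [h1, h2]
    · have hz0 : 0 < z := by linarith
      have e := h.e3 z hz
      convert hd h.sG z hz using 1
      field_simp
      linarith only [e]

theorem decay_all {Z : ℝ} (hZ : 100 ≤ Z) {g J G : ℝ → ℝ} (h : SmSol (Ioi Z) g J G)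
    (hb : Tail Z g J G) (n : ℕ) :
    ∃ C : ℝ, ∀ z, Z < z → |iteratedDeriv n g z| ≤ C / z ^ (n + 1) := by
  have := decay_iter (decay_three hZ h hb n).1
  rwa [Nat.add_comm] at this

end

end Pool.Agent.Work.MP_6bf1e5_an.Mat
end

-- merged part: Pool.Agent.Work.MP_6bf1e5_an.Mat.FtA
section
/-!
Fourier transforms of integrable symbols (`Real.fourier_fderiv` or integration by parts; `‖fderiv‖² = ∑ pd²`).
For a symbol `u` of order `-1` the function `lap (lap u)` has order `-5`, so `|ξ|^(2 k) ‖ft (lap (lap u)) ξ‖` is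
bounded for every `k`; together with `norm_ft_low` (file FtB, an assumption here) this gives `rap_hat_of_low`.
-/

open scoped ContDiff ENNReal FourierTransform Topology ComplexConjugate Matrix
open Set MeasureTheory Filter Metric Pool.Agent.Work.MP_6bf1e5_an.Ens

namespace Pool.Agent.Work.MP_6bf1e5_an.Mat

noncomputable section

variable {m : ℤ} {u : R3 → ℝ}

theorem fta_def (u : R3 → ℝ) (ξ : R3) :
    ft u ξ = ∫ y, Real.fourierChar (-inner ℝ y ξ) • (u y : ℂ) := rfl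

theorem fta_int (h : Integrable u) (ξ : R3) :
    Integrable fun y => Real.fourierChar (-inner ℝ y ξ) • (u y : ℂ) :=
  (Real.fourierIntegral_convergent_iff ξ).2 h.ofReal

theorem norm_ft_le (u : R3 → ℝ) (ξ : R3) : ‖ft u ξ‖ ≤ ∫ y, |u y| := by
  rw [fta_def]
  simpa only [Circle.norm_smul, Complex.norm_real, Real.norm_eq_abs] using
    norm_integral_le_integral_norm fun y => Real.fourierChar (-inner ℝ y ξ) • (u y : ℂ)

theorem continuous_ft (h : Integrable u) : Continuous (ft u) :=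
  VectorFourier.fourierIntegral_continuous Real.continuous_fourierChar (innerSL ℝ).continuous₂
    h.ofReal

theorem ft_neg (u : R3 → ℝ) (ξ : R3) : ft u (-ξ) = conj (ft u ξ) := by
  rw [ft, Real.fourier_eq', Real.fourier_eq', ← integral_conj]
  refine integral_congr_ae (Eventually.of_forall fun y => ?_)
  simp only [smul_eq_mul, map_mul, Complex.conj_ofReal, ← Complex.exp_conj, Complex.conj_I,
    inner_neg_right]
  congr 2
  push_cast
  ring

theorem ft_add {v : R3 → ℝ} (hu : Integrable u) (hv : Integrable v) (ξ : R3) :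
    ft (fun y => u y + v y) ξ = ft u ξ + ft v ξ := by
  simp only [fta_def, Complex.ofReal_add, smul_add]
  exact integral_add (fta_int hu ξ) (fta_int hv ξ)

theorem fta_sum {κ : Type} (S : Finset κ) {w : κ → R3 → ℝ} (hw : ∀ k ∈ S, Integrable (w k))
    (ξ : R3) : ft (fun y => ∑ k ∈ S, w k y) ξ = ∑ k ∈ S, ft (w k) ξ := by
  simp only [fta_def, Complex.ofReal_sum, Finset.smul_sum]
  exact integral_finsetSum S fun k hk => fta_int (hw k hk) ξ

theorem fta_norm_fderiv_le (u : R3 → ℝ) (x : R3) : ‖fderiv ℝ u x‖ ≤ ∑ j, |pd j u x| := by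
  refine abs_le_of_sq_le_sq' ?_ (Finset.sum_nonneg fun j _ => abs_nonneg _) |>.2
  rw [norm_fderiv_sq]
  simp only [Fin.sum_univ_three, ← sq_abs (pd _ u x)]
  linarith only [mul_nonneg (abs_nonneg (pd 0 u x)) (abs_nonneg (pd 1 u x)),
    mul_nonneg (abs_nonneg (pd 0 u x)) (abs_nonneg (pd 2 u x)),
    mul_nonneg (abs_nonneg (pd 1 u x)) (abs_nonneg (pd 2 u x))]

theorem ft_pd (hu : ContDiff ℝ ∞ u) (h0 : Integrable u) (h1 : ∀ j, Integrable (pd j u))
    (j : Fin 3) (ξ : R3) : ft (pd j u) ξ = 2 * Real.pi * Complex.I * (ξ j : ℂ) * ft u ξ := by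
  have hd : Differentiable ℝ u := hu.differentiable (by simp)
  have hD : ∀ x, HasFDerivAt (fun y => (u y : ℂ)) (Complex.ofRealCLM.comp (fderiv ℝ u x)) x :=
    fun x => Complex.ofRealCLM.hasFDerivAt.comp x (hd x).hasFDerivAt
  have hf : fderiv ℝ (fun y => (u y : ℂ)) = fun x => Complex.ofRealCLM.comp (fderiv ℝ u x) :=
    funext fun x => (hD x).fderiv
  have hc : Continuous fun x => Complex.ofRealCLM.comp (fderiv ℝ u x) :=
    continuous_const.clm_comp (hu.continuous_fderiv (by simp))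
  have hi : Integrable (fderiv ℝ fun y => (u y : ℂ)) := by
    rw [hf]
    refine (integrable_finsetSum Finset.univ fun j _ => (h1 j).abs).mono' hc.aestronglyMeasurable
      (Eventually.of_forall fun x => ?_)
    refine (ContinuousLinearMap.opNorm_comp_le _ _).trans ?_
    rw [Complex.ofRealCLM_norm, one_mul]
    exact fta_norm_fderiv_le u x
  have h := congrArg (fun F => F ξ (EuclideanSpace.single j (1 : ℝ)))
    (Real.fourier_fderiv h0.ofReal (fun x => (hD x).differentiableAt) hi)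
  simp only [Real.fourier_continuousLinearMap_apply hi, VectorFourier.fourierSMulRight_apply] at h
  have e : (-innerSL ℝ) ξ (EuclideanSpace.single j (1 : ℝ)) = -ξ j := by
    rw [neg_apply, neg_apply, innerSL_apply_apply,
      EuclideanSpace.inner_single_right]
    simp
  rw [e, hf] at h
  refine Eq.trans h ?_
  simp only [ft, smul_eq_mul, Complex.real_smul, Complex.ofReal_neg]
  ring

theorem ft_lap (hu : ContDiff ℝ ∞ u) (h0 : Integrable u) (h1 : ∀ j, Integrable (pd j u))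
    (h2 : ∀ i j, Integrable (pd i (pd j u))) (ξ : R3) :
    ft (lap u) ξ = -((((2 * Real.pi * ‖ξ‖) ^ 2 : ℝ) : ℂ) * ft u ξ) := by
  have e : ft (lap u) ξ = ∑ j, ft (pd j (pd j u)) ξ := fta_sum _ (fun j _ => h2 j j) ξ
  have e2 : ∀ j, ft (pd j (pd j u)) ξ = -((2 * Real.pi) ^ 2 * (ξ j : ℂ) ^ 2 * ft u ξ) := fun j => by
    rw [ft_pd (contDiff_pd hu j) (h1 j) (fun i => h2 i j), ft_pd hu h0 h1]
    linear_combination ((2 * Real.pi) ^ 2 * (ξ j : ℂ) ^ 2 * ft u ξ) * Complex.I_sq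
  rw [e, mul_pow, norm_sq_eq_sum]
  simp only [e2, Fin.sum_univ_three]
  push_cast
  ring

theorem fta_smooth (h : Sy m u) : ContDiff ℝ ∞ u := h.smooth ()

theorem fta_sy_pd (h : Sy m u) (j : Fin 3) : Sy (m - 1) (pd j u) := SyF.pd h j

theorem fta_sy_lap (h : Sy m u) : Sy (m - 2) (lap u) := SyF.lap h

theorem fta_ft_lap (h : Sy m u) (hm : m ≤ -4) (ξ : R3) :
    ‖ft (lap u) ξ‖ = (2 * Real.pi * ‖ξ‖) ^ 2 * ‖ft u ξ‖ := by
  rw [ft_lap (fta_smooth h) (h.integrable hm)
    (fun j => (fta_sy_pd h j).integrable (by omega))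
    (fun i j => (fta_sy_pd (fta_sy_pd h j) i).integrable (by omega)), norm_neg, norm_mul,
    Complex.norm_real, Real.norm_of_nonneg (sq_nonneg _)]

theorem fta_pow (k : ℕ) : ∀ {m : ℤ} {u : R3 → ℝ}, Sy m u → m ≤ -4 →
    ∃ C : ℝ, ∀ ξ, ‖ξ‖ ^ (2 * k) * ‖ft u ξ‖ ≤ C := by
  induction k with
  | zero => exact fun _ _ => ⟨_, fun ξ => by simpa using norm_ft_le _ ξ⟩
  | succ k ih =>
    intro m u h hm
    obtain ⟨C, hC⟩ := ih (fta_sy_lap h) (by omega)
    refine ⟨C / (2 * Real.pi) ^ 2, fun ξ => ?_⟩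
    rw [le_div_iff₀ (by positivity)]
    refine le_trans (le_of_eq ?_) (hC ξ)
    rw [fta_ft_lap h hm]
    ring

theorem fta_one_add_pow {r : ℝ} (hr : 0 ≤ r) (N : ℕ) : (1 + r) ^ N ≤ 2 ^ N * (1 + r ^ (2 * N)) := by
  rcases le_total r 1 with h | h
  · calc (1 + r) ^ N ≤ 2 ^ N := pow_le_pow_left₀ (by linarith) (by linarith) N
      _ ≤ 2 ^ N * (1 + r ^ (2 * N)) :=
        le_mul_of_one_le_right (by positivity) (le_add_of_nonneg_right (by positivity))
  · calc (1 + r) ^ N ≤ (2 * r ^ 2) ^ N := pow_le_pow_left₀ (by linarith) (by linarith only [h, hr, mul_nonneg_of_nonpos_of_nonpos (Mathlib.Tactic.Linarith.sub_nonpos_of_le hr) (Mathlib.Tactic.Linarith.sub_nonpos_of_le h)]) N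
      _ = 2 ^ N * r ^ (2 * N) := by rw [mul_pow, pow_mul]
      _ ≤ 2 ^ N * (1 + r ^ (2 * N)) := by gcongr; linarith only []

theorem Sy.ft_decay (h : Sy m u) (hm : m ≤ -4) (N : ℕ) :
    ∃ C : ℝ, ∀ ξ, ‖ft u ξ‖ ≤ C / (1 + ‖ξ‖) ^ N := by
  obtain ⟨C, hC⟩ := fta_pow N h hm
  refine ⟨2 ^ N * ((∫ y, |u y|) + C), fun ξ => ?_⟩
  rw [le_div_iff₀ (by positivity)]
  calc ‖ft u ξ‖ * (1 + ‖ξ‖) ^ N ≤ ‖ft u ξ‖ * (2 ^ N * (1 + ‖ξ‖ ^ (2 * N))) :=
        mul_le_mul_of_nonneg_left (fta_one_add_pow (norm_nonneg ξ) N) (norm_nonneg _)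
    _ = 2 ^ N * (‖ft u ξ‖ + ‖ξ‖ ^ (2 * N) * ‖ft u ξ‖) := by ring
    _ ≤ _ := by gcongr; exacts [norm_ft_le u ξ, hC ξ]

theorem fta_integrable_ft (h : Sy m u) (hm : m ≤ -4) : Integrable (ft u) := by
  obtain ⟨C, hC⟩ := h.ft_decay hm 4
  have hi : Integrable fun ξ : R3 => (1 + ‖ξ‖) ^ (-(4 : ℝ)) :=
    integrable_one_add_norm (by simp; norm_num)
  refine (hi.const_mul C).mono' (continuous_ft (h.integrable hm)).aestronglyMeasurable
    (Eventually.of_forall fun ξ => (hC ξ).trans (le_of_eq ?_))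
  rw [Real.rpow_neg (by positivity), div_eq_mul_inv]
  norm_cast

theorem Sy.ev_ft (h : Sy m u) (hm : m ≤ -4) (x : R3) : ev (ft u) x = u x :=
  (h.integrable hm).ofReal.fourierInv_fourier_eq (fta_integrable_ft h hm)
    (Complex.continuous_ofReal.comp (fta_smooth h).continuous).continuousAt

theorem hat_neg (u : R3 → ℝ) (ξ : R3) : hat u (-ξ) = conj (hat u ξ) := by
  rw [hat, hat, ft_neg, norm_neg, map_div₀, Complex.conj_ofReal]

theorem fta_norm_hat (u : R3 → ℝ) (ξ : R3) :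
    ‖hat u ξ‖ = ‖ft (lap (lap u)) ξ‖ / (2 * Real.pi * ‖ξ‖) ^ 4 := by
  rw [hat, norm_div, Complex.norm_real, Real.norm_of_nonneg (by positivity)]

theorem rap_hat_of_low (h : Sy (-1) u) (hl : ∃ C : ℝ, ∀ ξ, ‖ft (lap (lap u)) ξ‖ ≤ C * ‖ξ‖ ^ 2) :
    Rap (hat u) ∧ ∃ C : ℝ, ∀ ξ, ‖hat u ξ‖ ≤ C * w2 0 ξ := by
  have h5 : Sy (-1 - 2 - 2) (lap (lap u)) := fta_sy_lap (fta_sy_lap h)
  obtain ⟨C, hC⟩ := hl
  have hw : ∀ ξ, ‖hat u ξ‖ ≤ |C| / (2 * Real.pi) ^ 4 * w2 0 ξ := fun ξ => by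
    rw [fta_norm_hat]
    rcases eq_or_ne ξ 0 with rfl | hξ
    · simp [w2]
    have hr : 0 < ‖ξ‖ := norm_pos_iff.mpr hξ
    have hπ := Real.pi_pos
    calc _ ≤ |C| * ‖ξ‖ ^ 2 / (2 * Real.pi * ‖ξ‖) ^ 4 := by
          gcongr
          exact (hC ξ).trans (mul_le_mul_of_nonneg_right (le_abs_self C) (sq_nonneg _))
      _ = _ := by
          simp only [w2, zero_mul, neg_zero, Real.exp_zero, mul_one]
          field_simp
  refine ⟨⟨?_, fun N => ?_⟩, _, hw⟩
  · refine (continuous_ft (h5.integrable (by norm_num))).continuousOn.div (by fun_prop)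
      fun ξ hξ => ?_
    have hr : 0 < ‖ξ‖ := norm_pos_iff.mpr hξ
    have hπ := Real.pi_pos
    exact Complex.ofReal_ne_zero.mpr (by positivity)
  · obtain ⟨D, hD⟩ := h5.ft_decay (by norm_num) N
    refine ⟨|C| / (2 * Real.pi) ^ 4 * 2 ^ N + |D|, fun ξ hξ => ?_⟩
    have hr : 0 < ‖ξ‖ := norm_pos_iff.mpr hξ
    have hπ := Real.pi_gt_three
    have hq : 0 ≤ wt 0 ξ / (1 + ‖ξ‖) ^ N := div_nonneg (wt_nonneg 0 ξ) (by positivity)
    rcases le_total ‖ξ‖ 1 with h1 | h1
    · have a1 : w2 0 ξ ≤ wt 0 ξ := by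
        rw [w2_eq]
        exact mul_le_of_le_one_left (wt_nonneg 0 ξ) (Real.rpow_le_one hr.le h1 (by norm_num))
      have a2 : wt 0 ξ ≤ 2 ^ N * (wt 0 ξ / (1 + ‖ξ‖) ^ N) := by
        rw [← mul_div_assoc, le_div_iff₀ (by positivity), mul_comm]
        exact mul_le_mul_of_nonneg_right (pow_le_pow_left₀ (by positivity) (by linarith only [h1]) N)
          (wt_nonneg 0 ξ)
      calc ‖hat u ξ‖ ≤ |C| / (2 * Real.pi) ^ 4 * (2 ^ N * (wt 0 ξ / (1 + ‖ξ‖) ^ N)) :=
            (hw ξ).trans (mul_le_mul_of_nonneg_left (a1.trans a2) (by positivity))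
        _ ≤ _ := by linarith only [hq, mul_nonneg (abs_nonneg D) hq]
    · have a1 : ((2 * Real.pi * ‖ξ‖) ^ 4)⁻¹ ≤ wt 0 ξ := by
        simp only [wt, zero_mul, neg_zero, Real.exp_zero, mul_one]
        rw [Real.rpow_neg hr.le]
        refine inv_anti₀ (by positivity) ?_
        calc ‖ξ‖ ^ (5 / 2 : ℝ) ≤ ‖ξ‖ ^ ((4 : ℕ) : ℝ) :=
              Real.rpow_le_rpow_of_exponent_le h1 (by norm_num)
          _ = ‖ξ‖ ^ 4 := Real.rpow_natCast _ _
          _ ≤ _ := pow_le_pow_left₀ hr.le (by linarith only [hr, hπ, mul_pos_of_neg_of_neg (Mathlib.Tactic.Linarith.sub_neg_of_lt hr) (Mathlib.Tactic.Linarith.sub_neg_of_lt hπ)]) 4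
      calc ‖hat u ξ‖ ≤ |D| / (1 + ‖ξ‖) ^ N * wt 0 ξ := by
            rw [fta_norm_hat, div_eq_mul_inv]
            refine mul_le_mul ((hD ξ).trans ?_) a1 (by positivity) (by positivity)
            gcongr
            exact le_abs_self D
        _ = |D| * (wt 0 ξ / (1 + ‖ξ‖) ^ N) := by ring
        _ ≤ _ := by
            refine mul_le_mul_of_nonneg_right (le_add_of_nonneg_left (by positivity)) hq

end

end Pool.Agent.Work.MP_6bf1e5_an.Mat
end

-- merged part: Pool.Agent.Work.MP_6bf1e5_an.Mat.FtB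
section
/-!
The low frequency bound. Fix a smooth `χ` with values in `[0, 1]`, equal to `1` on the unit ball and `0` outside the ball of
radius `2` (`ContDiffBump`). For `R ≥ 1` put `χ_R y = χ (R⁻¹ • y)`; this is a family `SyF 0` indexed by `{R // 1 ≤ R}`
(`pds l χ_R y = R^(-|l|) pds l χ (R⁻¹ • y)` vanishes for `|y| > 2 R`). With `R = 1 / |ξ|` split `u = χ_R u + (1 - χ_R) u`:
`ft (lap (lap (χ_R u))) = (2π|ξ|)⁴ ft (χ_R u)` with `∫ |χ_R u| ≤ C R²`, and `lap (lap ((1 - χ_R) u))` is bounded by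
`C (1 + |y|)^(-5)` and vanishes for `|y| < R`, so its integral is at most `C / R²`. Both integrals by scaling or by
`integral_fun_norm_addHaar`. For `|ξ| ≥ 1` the transform is bounded.
-/

open scoped ContDiff ENNReal FourierTransform Topology ComplexConjugate Matrix
open Set MeasureTheory Filter Metric Pool.Agent.Work.MP_6bf1e5_an.Ens

namespace Pool.Agent.Work.MP_6bf1e5_an.Mat

noncomputable section

theorem ftb_pd_zero {U : Set R3} (hU : IsOpen U) {f : R3 → ℝ} (h : ∀ y ∈ U, f y = 0) (j : Fin 3) :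
    ∀ y ∈ U, pd j f y = 0 := fun y hy => by
  have e : f =ᶠ[𝓝 y] fun _ => 0 := Filter.mem_of_superset (hU.mem_nhds hy) h
  unfold pd
  rw [e.fderiv_eq, fderiv_fun_const]
  rfl

theorem ftb_lap_zero {U : Set R3} (hU : IsOpen U) {f : R3 → ℝ} (h : ∀ y ∈ U, f y = 0) :
    ∀ y ∈ U, lap f y = 0 := fun y hy =>
  Finset.sum_eq_zero fun j _ => ftb_pd_zero hU (ftb_pd_zero hU h j) j y hy

theorem ftb_lap_add {f g : R3 → ℝ} (hf : ContDiff ℝ ∞ f) (hg : ContDiff ℝ ∞ g) :
    lap (fun y => f y + g y) = fun y => lap f y + lap g y := by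
  funext y
  unfold lap
  rw [← Finset.sum_add_distrib]
  refine Finset.sum_congr rfl fun j _ => ?_
  have e : pd j (fun y => f y + g y) = fun y => pd j f y + pd j g y := funext fun x =>
    pd_add (hf.differentiable (by simp) x) (hg.differentiable (by simp) x) j
  rw [e, pd_add ((contDiff_pd hf j).differentiable (by simp) y)
    ((contDiff_pd hg j).differentiable (by simp) y)]

theorem ftb_test_lap {φ : R3 → ℝ} (h : Test φ) : Test (lap φ) :=
  Test.sum _ fun j _ => (h.pd j).pd j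

theorem ftb_test_int {φ : R3 → ℝ} (h : Test φ) : Integrable φ :=
  h.1.continuous.integrable_of_hasCompactSupport h.2

theorem ftb_ft_lap {φ : R3 → ℝ} (h : Test φ) (ξ : R3) :
    ‖ft (lap φ) ξ‖ = (2 * Real.pi * ‖ξ‖) ^ 2 * ‖ft φ ξ‖ := by
  rw [ft_lap h.1 (ftb_test_int h) (fun j => ftb_test_int (h.pd j))
    (fun i j => ftb_test_int ((h.pd j).pd i)), norm_neg, norm_mul, Complex.norm_real,
    Real.norm_of_nonneg (by positivity)]

theorem ftb_scale {f g : R3 → ℝ} (hg : Integrable g) {A r : ℝ} (hr : 0 < r)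
    (h : ∀ y, y ≠ 0 → |f y| ≤ A * g (r • y)) : ∫ y, |f y| ≤ A * ((r ^ 3)⁻¹ * ∫ y, g y) := by
  have h1 := integral_mono_of_nonneg (Eventually.of_forall fun y => abs_nonneg (f y))
    ((hg.comp_smul hr.ne').const_mul A)
    ((Measure.ae_ne volume (0 : R3)).mono h)
  rwa [integral_const_mul, Measure.integral_comp_smul_of_nonneg _ _ _ (hR := hr.le),
    finrank_euclideanSpace_fin, smul_eq_mul] at h1

theorem ftb_fam {φ : R3 → ℝ} (hφ : ContDiff ℝ ∞ φ) (h2 : ∀ y, 2 < ‖y‖ → φ y = 0) :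
    SyF 0 fun (s : Ioc (0 : ℝ) 1) y => φ (s.1 • y) := by
  refine SyF.of_class (fun m w => ∃ (k : ℕ) (ψ : R3 → ℝ), m = -k ∧ ContDiff ℝ ∞ ψ ∧
    (∀ y, 2 < ‖y‖ → ψ y = 0) ∧ w = fun s y => s.1 ^ k * ψ (s.1 • y)) ?_ ?_ ?_
    ⟨0, φ, by simp, hφ, h2, by simp⟩
  · rintro m w ⟨k, ψ, -, hψ, -, rfl⟩ s
    exact contDiff_const.mul (hψ.comp (contDiff_const_smul _))
  · rintro m w ⟨k, ψ, rfl, hψ, h0, rfl⟩
    have hc : HasCompactSupport ψ := HasCompactSupport.intro (isCompact_closedBall 0 2)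
      fun y hy => h0 y (by simpa using hy)
    obtain ⟨M, hM⟩ := hψ.continuous.bounded_above_of_compact_support hc
    refine ⟨M * 3 ^ k, fun s y => ?_⟩
    have hM0 : 0 ≤ M := (norm_nonneg _).trans (hM 0)
    obtain ⟨r, hr0, hr1⟩ := s
    by_cases hy : 2 < ‖r • y‖
    · simp only [h0 _ hy, mul_zero, abs_zero]
      positivity
    · rw [norm_smul, Real.norm_of_nonneg hr0.le, not_lt] at hy
      simp only
      rw [zpow_neg, zpow_natCast, ← div_eq_mul_inv, le_div_iff₀ (by positivity), abs_mul,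
        abs_of_nonneg (by positivity), mul_right_comm, ← mul_pow, mul_comm M]
      exact mul_le_mul (pow_le_pow_left₀ (by positivity) (by linarith only [hr1, hy]) k) (hM _) (abs_nonneg _)
        (by positivity)
  · rintro m w ⟨k, ψ, rfl, hψ, h0, rfl⟩ j
    refine ⟨k + 1, pd j ψ, by push_cast; ring, contDiff_pd hψ j,
      ftb_pd_zero (U := {y | 2 < ‖y‖}) (isOpen_lt continuous_const continuous_norm) h0 j, ?_⟩
    funext s y
    rw [pd_const_mul, pow_succ, mul_assoc]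
    unfold pd
    rw [fderiv_comp_smul]
    rfl

theorem ftb_int1 : Integrable ((ball (0 : R3) 3).indicator fun z => ‖z‖⁻¹) := by
  refine (integrable_indicator_iff measurableSet_ball).2
    (integrableOn_ball_of_norm_le_rpow (C := 1) (α := 1) (by simp) (by simp)
      (Eventually.of_forall fun z => ?_) measurable_norm.inv.aestronglyMeasurable)
  rw [Real.rpow_neg_one, one_mul, norm_inv, norm_norm]

theorem ftb_int2 : Integrable fun z : R3 => ((1 + ‖z‖) ^ 5)⁻¹ := by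
  refine (integrable_one_add_norm (E := R3) (r := 5) (by simp; norm_num)).congr
    (Eventually.of_forall fun z => ?_)
  simp only
  rw [Real.rpow_neg (by positivity), Real.rpow_ofNat]

theorem ftb_low {u : R3 → ℝ} (h : Sy (-1) u) :
    ∃ C : ℝ, ∀ ξ : R3, ξ ≠ 0 → ‖ξ‖ ≤ 1 → ‖ft (lap (lap u)) ξ‖ ≤ C * ‖ξ‖ ^ 2 := by
  let χ : ContDiffBump (0 : R3) := ⟨1, 2, one_pos, one_lt_two⟩
  have h2 : ∀ y, 2 < ‖y‖ → χ y = 0 := fun y hy => χ.zero_of_le_dist (by simpa using hy.le)
  have h1 : ∀ y, ‖y‖ < 1 → χ y = 1 := fun y hy => χ.one_of_mem_closedBall (by simpa using hy.le)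
  have hv : SyF (-1) fun (s : Ioc (0 : ℝ) 1) y => χ (s.1 • y) * u y :=
    ((ftb_fam χ.contDiff h2).mul (h.fam _)).mono (by norm_num)
  have hw := (h.fam _).sub hv
  obtain ⟨Cv, hCv0, hCv⟩ := hv.le
  obtain ⟨Cw, hCw0, hCw⟩ := (hw.lap.lap.mono (m' := -5) (by norm_num)).le
  refine ⟨(2 * Real.pi) ^ 4 * (Cv * ∫ z, (ball (0 : R3) 3).indicator (fun z => ‖z‖⁻¹) z)
    + 32 * Cw * ∫ z : R3, ((1 + ‖z‖) ^ 5)⁻¹, fun ξ h0 hle => ?_⟩
  have hr : 0 < ‖ξ‖ := norm_pos_iff.2 h0
  set r := ‖ξ‖ with hrξ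
  have hn : ∀ y : R3, ‖r • y‖ = r * ‖y‖ := fun y => by rw [norm_smul, Real.norm_of_nonneg hr.le]
  have hvs := hv.smooth ⟨r, hr, hle⟩
  have hws := hw.smooth ⟨r, hr, hle⟩
  have hvt : Test fun y => χ (r • y) * u y := ⟨hvs, HasCompactSupport.intro
    (isCompact_closedBall 0 (2 / r)) fun y hy => by
      rw [h2 _ (by
        rw [mem_closedBall_zero_iff, not_le, div_lt_iff₀' hr] at hy
        rwa [hn]), zero_mul]⟩
  have e : lap (lap u) = fun y => lap (lap fun y => χ (r • y) * u y) y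
      + lap (lap fun y => u y - χ (r • y) * u y) y := by
    rw [← ftb_lap_add (hv.lap.smooth ⟨r, hr, hle⟩) (hw.lap.smooth ⟨r, hr, hle⟩),
      ← ftb_lap_add hvs hws]
    simp only [add_sub_cancel]
  have b1 : ∫ y, |χ (r • y) * u y| ≤
      Cv * r * ((r ^ 3)⁻¹ * ∫ z, (ball (0 : R3) 3).indicator (fun z => ‖z‖⁻¹) z) := by
    refine ftb_scale ftb_int1 hr fun y hy => ?_
    have hy0 : 0 < ‖y‖ := norm_pos_iff.2 hy
    by_cases hb : r • y ∈ ball (0 : R3) 3
    · refine (hCv ⟨r, hr, hle⟩ y).trans ?_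
      rw [indicator_of_mem hb, hn, mul_inv, mul_assoc, mul_inv_cancel_left₀ hr.ne', zpow_neg_one]
      exact mul_le_mul_of_nonneg_left (inv_anti₀ hy0 (by linarith)) hCv0
    · rw [indicator_of_notMem hb, h2 _ (by
        rw [mem_ball_zero_iff, not_lt] at hb
        linarith), zero_mul, abs_zero, mul_zero]
  have b2 : ∫ y, |lap (lap fun y => u y - χ (r • y) * u y) y| ≤
      32 * Cw * r ^ 5 * ((r ^ 3)⁻¹ * ∫ z : R3, ((1 + ‖z‖) ^ 5)⁻¹) := by
    refine ftb_scale ftb_int2 hr fun y _ => ?_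
    by_cases hb : ‖r • y‖ < 1
    · have hU : IsOpen {y : R3 | ‖r • y‖ < 1} := isOpen_lt (by fun_prop) continuous_const
      rw [ftb_lap_zero hU (ftb_lap_zero hU fun y hy => by rw [h1 _ hy, one_mul, sub_self]) y hb,
        abs_zero]
      positivity
    · refine (hCw ⟨r, hr, hle⟩ y).trans ?_
      rw [hn, not_lt] at hb
      have hy0 := norm_nonneg y
      have k : (1 + r * ‖y‖) ^ 5 ≤ (2 * r * (1 + ‖y‖)) ^ 5 :=
        pow_le_pow_left₀ (by positivity) (by linarith only [hr, hb]) 5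
      rw [hn, zpow_neg, zpow_ofNat, ← div_eq_mul_inv, ← div_eq_mul_inv,
        div_le_div_iff₀ (by positivity) (by positivity)]
      refine (mul_le_mul_of_nonneg_left k hCw0).trans_eq ?_
      ring
  rw [e, ft_add (ftb_test_int (ftb_test_lap (ftb_test_lap hvt)))
    ((hw.lap.lap.sy ⟨r, hr, hle⟩).integrable (by norm_num))]
  refine (norm_add_le _ _).trans ?_
  rw [ftb_ft_lap (ftb_test_lap hvt), ftb_ft_lap hvt, ← hrξ]
  refine (add_le_add (mul_le_mul_of_nonneg_left (mul_le_mul_of_nonneg_left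
    ((norm_ft_le _ _).trans b1) (by positivity)) (by positivity))
    ((norm_ft_le _ _).trans b2)).trans_eq ?_
  field_simp

theorem norm_ft_low {u : R3 → ℝ} (h : Sy (-1) u) :
    ∃ C : ℝ, ∀ ξ, ‖ft (lap (lap u)) ξ‖ ≤ C * ‖ξ‖ ^ 2 := by
  obtain ⟨C, hC⟩ := ftb_low h
  have hi : Integrable (lap (lap u)) := Sy.integrable (SyF.lap (SyF.lap h)) (by norm_num)
  have hM : 0 ≤ ∫ y, |lap (lap u) y| := integral_nonneg fun y => abs_nonneg _
  refine ⟨max C (∫ y, |lap (lap u) y|), (dense_compl_singleton (0 : R3)).induction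
    (fun ξ hξ => ?_) (isClosed_le (continuous_ft hi).norm (by fun_prop))⟩
  rcases le_total ‖ξ‖ 1 with h1 | h1
  · exact (hC ξ hξ h1).trans (mul_le_mul_of_nonneg_right (le_max_left _ _) (by positivity))
  · exact (norm_ft_le _ _).trans ((le_max_right C _).trans
      (le_mul_of_one_le_right (hM.trans (le_max_right _ _)) (one_le_pow₀ h1)))

end

end Pool.Agent.Work.MP_6bf1e5_an.Mat
end

-- merged part: Pool.Agent.Work.MP_6bf1e5_an.Ens.Sub
section
/-!
Subordination. For `k ≥ 1` put `hk k ξ = ∫ t in Ioi 0, t^(k-1) exp (-t) gauss t ξ / (4 t²) / (k-1)!`. Since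
`exp (-t - π²|ξ|²/t) ≤ exp (-π|ξ|) exp (-t/2) exp (-π²|ξ|²/(2t))` and `t^(k-1) exp (-t/2)` is bounded,
`hk k ξ ≤ C |ξ|^(-5) exp (-π|ξ|)`; it is continuous off `0` by dominated convergence. Fubini, `ev_cub` and
`∫ t^(m-1) exp (-t (1+z)) dt = (m-1)! / (1+z)^m` give the field `SA A (X^k)`
(`al (X^k) = 3 X^k - 2 k (X^k - X^(k+1))`, `be (X^k) = 2 k X^(k+1)`, `z x = 1 - x`). Then sum over the monomials of `g`.
-/

open scoped ContDiff ENNReal FourierTransform Topology ComplexConjugate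
open Set MeasureTheory Filter Polynomial Metric

namespace Pool.Agent.Work.MP_6bf1e5_an.Ens

noncomputable section

/-- The majorant in the subordination variable. -/
def subG (b t : ℝ) : ℝ := t ^ (-(7 / 2) : ℝ) * Real.exp (-(b / t))

theorem sub_G_int {b : ℝ} (hb : 0 < b) :
    ∫ t in Ioi (0 : ℝ), subG b t = (1 / b) ^ (5 / 2 : ℝ) * Real.Gamma (5 / 2) := by
  rw [← Real.integral_rpow_mul_exp_neg_mul_Ioi (by norm_num) hb,
    ← integral_comp_rpow_Ioi (fun y => y ^ ((5 / 2 : ℝ) - 1) * Real.exp (-(b * y)))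
      (p := -1) (by norm_num)]
  refine setIntegral_congr_fun measurableSet_Ioi fun t ht => ?_
  have ht' : (0 : ℝ) < t := ht
  simp only [subG, smul_eq_mul]
  rw [← Real.rpow_mul ht'.le, Real.rpow_neg_one, ← mul_assoc, abs_neg, abs_one, one_mul,
    ← Real.rpow_add ht', div_eq_mul_inv b]
  norm_num

theorem sub_G_integrable {b : ℝ} (hb : 0 < b) : IntegrableOn (subG b) (Ioi 0) :=
  .of_integral_ne_zero (by
    rw [sub_G_int hb]
    have := Real.Gamma_pos_of_pos (show (0 : ℝ) < 5 / 2 by norm_num)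
    positivity)

theorem sub_pow_int (n : ℕ) {r : ℝ} (hr : 0 < r) :
    ∫ t in Ioi (0 : ℝ), t ^ n * Real.exp (-(r * t)) = r⁻¹ ^ (n + 1) * n.factorial := by
  have h := Real.integral_rpow_mul_exp_neg_mul_Ioi (a := n + 1) (by positivity) hr
  rw [Real.Gamma_nat_eq_factorial, add_sub_cancel_right, one_div, ← Nat.cast_succ,
    Real.rpow_natCast] at h
  simpa only [Real.rpow_natCast] using h

theorem sub_pow_integrable (n : ℕ) {r : ℝ} (hr : 0 < r) :
    IntegrableOn (fun t : ℝ => t ^ n * Real.exp (-(r * t))) (Ioi 0) :=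
  .of_integral_ne_zero (by rw [sub_pow_int n hr]; positivity)

/-- The subordination density. -/
def subPhi (n : ℕ) (ξ : R3) (t : ℝ) : ℝ :=
  t ^ n * Real.exp (-t) / n.factorial * (gauss t ξ / (4 * t ^ 2))

/-- The radial factor of the Fourier transform. -/
def subH (n : ℕ) (ξ : R3) : ℝ := ∫ t in Ioi (0 : ℝ), subPhi n ξ t

theorem sub_phi_nonneg (n : ℕ) (ξ : R3) {t : ℝ} (ht : 0 < t) : 0 ≤ subPhi n ξ t := by
  unfold subPhi gauss
  have := Real.pi_pos
  positivity

theorem sub_phi_meas (n : ℕ) : Measurable fun z : R3 × ℝ => subPhi n z.1 z.2 := by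
  unfold subPhi gauss
  fun_prop

theorem sub_phi_le (n : ℕ) (ξ : R3) {t : ℝ} (ht : 0 < t) :
    subPhi n ξ t ≤ 2 ^ n * Real.pi ^ (3 / 2 : ℝ) / 4 * Real.exp (-(Real.pi * ‖ξ‖)) *
      subG (Real.pi ^ 2 * ‖ξ‖ ^ 2 / 2) t := by
  have hpi := Real.pi_pos
  have h1 : t ^ n / n.factorial ≤ 2 ^ n * Real.exp (t / 2) := by
    have h := Real.pow_div_factorial_le_exp (t / 2) (by positivity) n
    calc t ^ n / n.factorial = 2 ^ n * ((t / 2) ^ n / n.factorial) := by
          rw [div_pow]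
          field_simp
      _ ≤ _ := by gcongr
  have h2 : (Real.pi / t) ^ (3 / 2 : ℝ) / t ^ 2 = Real.pi ^ (3 / 2 : ℝ) * t ^ (-(7 / 2) : ℝ) := by
    rw [Real.div_rpow hpi.le ht.le, div_div, div_eq_mul_inv, ← Real.rpow_natCast t 2,
      ← Real.rpow_add ht, ← Real.rpow_neg ht.le]
    norm_num
  have h3 : Real.exp (t / 2) * Real.exp (-t) * Real.exp (-(Real.pi ^ 2 * ‖ξ‖ ^ 2 / t)) ≤
      Real.exp (-(Real.pi * ‖ξ‖)) * Real.exp (-(Real.pi ^ 2 * ‖ξ‖ ^ 2 / 2 / t)) := by
    rw [← Real.exp_add, ← Real.exp_add, ← Real.exp_add, Real.exp_le_exp]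
    have h : 0 ≤ (t - Real.pi * ‖ξ‖) ^ 2 / (2 * t) := by positivity
    have h' : (t - Real.pi * ‖ξ‖) ^ 2 / (2 * t) =
        t / 2 - Real.pi * ‖ξ‖ + Real.pi ^ 2 * ‖ξ‖ ^ 2 / 2 / t := by
      field_simp
      ring
    have h'' : Real.pi ^ 2 * ‖ξ‖ ^ 2 / t = 2 * (Real.pi ^ 2 * ‖ξ‖ ^ 2 / 2 / t) := by ring
    linarith only [h, h', h'']
  have h4 : 0 ≤ Real.pi ^ (3 / 2 : ℝ) * t ^ (-(7 / 2) : ℝ) / 4 := by positivity
  calc subPhi n ξ t = t ^ n / n.factorial * (Real.exp (-t) *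
        Real.exp (-(Real.pi ^ 2 * ‖ξ‖ ^ 2 / t)) * ((Real.pi / t) ^ (3 / 2 : ℝ) / t ^ 2 / 4)) := by
        unfold subPhi gauss
        ring
    _ ≤ 2 ^ n * Real.exp (t / 2) * (Real.exp (-t) *
        Real.exp (-(Real.pi ^ 2 * ‖ξ‖ ^ 2 / t)) * ((Real.pi / t) ^ (3 / 2 : ℝ) / t ^ 2 / 4)) := by
        gcongr
    _ = 2 ^ n * (Real.pi ^ (3 / 2 : ℝ) * t ^ (-(7 / 2) : ℝ) / 4) * (Real.exp (t / 2) *
        Real.exp (-t) * Real.exp (-(Real.pi ^ 2 * ‖ξ‖ ^ 2 / t))) := by
        rw [h2]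
        ring
    _ ≤ 2 ^ n * (Real.pi ^ (3 / 2 : ℝ) * t ^ (-(7 / 2) : ℝ) / 4) *
        (Real.exp (-(Real.pi * ‖ξ‖)) * Real.exp (-(Real.pi ^ 2 * ‖ξ‖ ^ 2 / 2 / t))) := by
        gcongr
    _ = _ := by
        unfold subG
        ring

theorem sub_b_pos {ξ : R3} (hξ : ξ ≠ 0) : 0 < Real.pi ^ 2 * ‖ξ‖ ^ 2 / 2 := by
  have := Real.pi_pos
  have := norm_pos_iff.2 hξ
  positivity

theorem sub_phi_aesm (n : ℕ) (ξ : R3) (μ : Measure ℝ) : AEStronglyMeasurable (subPhi n ξ) μ :=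
  ((sub_phi_meas n).comp measurable_prodMk_left).aestronglyMeasurable

theorem sub_phi_integrable (n : ℕ) {ξ : R3} (hξ : ξ ≠ 0) : IntegrableOn (subPhi n ξ) (Ioi 0) := by
  refine Integrable.mono' ((sub_G_integrable (sub_b_pos hξ)).const_mul
    (2 ^ n * Real.pi ^ (3 / 2 : ℝ) / 4 * Real.exp (-(Real.pi * ‖ξ‖)))) (sub_phi_aesm n ξ _) ?_
  filter_upwards [ae_restrict_mem measurableSet_Ioi] with t ht
  rw [Real.norm_of_nonneg (sub_phi_nonneg n ξ ht)]
  exact sub_phi_le n ξ ht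

theorem sub_H_nonneg (n : ℕ) (ξ : R3) : 0 ≤ subH n ξ :=
  setIntegral_nonneg measurableSet_Ioi fun _ ht => sub_phi_nonneg n ξ ht

theorem sub_H_le (n : ℕ) : ∃ C : ℝ, 0 ≤ C ∧ ∀ ξ : R3, ‖ξ‖ ^ 3 * subH n ξ ≤ C * w2 Real.pi ξ := by
  have hpi := Real.pi_pos
  have hG := Real.Gamma_pos_of_pos (show (0 : ℝ) < 5 / 2 by norm_num)
  refine ⟨2 ^ n * Real.pi ^ (3 / 2 : ℝ) / 4 * ((2 / Real.pi ^ 2) ^ (5 / 2 : ℝ) *
    Real.Gamma (5 / 2)), by positivity, fun ξ => ?_⟩
  by_cases hξ : ξ = 0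
  · simp [hξ, w2]
  have hr := norm_pos_iff.2 hξ
  have h1 : subH n ξ ≤ 2 ^ n * Real.pi ^ (3 / 2 : ℝ) / 4 * Real.exp (-(Real.pi * ‖ξ‖)) *
      ((1 / (Real.pi ^ 2 * ‖ξ‖ ^ 2 / 2)) ^ (5 / 2 : ℝ) * Real.Gamma (5 / 2)) := by
    rw [← sub_G_int (sub_b_pos hξ), ← integral_const_mul]
    exact setIntegral_mono_on (sub_phi_integrable n hξ)
      ((sub_G_integrable (sub_b_pos hξ)).const_mul _) measurableSet_Ioi
      fun t ht => sub_phi_le n ξ ht
  have h2 : (1 / (Real.pi ^ 2 * ‖ξ‖ ^ 2 / 2)) ^ (5 / 2 : ℝ) =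
      (2 / Real.pi ^ 2) ^ (5 / 2 : ℝ) * ‖ξ‖⁻¹ ^ 5 := by
    have h : 1 / (Real.pi ^ 2 * ‖ξ‖ ^ 2 / 2) = 2 / Real.pi ^ 2 * ‖ξ‖⁻¹ ^ 2 := by field_simp
    rw [h, Real.mul_rpow (by positivity) (by positivity), ← Real.rpow_natCast ‖ξ‖⁻¹ 2,
      ← Real.rpow_mul (by positivity), ← Real.rpow_natCast ‖ξ‖⁻¹ 5]
    norm_num
  rw [h2] at h1
  refine (mul_le_mul_of_nonneg_left h1 (by positivity)).trans_eq ?_
  unfold w2
  field_simp

theorem sub_phi_anti (n : ℕ) {ξ η : R3} (h : ‖η‖ ≤ ‖ξ‖) {t : ℝ} (ht : 0 < t) :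
    subPhi n ξ t ≤ subPhi n η t := by
  have hpi := Real.pi_pos
  unfold subPhi gauss
  gcongr

theorem sub_H_cont (n : ℕ) : ContinuousOn (subH n) {0}ᶜ := by
  intro ξ hξ
  have hξ' : ξ ≠ 0 := hξ
  have hr := norm_pos_iff.2 hξ'
  have h2 : (1 / 2 : ℝ) • ξ ≠ 0 := smul_ne_zero (by norm_num) hξ'
  refine ContinuousAt.continuousWithinAt ?_
  refine continuousAt_of_dominated (bound := subPhi n ((1 / 2 : ℝ) • ξ))
    (Eventually.of_forall fun η => sub_phi_aesm n η _) ?_ (sub_phi_integrable n h2) ?_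
  · have h3 : ∀ᶠ η in 𝓝 ξ, ‖ξ‖ / 2 < ‖η‖ :=
      continuous_norm.continuousAt.eventually (lt_mem_nhds (by linarith only [hr]))
    filter_upwards [h3] with η hη
    filter_upwards [ae_restrict_mem measurableSet_Ioi] with t ht
    rw [Real.norm_of_nonneg (sub_phi_nonneg n η ht)]
    refine sub_phi_anti n ?_ ht
    rw [norm_smul, Real.norm_of_nonneg (by norm_num)]
    linarith only [hη]
  · refine Eventually.of_forall fun t => Continuous.continuousAt ?_
    unfold subPhi gauss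
    fun_prop

theorem sub_H_neg (n : ℕ) (ξ : R3) : subH n (-ξ) = subH n ξ := by
  unfold subH subPhi gauss
  rw [norm_neg]

variable {A : Matrix (Fin 3) (Fin 3) ℝ}

theorem sub_cub_cont (i : Fin 3) : Continuous fun ξ => cub A ξ i := by
  unfold cub qf
  fun_prop

theorem sub_cub_neg (ξ : R3) (i : Fin 3) : cub A (-ξ) i = -cub A ξ i := by
  simp only [cub, qf, norm_neg, PiLp.neg_apply, mul_neg, neg_mul, neg_neg, Finset.sum_neg_distrib]
  ring

theorem sub_cub_div (ξ : R3) : ∑ j, ξ j * cub A ξ j = 0 := by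
  simp only [cub, qf, EuclideanSpace.real_norm_sq_eq, Fin.sum_univ_three]
  ring

theorem sub_cub_le (A : Matrix (Fin 3) (Fin 3) ℝ) :
    ∃ S : ℝ, 0 ≤ S ∧ ∀ ξ i, |cub A ξ i| ≤ S * ‖ξ‖ ^ 3 := by
  refine ⟨2 * ∑ i, ∑ j, |A i j|, by positivity, fun ξ i => ?_⟩
  have h0 : ∀ j, |ξ j| ≤ ‖ξ‖ := fun j => PiLp.norm_apply_le ξ j
  have h1 : |∑ j, A i j * ξ j| ≤ (∑ i, ∑ j, |A i j|) * ‖ξ‖ := by
    calc |∑ j, A i j * ξ j| ≤ ∑ j, |A i j * ξ j| := Finset.abs_sum_le_sum_abs _ _
      _ ≤ ∑ j, |A i j| * ‖ξ‖ := Finset.sum_le_sum fun j _ => by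
          rw [abs_mul]
          exact mul_le_mul_of_nonneg_left (h0 j) (abs_nonneg _)
      _ = (∑ j, |A i j|) * ‖ξ‖ := (Finset.sum_mul _ _ _).symm
      _ ≤ _ := mul_le_mul_of_nonneg_right (Finset.single_le_sum (f := fun i => ∑ j, |A i j|)
          (fun _ _ => by positivity) (Finset.mem_univ i)) (norm_nonneg _)
  have h2 : |qf A ξ| ≤ (∑ i, ∑ j, |A i j|) * ‖ξ‖ ^ 2 := by
    rw [qf, Finset.sum_mul]
    refine (Finset.abs_sum_le_sum_abs _ _).trans (Finset.sum_le_sum fun i _ => ?_)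
    rw [Finset.sum_mul]
    refine (Finset.abs_sum_le_sum_abs _ _).trans (Finset.sum_le_sum fun j _ => ?_)
    rw [abs_mul, abs_mul, mul_assoc, sq]
    exact mul_le_mul_of_nonneg_left (mul_le_mul (h0 i) (h0 j) (abs_nonneg _) (norm_nonneg _))
      (abs_nonneg _)
  calc |cub A ξ i| ≤ |‖ξ‖ ^ 2 * ∑ j, A i j * ξ j| + |qf A ξ * ξ i| := abs_sub _ _
    _ = ‖ξ‖ ^ 2 * |∑ j, A i j * ξ j| + |qf A ξ| * |ξ i| := by
        rw [abs_mul, abs_mul, abs_of_nonneg (sq_nonneg _)]
    _ ≤ ‖ξ‖ ^ 2 * ((∑ i, ∑ j, |A i j|) * ‖ξ‖) + (∑ i, ∑ j, |A i j|) * ‖ξ‖ ^ 2 * ‖ξ‖ := by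
        gcongr
        exact h0 i
    _ = _ := by ring

theorem sub_cubH_le (A : Matrix (Fin 3) (Fin 3) ℝ) (n : ℕ) :
    ∃ C : ℝ, 0 ≤ C ∧ ∀ ξ i, |cub A ξ i| * subH n ξ ≤ C * w2 Real.pi ξ := by
  obtain ⟨S, hS, h1⟩ := sub_cub_le A
  obtain ⟨C, hC, h2⟩ := sub_H_le n
  refine ⟨S * C, mul_nonneg hS hC, fun ξ i => ?_⟩
  calc |cub A ξ i| * subH n ξ ≤ S * ‖ξ‖ ^ 3 * subH n ξ :=
        mul_le_mul_of_nonneg_right (h1 ξ i) (sub_H_nonneg n ξ)
    _ = S * (‖ξ‖ ^ 3 * subH n ξ) := mul_assoc _ _ _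
    _ ≤ S * (C * w2 Real.pi ξ) := mul_le_mul_of_nonneg_left (h2 ξ) hS
    _ = _ := (mul_assoc _ _ _).symm

theorem sub_ae_ne : ∀ᵐ ξ : R3, ξ ≠ 0 := by
  rw [ae_iff]
  simp

theorem sub_integrable_of_le {E : Type} [NormedAddCommGroup E] {f : R3 → E}
    (hm : AEStronglyMeasurable f volume) {C : ℝ} (h : ∀ ξ, ‖f ξ‖ ≤ C * w2 Real.pi ξ) :
    Integrable f := by
  obtain ⟨K, -, hK⟩ := w2_le_wt Real.pi_pos
  refine Integrable.mono' ((integrable_wt (half_pos Real.pi_pos)).const_mul (|C| * K)) hm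
    (Eventually.of_forall fun ξ => (h ξ).trans ?_)
  rw [mul_assoc]
  exact (mul_le_mul_of_nonneg_right (le_abs_self C) (w2_nonneg _ _)).trans
    (mul_le_mul_of_nonneg_left (hK ξ) (abs_nonneg C))

theorem sub_aesm {E : Type} [NormedAddCommGroup E] {f : R3 → E} (hc : ContinuousOn f {0}ᶜ) :
    AEStronglyMeasurable f volume := by
  have h := hc.aestronglyMeasurable (μ := volume) (measurableSet_singleton (0 : R3)).compl
  rwa [Measure.restrict_eq_self_of_ae_mem (s := {0}ᶜ) sub_ae_ne] at h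

theorem sub_prod_integrable (A : Matrix (Fin 3) (Fin 3) ℝ) (n : ℕ) (i : Fin 3) :
    Integrable (fun z : R3 × ℝ => cub A z.1 i * subPhi n z.1 z.2)
      (volume.prod (volume.restrict (Ioi 0))) := by
  have hm : AEStronglyMeasurable (fun z : R3 × ℝ => cub A z.1 i * subPhi n z.1 z.2)
      (volume.prod (volume.restrict (Ioi 0))) :=
    (((sub_cub_cont i).measurable.comp measurable_fst).mul (sub_phi_meas n)).aestronglyMeasurable
  obtain ⟨C, -, hC⟩ := sub_cubH_le A n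
  refine (integrable_prod_iff hm).2 ⟨?_, sub_integrable_of_le hm.norm.integral_prod_right'
    (C := C) fun ξ => ?_⟩
  · filter_upwards [sub_ae_ne] with ξ hξ
    exact (sub_phi_integrable n hξ).const_mul _
  · rw [Real.norm_of_nonneg (integral_nonneg fun _ => norm_nonneg _)]
    refine le_of_eq_of_le ?_ (hC ξ i)
    rw [subH, ← integral_const_mul]
    refine setIntegral_congr_fun measurableSet_Ioi fun t ht => ?_
    simp only [norm_mul, Real.norm_eq_abs]
    rw [abs_of_nonneg (sub_phi_nonneg n ξ ht)]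

theorem sub_t_int (n : ℕ) (a b : ℝ) {z : ℝ} (hz : 0 ≤ z) :
    ∫ t in Ioi (0 : ℝ), t ^ n * Real.exp (-t) / n.factorial *
      (((3 - 2 * t * z) * a + 2 * t * b) * Real.exp (-(t * z))) =
      3 * a * (1 + z)⁻¹ ^ (n + 1) + (2 * b - 2 * z * a) * (n + 1) * (1 + z)⁻¹ ^ (n + 2) := by
  have hr : 0 < 1 + z := by linarith only [hz]
  have hf : (n.factorial : ℝ) ≠ 0 := by positivity
  have h1 : ∀ t : ℝ, t ^ n * Real.exp (-t) / n.factorial *
      (((3 - 2 * t * z) * a + 2 * t * b) * Real.exp (-(t * z))) =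
      3 * a / n.factorial * (t ^ n * Real.exp (-((1 + z) * t))) +
        (2 * b - 2 * z * a) / n.factorial * (t ^ (n + 1) * Real.exp (-((1 + z) * t))) := by
    intro t
    rw [show -((1 + z) * t) = -t + -(t * z) by ring, Real.exp_add]
    ring
  simp only [h1]
  rw [integral_add ((sub_pow_integrable n hr).const_mul _)
    ((sub_pow_integrable (n + 1) hr).const_mul _), integral_const_mul, integral_const_mul,
    sub_pow_int n hr, sub_pow_int (n + 1) hr, Nat.factorial_succ]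
  push_cast
  field_simp

theorem sub_SA_pow (A : Matrix (Fin 3) (Fin 3) ℝ) (n : ℕ) (y : R3) (i : Fin 3) :
    SA A (X ^ (n + 1)) y i = 3 * (∑ j, A i j * y j) * (1 + ‖y‖ ^ 2)⁻¹ ^ (n + 1) +
      (2 * (qf A y * y i) - 2 * ‖y‖ ^ 2 * ∑ j, A i j * y j) * (n + 1) *
        (1 + ‖y‖ ^ 2)⁻¹ ^ (n + 2) := by
  have hr : (1 + ‖y‖ ^ 2) ≠ 0 := by positivity
  have hx : 1 - (1 + ‖y‖ ^ 2)⁻¹ = ‖y‖ ^ 2 * (1 + ‖y‖ ^ 2)⁻¹ := by
    field_simp
    ring
  simp only [SA, FA, rad, al, be, th, dz, derivative_X_pow, eval_add, eval_mul, eval_neg, eval_pow,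
    eval_X, eval_C, eval_sub, eval_one, eval_ofNat, Nat.add_sub_cancel, hx]
  push_cast
  ring

theorem sub_ev_pow (hs : ∀ i j, A i j = A j i) (h0 : ∑ i, A i i = 0) (n : ℕ) (y : R3) (i : Fin 3) :
    ev (fun ξ => (2 * Real.pi * Complex.I) ^ 3 * ((cub A ξ i * subH n ξ : ℝ) : ℂ)) y =
      (SA A (X ^ (n + 1)) y i : ℝ) := by
  obtain ⟨e, he⟩ : ∃ e : R3 → ℂ, e = fun ξ =>
      Complex.exp (2 * Real.pi * Complex.I * ((∑ j, ξ j * y j : ℝ) : ℂ)) := ⟨_, rfl⟩
  have hev : ∀ f, ev f y = ∫ ξ, e ξ * f ξ := fun f => by rw [ev_eq, he]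
  have hec : Continuous e := by
    rw [he]
    fun_prop
  have hen : ∀ ξ, ‖e ξ‖ ≤ 1 := fun ξ => by
    have h : 2 * Real.pi * Complex.I * ((∑ j, ξ j * y j : ℝ) : ℂ) =
        ((2 * Real.pi * ∑ j, ξ j * y j : ℝ) : ℂ) * Complex.I := by
      rw [Complex.ofReal_mul, Complex.ofReal_mul, Complex.ofReal_ofNat]
      ring
    rw [he]
    simp only [h, Complex.norm_exp_ofReal_mul_I, le_refl]
  have hi : Integrable (Function.uncurry fun (ξ : R3) (t : ℝ) => e ξ *
      ((2 * Real.pi * Complex.I) ^ 3 * ((cub A ξ i * subPhi n ξ t : ℝ) : ℂ)))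
      (volume.prod (volume.restrict (Ioi 0))) :=
    Integrable.bdd_mul ((sub_prod_integrable A n i).ofReal.const_mul _)
      (hec.comp continuous_fst).aestronglyMeasurable (Eventually.of_forall fun z => hen z.1)
  have h1 : ∀ ξ, e ξ * ((2 * Real.pi * Complex.I) ^ 3 * ((cub A ξ i * subH n ξ : ℝ) : ℂ)) =
      ∫ t in Ioi (0 : ℝ), e ξ *
        ((2 * Real.pi * Complex.I) ^ 3 * ((cub A ξ i * subPhi n ξ t : ℝ) : ℂ)) := fun ξ => by
    rw [integral_const_mul, integral_const_mul, integral_complex_ofReal, integral_const_mul, subH]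
  rw [hev]
  simp only [h1]
  rw [integral_integral_swap hi, sub_SA_pow, ← sub_t_int n _ _ (sq_nonneg _),
    ← integral_complex_ofReal]
  refine setIntegral_congr_fun measurableSet_Ioi fun t ht => ?_
  have h2 := ev_cub hs h0 ht i y
  rw [hev] at h2
  simp only
  rw [Complex.ofReal_mul (t ^ n * Real.exp (-t) / n.factorial), ← mul_assoc (2 * t) (qf A y), ← h2,
    ← integral_const_mul]
  refine integral_congr_ae (Eventually.of_forall fun ξ => ?_)
  simp only [subPhi]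
  push_cast
  ring

/-- The conclusion for the potential `g`. -/
def SubP (A : Matrix (Fin 3) (Fin 3) ℝ) (g : ℝ[X]) : Prop :=
  ∃ f : R3 → Fin 3 → ℂ, ContinuousOn f {0}ᶜ ∧
    (∃ C : ℝ, ∀ ξ, ‖f ξ‖ ≤ C * w2 Real.pi ξ) ∧ (∀ ξ : R3, ∑ j, (ξ j : ℂ) * f ξ j = 0) ∧
    (∀ ξ, f (-ξ) = star (f ξ)) ∧ ∀ y i, ev (fun ξ => f ξ i) y = (SA A g y i : ℝ)

theorem sub_P_pow (hs : ∀ i j, A i j = A j i) (h0 : ∑ i, A i i = 0) (n : ℕ) :
    SubP A (X ^ (n + 1)) := by
  obtain ⟨C, hC, h⟩ := sub_cubH_le A n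
  refine ⟨fun ξ i => (2 * Real.pi * Complex.I) ^ 3 * ((cub A ξ i * subH n ξ : ℝ) : ℂ), ?_,
    ⟨‖(2 * Real.pi * Complex.I) ^ 3‖ * C, fun ξ => ?_⟩, fun ξ => ?_, fun ξ => ?_,
    fun y i => sub_ev_pow hs h0 n y i⟩
  · exact continuousOn_pi.2 fun i => continuousOn_const.mul
      (Complex.continuous_ofReal.comp_continuousOn
        ((sub_cub_cont i).continuousOn.mul (sub_H_cont n)))
  · have hw := w2_nonneg Real.pi ξ
    refine (pi_norm_le_iff_of_nonneg (by positivity)).2 fun i => ?_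
    rw [norm_mul, Complex.norm_real, mul_assoc _ C, norm_mul, Real.norm_eq_abs,
      Real.norm_of_nonneg (sub_H_nonneg n ξ)]
    exact mul_le_mul_of_nonneg_left (h ξ i) (norm_nonneg _)
  · have h1 : ((∑ j, ξ j * cub A ξ j : ℝ) : ℂ) = 0 := by rw [sub_cub_div, Complex.ofReal_zero]
    simp only [Fin.sum_univ_three] at h1 ⊢
    push_cast at h1 ⊢
    linear_combination (2 * Real.pi * Complex.I) ^ 3 * (subH n ξ : ℂ) * h1
  · funext i
    simp only [Pi.star_apply, sub_cub_neg, sub_H_neg, Complex.star_def, map_mul, map_pow,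
      Complex.conj_ofReal, Complex.conj_I, map_ofNat]
    push_cast
    ring

theorem sub_SA_add (g h : ℝ[X]) (y : R3) (i : Fin 3) :
    SA A (g + h) y i = SA A g y i + SA A h y i := by
  simp only [SA, FA, rad, al, be, th, dz, derivative_add, eval_add, eval_mul, eval_neg]
  ring

theorem sub_SA_C (c : ℝ) (g : ℝ[X]) (y : R3) (i : Fin 3) :
    SA A (C c * g) y i = c * SA A g y i := by
  simp only [SA, FA, rad, al, be, th, dz, derivative_C_mul, eval_add, eval_mul, eval_neg, eval_C]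
  ring

theorem sub_P_C (c : ℝ) {g : ℝ[X]} (h : SubP A g) : SubP A (C c * g) := by
  obtain ⟨f, h1, ⟨K, h2⟩, h3, h4, h5⟩ := h
  refine ⟨fun ξ => (c : ℂ) • f ξ, h1.const_smul (c : ℂ), ⟨‖(c : ℂ)‖ * K, fun ξ => ?_⟩, fun ξ => ?_,
    fun ξ => ?_, fun y i => ?_⟩
  · rw [norm_smul, mul_assoc]
    exact mul_le_mul_of_nonneg_left (h2 ξ) (norm_nonneg _)
  · have := h3 ξ
    simp only [Fin.sum_univ_three, Pi.smul_apply, smul_eq_mul] at this ⊢
    linear_combination (c : ℂ) * this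
  · simp only [h4, star_smul, Complex.star_def, Complex.conj_ofReal]
  · simp only [Pi.smul_apply, smul_eq_mul]
    rw [ev_const_mul, h5, sub_SA_C, Complex.ofReal_mul]

theorem sub_P_add {g h : ℝ[X]} (hg : SubP A g) (hh : SubP A h) : SubP A (g + h) := by
  obtain ⟨f, h1, ⟨K, h2⟩, h3, h4, h5⟩ := hg
  obtain ⟨f', k1, ⟨K', k2⟩, k3, k4, k5⟩ := hh
  refine ⟨fun ξ => f ξ + f' ξ, h1.add k1, ⟨K + K', fun ξ => ?_⟩, fun ξ => ?_,
    fun ξ => ?_, fun y i => ?_⟩
  · rw [add_mul]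
    exact (norm_add_le _ _).trans (add_le_add (h2 ξ) (k2 ξ))
  · simp only [Pi.add_apply, mul_add, Finset.sum_add_distrib, h3, k3, add_zero]
  · simp only [h4, k4, star_add]
  · simp only [Pi.add_apply]
    rw [ev_add (sub_integrable_of_le (sub_aesm (continuousOn_pi.1 h1 i))
        fun ξ => (norm_le_pi_norm _ i).trans (h2 ξ))
      (sub_integrable_of_le (sub_aesm (continuousOn_pi.1 k1 i))
        fun ξ => (norm_le_pi_norm _ i).trans (k2 ξ)), h5, k5, sub_SA_add, Complex.ofReal_add]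

theorem sub_P_X_mul (hs : ∀ i j, A i j = A j i) (h0 : ∑ i, A i i = 0) (q : ℝ[X]) :
    SubP A (X * q) := by
  induction q using Polynomial.induction_on' with
  | add p q hp hq =>
    rw [mul_add]
    exact sub_P_add hp hq
  | monomial n c =>
    have h : (X * monomial n c : ℝ[X]) = C c * X ^ (n + 1) := by
      rw [← C_mul_X_pow_eq_monomial]
      ring
    rw [h]
    exact sub_P_C c (sub_P_pow hs h0 n)

theorem exists_hat {A : Matrix (Fin 3) (Fin 3) ℝ} (hs : ∀ i j, A i j = A j i) (h0 : ∑ i, A i i = 0)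
    {g : ℝ[X]} (hg : g.coeff 0 = 0) : ∃ f : R3 → Fin 3 → ℂ, ContinuousOn f {0}ᶜ ∧
      (∃ C : ℝ, ∀ ξ, ‖f ξ‖ ≤ C * w2 Real.pi ξ) ∧ (∀ ξ : R3, ∑ j, (ξ j : ℂ) * f ξ j = 0) ∧
      (∀ ξ, f (-ξ) = star (f ξ)) ∧ ∀ y i, ev (fun ξ => f ξ i) y = (SA A g y i : ℝ) := by
  obtain ⟨q, rfl⟩ := X_dvd_iff.2 hg
  exact sub_P_X_mul hs h0 q

end

end Pool.Agent.Work.MP_6bf1e5_an.Ens
end
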