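import Pool.Agent.Work.MP_6bf1e5_an.Mat.Defs
import Pool.Agent.Work.MP_6bf1e5_an.Ens.Main
import Pool.Agent.Work.MP_6bf1e5_an.Mat.PhysJ
import Pool.Agent.Work.MP_6bf1e5_an.Ens.Basic

-- merged part: Pool.Agent.Work.MP_6bf1e5_an.Mat.MainS
section
/-!
The theorem with a symmetry of the index set. Follow the proof of `Profile.cblowup` in Ens/Main.lean, but replace the solution `f`
of `exists_fsol` by its average `f' t ξ a = (f t ξ a + f t ξ (τ a)) / 2`. It is again an `FSol` because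
`NL c f' f' = NL c f f` and `NL c f f ξ (τ a) = NL c f f ξ a` (reindex the sums by the involution `τ`; bilinearity of `cv` with
`VB.nl_int`), and `‖f' - Uh W‖ ≤ ‖f - Uh W‖`. Average the pressures in the same way.
-/

open scoped ContDiff ENNReal FourierTransform Topology ComplexConjugate Matrix
open Set MeasureTheory Filter Metric Pool.Agent.Work.MP_6bf1e5_an.Ens

namespace Pool.Agent.Work.MP_6bf1e5_an.Mat

noncomputable section

section aux

variable {ι : Type} [Fintype ι] {ν : ℝ} {c : ι → ι → ι → ℝ} {τ : ι → ι}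

/-- Permute the species. -/
def mainsR (τ : ι → ι) : V ι →L[ℝ] V ι :=
  ContinuousLinearMap.pi fun a => ContinuousLinearMap.proj (τ a)

/-- Average over the symmetry. -/
def mainsA (τ : ι → ι) : V ι →L[ℝ] V ι := (1 / 2 : ℝ) • (ContinuousLinearMap.id ℝ _ + mainsR τ)

omit [Fintype ι] in
theorem mains_A (v : V ι) : mainsA τ v = (1 / 2 : ℝ) • (v + mainsR τ v) := rfl

theorem mains_normR (v : V ι) : ‖mainsR τ v‖ ≤ ‖v‖ :=
  (pi_norm_le_iff_of_nonneg (norm_nonneg v)).2 fun a => norm_le_pi_norm v (τ a)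

theorem mains_normA (v : V ι) : ‖mainsA τ v‖ ≤ ‖v‖ := by
  rw [mains_A, norm_smul, Real.norm_of_nonneg (by norm_num)]
  linarith [norm_add_le v (mainsR τ v), mains_normR (τ := τ) v]

omit [Fintype ι] in
theorem mains_fix {v : V ι} (h : ∀ a, v (τ a) = v a) : mainsA τ v = v := by
  have e : mainsR τ v = v := funext h
  rw [mains_A, e, ← two_smul ℝ v, smul_smul]
  norm_num

omit [Fintype ι] in
theorem mains_inv (hτ : ∀ a, τ (τ a) = a) (v : V ι) (a : ι) : mainsA τ v (τ a) = mainsA τ v a := by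
  change (1 / 2 : ℝ) • (v (τ a) + v (τ (τ a))) = (1 / 2 : ℝ) • (v a + v (τ a))
  rw [hτ, add_comm]

omit [Fintype ι] in
theorem mains_phys {g : R3 → V ι} (h : ∀ ξ a, g ξ (τ a) = g ξ a) (a : ι) (x : R3) :
    phys g (τ a) x = phys g a x := by
  simp only [phys, h]

theorem mains_vb {κ C : ℝ} {f : R3 → V ι} (h : VB κ C f) : VB κ C fun ξ => mainsR τ (f ξ) :=
  ⟨(mainsR τ).continuous.comp_continuousOn h.cont, fun ξ => (mains_normR _).trans (h.bound ξ)⟩

theorem mains_left (hτ : ∀ a, τ (τ a) = a) (h2 : ∀ a b d, c a (τ b) d = c a b d) (f g : R3 → V ι)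
    (ξ : R3) : NL c (fun η => mainsR τ (f η)) g ξ = NL c f g ξ := by
  funext a i
  unfold NL
  congr 1
  refine Fintype.sum_bijective τ (Function.Involutive.bijective hτ) _ _ fun b => ?_
  simp only [h2]
  rfl

theorem mains_right (hτ : ∀ a, τ (τ a) = a) (h3 : ∀ a b d, c a b (τ d) = c a b d) (f g : R3 → V ι)
    (ξ : R3) : NL c f (fun η => mainsR τ (g η)) ξ = NL c f g ξ := by
  funext a i
  unfold NL
  congr 1
  refine Finset.sum_congr rfl fun b _ =>
    Fintype.sum_bijective τ (Function.Involutive.bijective hτ) _ _ fun d => ?_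
  simp only [h3]
  rfl

theorem mains_NL (hτ : ∀ a, τ (τ a) = a) (h2 : ∀ a b d, c a (τ b) d = c a b d)
    (h3 : ∀ a b d, c a b (τ d) = c a b d) {κ C : ℝ} (hκ : 0 ≤ κ) {f : R3 → V ι} (h : VB κ C f)
    (ξ : R3) : NL c (fun η => mainsA τ (f η)) (fun η => mainsA τ (f η)) ξ = NL c f f ξ := by
  have hA : VB κ C fun η => mainsA τ (f η) :=
    ⟨(mainsA τ).continuous.comp_continuousOn h.cont, fun ξ => (mains_normA _).trans (h.bound ξ)⟩
  have e1 := NL_rsmul c (1 / 2) 1 (fun η => f η + mainsR τ (f η)) (fun η => mainsA τ (f η)) ξ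
  have e2 := NL_rsmul c 1 (1 / 2) f (fun η => f η + mainsR τ (f η)) ξ
  rw [NL_add_left c hκ h (mains_vb h) hA, mains_left hτ h2] at e1
  rw [NL_add_right c hκ h h (mains_vb h), mains_right hτ h3] at e2
  simp only [one_smul, ← mains_A] at e1 e2
  rw [e1, e2]
  module

theorem mains_ssol (hτ : ∀ a, τ (τ a) = a) (h1 : ∀ a b d, c (τ a) b d = c a b d)
    (h2 : ∀ a b d, c a (τ b) d = c a b d) (h3 : ∀ a b d, c a b (τ d) = c a b d) {T : ℝ}
    {f : ℝ → R3 → V ι} (h : SSol ν c 0 T f) : SSol ν c 0 T fun t ξ => mainsA τ (f t ξ) := by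
  obtain ⟨C, κ, -, hκ, hb⟩ := bounds_vb h
  refine ⟨(mainsA τ).continuous.comp_continuousOn h.cont,
    ⟨C, κ, hκ, fun t ht ξ => (mains_normA _).trans ((hb t ht).bound ξ)⟩, fun t ht ξ a => ?_,
    fun t ht ξ => ?_, fun ξ hξ t ht => ?_⟩
  · have e : ∀ j, (ξ j : ℂ) * mainsA τ (f t ξ) a j =
        1 / 2 * ((ξ j : ℂ) * f t ξ a j + (ξ j : ℂ) * f t ξ (τ a) j) := fun j => by
      change (ξ j : ℂ) * ((1 / 2 : ℝ) • (f t ξ a j + f t ξ (τ a) j)) = _
      rw [Complex.real_smul]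
      push_cast
      ring
    simp only [e]
    rw [← Finset.mul_sum, Finset.sum_add_distrib, h.div t ht ξ a, h.div t ht ξ (τ a), add_zero,
      mul_zero]
  · rw [h.sym t ht ξ, mains_A, mains_A, star_smul, star_add, star_trivial (1 / 2 : ℝ)]
    rfl
  · have e := (mainsA τ).hasFDerivAt.comp_hasDerivWithinAt t (h.ode ξ hξ t ht)
    rw [map_sub, map_neg, map_smul, mains_fix (v := NL c (f t) (f t) ξ)
      (fun a => by funext i; simp only [NL, h1])] at e
    rw [mains_NL hτ h2 h3 hκ.le (hb t ht)]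
    exact e

theorem mains_press (hτ : ∀ a, τ (τ a) = a) (h1 : ∀ a b d, c (τ a) b d = c a b d)
    {u0 : ι → R3 → R3} {I : Set ℝ} {u : ι → R3 → ℝ → R3} {p : ι → R3 → ℝ → ℝ}
    (h : CSol ν c u0 I u p) (hu : ∀ a, u (τ a) = u a) :
    ∃ q, CSol ν c u0 I u q ∧ ∀ a, q (τ a) = q a := by
  let e := Fintype.equivFin ι
  refine ⟨fun a => p (if e a ≤ e (τ a) then a else τ a),
    ⟨h.smooth_u, fun a => h.smooth_p _, fun a x t ht i => ?_, h.divFree, h.initial⟩, fun a => ?_⟩
  · split_ifs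
    · exact h.momentum a x t ht i
    · have k := h.momentum (τ a) x t ht i
      simp only [hu, h1] at k
      exact k
  · simp only [hτ]
    split_ifs with k1 k2 k2
    · rw [← e.injective (le_antisymm k2 k1)]
    · rfl
    · rfl
    · exact (k1 (le_of_not_ge k2)).elim

theorem mains_exists {W : R3 → V ι} (hν : 0 < ν) (h : Profile ν c W) (hτ : ∀ a, τ (τ a) = a)
    (h1 : ∀ a b d, c (τ a) b d = c a b d) (h2 : ∀ a b d, c a (τ b) d = c a b d)
    (h3 : ∀ a b d, c a b (τ d) = c a b d) (hW : ∀ ξ a, W ξ (τ a) = W ξ a) :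
    ∃ f : ℝ → R3 → V ι, (∀ t ξ a, f t ξ (τ a) = f t ξ a) ∧ FSol ν c f ∧ ContDiff ℝ ∞ (f 0) ∧
      HasCompactSupport (f 0) ∧ ∀ ε > 0, ∃ t0, 0 ≤ t0 ∧ t0 < 1 ∧ ∀ t ∈ Ico t0 1,
        √(1 - t) * ∫ ξ, ‖f t ξ - Uh W t ξ‖ ≤ ε := by
  obtain ⟨f, hf, hs, hk, hconv⟩ := h.exists_fsol hν
  refine ⟨fun t ξ => mainsA τ (f t ξ), fun t ξ => mains_inv hτ _,
    fun T k1 k2 => mains_ssol hτ h1 h2 h3 (hf T k1 k2), (mainsA τ).contDiff.comp hs,
    hk.comp_left (map_zero (mainsA τ)), fun ε hε => ?_⟩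
  obtain ⟨t0, k1, k2, k3⟩ := hconv ε hε
  refine ⟨t0, k1, k2, fun t ht => le_trans (mul_le_mul_of_nonneg_left ?_ (Real.sqrt_nonneg _))
    (k3 t ht)⟩
  obtain ⟨T, hT, hT1, htT⟩ := main_T ⟨k1.trans ht.1, ht.2⟩
  obtain ⟨C, κ, -, hκ, hb⟩ := bounds_vb (hf T hT hT1)
  obtain ⟨C', κ', -, hκ', hb'⟩ := bounds_vb (h.fsol T hT hT1)
  have hi : Integrable fun ξ => ‖f t ξ - Uh W t ξ‖ :=
    (Integrable.mono' (((integrable_wt hκ).const_mul C).add ((integrable_wt hκ').const_mul C'))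
      (aesm_of_continuousOn ((hb t htT).cont.sub (hb' t htT).cont)) (Eventually.of_forall fun ξ =>
        (norm_sub_le _ _).trans (add_le_add ((hb t htT).bound ξ) ((hb' t htT).bound ξ)))).norm
  refine integral_mono_of_nonneg (Eventually.of_forall fun ξ => norm_nonneg _) hi
    (Eventually.of_forall fun ξ => ?_)
  have e : mainsA τ (Uh W t ξ) = Uh W t ξ := mains_fix fun a => by simp only [Uh, Pi.smul_apply, hW]
  have k := mains_normA (τ := τ) (f t ξ - Uh W t ξ)
  rwa [map_sub, e] at k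

end aux

theorem Profile.cblowupS {ι : Type} [Fintype ι] {ν : ℝ} {c : ι → ι → ι → ℝ} {W : R3 → V ι}
    (hν : 0 < ν) (hc : ∀ a b d, c a b d = c d b a) (h : Profile ν c W) {τ : ι → ι}
    (hτ : ∀ a, τ (τ a) = a) (h1 : ∀ a b d, c (τ a) b d = c a b d)
    (h2 : ∀ a b d, c a (τ b) d = c a b d) (h3 : ∀ a b d, c a b (τ d) = c a b d)
    (hW : ∀ ξ a, W ξ (τ a) = W ξ a) : CBlowupS ν c τ := by
  obtain ⟨f, hfτ, hf, hs, hk, hconv⟩ := mains_exists hν h hτ h1 h2 h3 hW
  obtain ⟨p', hu'⟩ := hf.classical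
  obtain ⟨p, hu, hp⟩ := mains_press hτ h1 hu' fun a => funext₂ fun x t => mains_phys (hfτ t) a x
  obtain ⟨u0, hu0⟩ := exists_schwartz hs hk
  have e0 : (fun a => (u0 a : R3 → R3)) = phys (f 0) := by
    funext a x
    exact hu0 a x
  have h0 : ∃ C : ℝ, ∀ ξ, ‖f 0 ξ‖ ≤ C := hs.continuous.bounded_above_of_compact_support hk
  have z01 : (0 : ℝ) ∈ Ico (0 : ℝ) 1 := ⟨le_rfl, zero_lt_one⟩
  have huT : ∀ T, 0 < T → T < 1 → CSol ν c (phys (f 0)) (Icc 0 T) (fun a x t => phys (f t) a x) p :=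
    fun T k1 k2 => hu.mono (Icc_subset_Ico_right k2) (uniqueDiffOn_Icc k1)
  have hlim : ∀ ε > 0, ∃ t0, 0 ≤ t0 ∧ t0 < 1 ∧ ∀ t ∈ Ico t0 1, ∀ a y,
      ‖√(1 - t) • phys (f t) a (√(1 - t) • y) - phys W a y‖ ≤ ε := by
    intro ε hε
    obtain ⟨t0, k1, k2, k3⟩ := hconv (ε / 3) (by positivity)
    refine ⟨t0, k1, k2, fun t ht a y => ?_⟩
    obtain ⟨T, hT, hT1, htT⟩ := main_T ⟨k1.trans ht.1, ht.2⟩
    obtain ⟨C, κ, -, hκ, hb⟩ := bounds_vb (hf T hT hT1)
    obtain ⟨C', κ', -, hκ', hb'⟩ := bounds_vb (h.fsol T hT hT1)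
    have hr : 0 < √(1 - t) := Real.sqrt_pos.2 (sub_pos.2 ht.2)
    have e : phys W a y = √(1 - t) • phys (Uh W t) a (√(1 - t) • y) := by
      rw [phys_Uh W ht.2, inv_smul_smul₀ hr.ne', smul_inv_smul₀ hr.ne']
    rw [e, ← smul_sub, norm_smul, Real.norm_of_nonneg hr.le]
    have h4 := mul_le_mul_of_nonneg_left
      (norm_phys_sub_le hκ hκ' (hb t htT) (hb' t htT) a (√(1 - t) • y)) hr.le
    linarith [k3 t ht]
  refine ⟨u0, fun a x => ?_, ⟨fun a x t => phys (f t) a x, p, e0 ▸ hu,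
    fun a => funext₂ fun x t => mains_phys (hfτ t) a x, hp, fun t ht => ?_, phys W,
    h.ne, fun a => funext (mains_phys hW a), h.decay, ?_, fun ε hε => ?_⟩, ?_⟩
  · simp only [hu0]
    exact hu.divFree a x 0 z01
  · obtain ⟨T, hT, hT1, htT⟩ := main_T ht
    rw [e0]
    exact (huT T hT hT1).energy_le hν hT hc ((hf T hT hT1).energy_lt hν h0) t htT
  · obtain ⟨q, hq⟩ := h.fsol.classical
    have e : Uh W 0 = W := funext fun ξ => by simp [Uh]
    rw [e] at hq
    exact mains_press hτ h1 (main_congr hq z01 fun t ht a x => (phys_Uh W ht.2 a x).symm)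
      fun a => by simp only [funext (mains_phys hW a)]
  · obtain ⟨t0, -, k1, k2⟩ := hlim ε hε
    exact ⟨t0, k1, k2⟩
  · rintro ⟨v, q, hv, C, hC, hE⟩
    rw [e0] at hv
    have huv : ∀ t ∈ Ico (0 : ℝ) 1, ∀ a x, v a x t = phys (f t) a x := by
      intro t ht
      obtain ⟨T, hT, hT1, htT⟩ := main_T ht
      exact (huT T hT hT1).unique hν hT hc (hv.mono Icc_subset_Ici_self (uniqueDiffOn_Icc hT))
        ((hf T hT hT1).energy_lt hν h0) ⟨C, hC, fun s hs => hE s hs.1⟩ (hf T hT hT1).bounded t htT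
    obtain ⟨a, ha⟩ := Function.ne_iff.1 h.ne
    obtain ⟨y, hy⟩ := Function.ne_iff.1 ha
    have hδ : 0 < ‖phys W a y‖ := norm_pos_iff.2 hy
    obtain ⟨t0, k1, k2, k3⟩ := hlim _ (half_pos hδ)
    have c1 : Continuous fun t : ℝ => √(1 - t) := by fun_prop
    have c2 : ContinuousAt (fun t : ℝ => v a (√(1 - t) • y) t) 1 :=
      ContinuousAt.comp (f := fun t : ℝ => (√(1 - t) • y, t))
        ((hv.smooth_u a).continuousOn.continuousAt
          (prod_mem_nhds univ_mem (Ici_mem_nhds zero_lt_one)))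
        ((c1.smul continuous_const).prodMk continuous_id).continuousAt
    have c3 := (((c1.continuousAt.smul c2).sub (continuousAt_const (y := phys W a y))).norm.tendsto
      ).mono_left (nhdsWithin_le_nhds (s := Iio 1))
    have h4 := le_of_tendsto c3 (by
      filter_upwards [Ico_mem_nhdsLT k2] with t ht
      have h5 := k3 t ht a y
      rw [← huv t ⟨k1.trans ht.1, ht.2⟩] at h5
      exact h5)
    simp only [Pi.sub_apply, Pi.smul_apply', sub_self, Real.sqrt_zero, zero_smul, zero_sub,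
      norm_neg] at h4
    linarith

end

end Pool.Agent.Work.MP_6bf1e5_an.Mat
end

-- merged part: Pool.Agent.Work.MP_6bf1e5_an.Mat.Final
section
-- merged part: Pool.Agent.Work.MP_6bf1e5_an.Mat.ToMat
section
/-!
Translation between families indexed by `Fin n × Fin n` and matrices: `U i x t a b = u (a, b) x t i`. `cJ_contract` turns the
transport terms into each other; the energies agree (`‖v‖ₑ² = ∑ i, ‖v i‖ₑ²`, `lintegral_finsetSum` for continuous functions).
The components of a Schwartz map are Schwartz maps (`SchwartzMap.postcompCLM` with `EuclideanSpace.proj`).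
-/

open scoped ContDiff ENNReal FourierTransform Topology ComplexConjugate Matrix
open Set MeasureTheory Filter Metric Pool.Agent.Work.MP_6bf1e5_an.Ens

namespace Pool.Agent.Work.MP_6bf1e5_an.Mat

noncomputable section


/-- The matrices attached to a family indexed by pairs. -/
def tomatM {n : ℕ} (v : Fin n × Fin n → R3 → R3) (i : Fin 3) (x : R3) : Mn n :=
  Matrix.of fun a b => v (a, b) x i

theorem tomat_transport {n : ℕ} {X Y : Fin 3 → Mn n} (hX : ∀ j, (X j).IsSymm)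
    (hY : ∀ j, (Y j).IsSymm) (a : Fin n × Fin n) :
    ∑ b, ∑ d, cJ n a b d * ∑ j, X j b.1 b.2 * Y j d.1 d.2
      = ((1 / 2 : ℝ) • ∑ j, (X j * Y j + Y j * X j)) a.1 a.2 := by
  have h1 : ∑ b, ∑ d, cJ n a b d * ∑ j, X j b.1 b.2 * Y j d.1 d.2
      = ∑ j, ∑ b, ∑ d, cJ n a b d * (X j b.1 b.2 * Y j d.1 d.2) := by
    simp only [Finset.mul_sum]
    rw [Finset.sum_congr rfl fun b _ => Finset.sum_comm, Finset.sum_comm]
  rw [h1, Matrix.smul_apply, Matrix.sum_apply, smul_eq_mul, Finset.mul_sum]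
  refine Finset.sum_congr rfl fun j _ => ?_
  rw [cJ_contract (hX j) (hY j)]
  ring

theorem tomat_pdM_symm {n : ℕ} {F : R3 → Mn n} (h : ∀ y, (F y).IsSymm) (j : Fin 3) (x : R3) :
    (pdM j F x).IsSymm := by
  refine Matrix.IsSymm.ext fun a b => ?_
  have : (fun y => F y b a) = fun y => F y a b := funext fun y => (h y).apply a b
  simp only [pdM, Matrix.of_apply, this]

theorem tomat_fwd {n : ℕ} {ν : ℝ} {u0 : Fin n × Fin n → R3 → R3} {I : Set ℝ}
    {u : Fin n × Fin n → R3 → ℝ → R3} {p : Fin n × Fin n → R3 → ℝ → ℝ}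
    (h : CSol ν (cJ n) u0 I u p) (hu : ∀ a, u a.swap = u a) (hp : ∀ a, p a.swap = p a) :
    MSol ν (tomatM u0) I (fun i x t => tomatM (fun a y => u a y t) i x)
      (fun x t => Matrix.of fun a b => p (a, b) x t) := by
  have hs : ∀ i x t, (tomatM (fun a y => u a y t) i x).IsSymm := fun i x t =>
    Matrix.IsSymm.ext fun a b => by
      have := hu (a, b)
      simp only [Prod.swap_prod_mk] at this
      simp only [tomatM, Matrix.of_apply, this]
  refine ⟨fun i x t _ => hs i x t, fun x t _ => ?_, fun i a b => h.ju (a, b) i,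
    fun a b => h.smooth_p (a, b), fun i x t ht => ?_, fun x t ht => ?_, fun i x => ?_⟩
  · refine Matrix.IsSymm.ext fun a b => ?_
    have := hp (a, b)
    simp only [Prod.swap_prod_mk] at this
    simp only [Matrix.of_apply, this]
  · ext a b
    have h1 := tomat_transport (X := fun j => tomatM (fun a y => u a y t) j x)
      (Y := fun j => pdM j (fun y => tomatM (fun a y => u a y t) i y) x) (fun j => hs j x t)
      (fun j => tomat_pdM_symm (fun y => hs i y t) j x) (a, b)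
    have h2 := h.momentum (a, b) x t ht i
    rw [Matrix.add_apply, Matrix.add_apply, ← h1, Matrix.smul_apply, Matrix.sum_apply, smul_eq_mul]
    exact h2
  · ext a b
    rw [Matrix.sum_apply]
    exact h.divFree (a, b) x t ht
  · ext a b
    simp only [tomatM, Matrix.of_apply, h.initial]

theorem tomat_bwd {n : ℕ} {ν : ℝ} {u0 : Fin n × Fin n → R3 → R3} {I : Set ℝ}
    {U : Fin 3 → R3 → ℝ → Mn n} {P : R3 → ℝ → Mn n} (h : MSol ν (tomatM u0) I U P) :
    CSol ν (cJ n) u0 I (fun a x t => WithLp.toLp 2 fun i => U i x t a.1 a.2)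
      (fun a x t => P x t a.1 a.2) := by
  refine ⟨fun a => ?_, fun a => h.smooth_P a.1 a.2, fun a x t ht i => ?_, fun a x t ht => ?_,
    fun a x => ?_⟩
  · exact (contDiffOn_vec (v := fun x t => WithLp.toLp 2 fun i => U i x t a.1 a.2)).2
      fun i => h.smooth_U i a.1 a.2
  · have h1 := tomat_transport (X := fun j => U j x t)
      (Y := fun j => pdM j (fun y => U i y t) x) (fun j => h.symm_U j x t ht)
      (fun j => tomat_pdM_symm (fun y => h.symm_U i y t ht) j x) a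
    have h2 := congrFun (congrFun (h.momentum i x t ht) a.1) a.2
    rw [Matrix.add_apply, Matrix.add_apply, ← h1, Matrix.smul_apply, Matrix.sum_apply,
      smul_eq_mul] at h2
    exact h2
  · have h2 := congrFun (congrFun (h.divFree x t ht) a.1) a.2
    rw [Matrix.sum_apply] at h2
    exact h2
  · ext i
    simp only [h.initial, tomatM, Matrix.of_apply]

theorem tomat_enorm_sq (v : R3) : ‖v‖ₑ ^ 2 = ∑ i, ‖v i‖ₑ ^ 2 := by
  have h1 : ∀ i, ‖v i‖ₑ ^ 2 = ENNReal.ofReal (v i ^ 2) := fun i => by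
    rw [← ofReal_norm, ← ENNReal.ofReal_pow (norm_nonneg _), Real.norm_eq_abs, sq_abs]
  rw [← ofReal_norm, ← ENNReal.ofReal_pow (norm_nonneg _), norm_sq_eq_sum,
    ENNReal.ofReal_sum_of_nonneg fun i _ => sq_nonneg _]
  exact Finset.sum_congr rfl fun i _ => (h1 i).symm

theorem tomat_energy {n : ℕ} {v : Fin n × Fin n → R3 → R3}
    (hv : ∀ a i, Continuous fun x => v a x i) : menergy (tomatM v) = energy v := by
  have h1 : ∀ a, ∫⁻ x, ‖v a x‖ₑ ^ 2 = ∑ i, ∫⁻ x, ‖v a x i‖ₑ ^ 2 := fun a => by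
    simp only [tomat_enorm_sq]
    exact lintegral_finsetSum _ fun i _ => ((hv a i).measurable.enorm.pow_const 2)
  simp only [menergy, energy, h1, tomatM, Matrix.of_apply]
  rw [Fintype.sum_prod_type, Finset.sum_comm]
  refine Finset.sum_congr rfl fun a _ => ?_
  rw [Finset.sum_comm]

theorem tomat_abs_le (v : R3) (i : Fin 3) : |v i| ≤ ‖v‖ := by
  rw [← Real.norm_eq_abs]
  exact PiLp.norm_apply_le v i
theorem CBlowupS.mblowup {n : ℕ} {ν : ℝ} (h : CBlowupS ν (cJ n) Prod.swap) : MBlowup n ν := by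
  obtain ⟨u0, hdiv, ⟨u, p, hs, hu, hp, hE, W, hW0, hWs, ⟨C, hC⟩, ⟨q, hq, hqs⟩, hlim⟩, hno⟩ := h
  have hc0 : ∀ a i, Continuous fun x => u0 a x i := fun a i =>
    (EuclideanSpace.proj i : R3 →L[ℝ] ℝ).continuous.comp (u0 a).continuous
  have hf := tomat_fwd hs hu hp
  refine ⟨tomatM fun a => u0 a, fun i a b => ?_, fun i x => ?_, fun x => ?_,
    ⟨_, _, hf, fun t ht => ?_, tomatM W, ?_, ⟨C, fun i y a b => ?_⟩,
      ⟨fun x t => Matrix.of fun a b => q (a, b) x t, ?_⟩, fun ε hε => ?_⟩, ?_⟩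
  · exact ⟨SchwartzMap.postcompCLM (EuclideanSpace.proj i : R3 →L[ℝ] ℝ) (u0 (a, b)), fun x => rfl⟩
  · rw [← hf.initial i x]
    exact hf.symm_U i x 0 ⟨le_rfl, one_pos⟩
  · ext a b
    rw [Matrix.sum_apply]
    exact hdiv (a, b) x
  · rw [tomat_energy hc0]
    exact (tomat_energy fun a i => ((hs.ju a i).slice ht).continuous).trans_le (hE t ht)
  · intro h0
    apply hW0
    ext a y i
    exact congrFun (congrFun (congrFun (congrFun h0 i) y) a.1) a.2
  · exact (tomat_abs_le _ i).trans (hC (a, b) y)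
  · exact tomat_fwd hq (fun a => by simp only [hWs a]) hqs
  · obtain ⟨t0, ht0, h1⟩ := hlim ε hε
    exact ⟨t0, ht0, fun t ht i y a b => (tomat_abs_le
      (√(1 - t) • u (a, b) (√(1 - t) • y) t - W (a, b) y) i).trans (h1 t ht (a, b) y)⟩
  · rintro ⟨U, P, hM, C', hC', hb⟩
    have hB := tomat_bwd hM
    refine hno ⟨_, _, hB, C', hC', fun t ht => ?_⟩
    rw [← tomat_energy fun a i => ((hB.ju a i).slice ht).continuous]
    exact hb t ht

end

end Pool.Agent.Work.MP_6bf1e5_an.Mat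
end

-- merged part: Pool.Agent.Work.MP_6bf1e5_an.Mat.Final
section
/-!
Assembly.
-/

open scoped ContDiff ENNReal FourierTransform Topology ComplexConjugate Matrix
open Set MeasureTheory Filter Metric Pool.Agent.Work.MP_6bf1e5_an.Ens

namespace Pool.Agent.Work.MP_6bf1e5_an.Mat

noncomputable section

theorem main {n : ℕ} (hn : 3 ≤ n) {ν : ℝ} (hν : 0 < ν) : MBlowup n ν := by
  obtain ⟨W, hW, hs⟩ := exists_phys hn hν
  refine (Profile.cblowupS hν cJ_sym (hW.profile hν) Prod.swap_swap cJ_swap1 cJ_swap2 cJ_swap3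
    fun ξ a => ?_).mblowup
  funext i
  simp only [hatW, hs]

end

end Pool.Agent.Work.MP_6bf1e5_an.Mat
end
end
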