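import Pool.Agent.Work.MP_6bf1e5_an.Mat.Stmt

/-!
The curl of a vector field on `ℝ³` whose components are matrices.
-/

open Pool.Agent.Work.MP_6bf1e5_an.Ens

namespace Pool.Agent.Work.MP_6bf1e5_an.Mat

noncomputable section

/-- The curl, `(curl V)ᵢ = ∂ᵢ₊₁ Vᵢ₊₂ - ∂ᵢ₊₂ Vᵢ₊₁` with indices modulo `3`. -/
def curlM {n : ℕ} (V : Fin 3 → R3 → Mn n) (i : Fin 3) (x : R3) : Mn n :=
  pdM (i + 1) (V (i + 2)) x - pdM (i + 2) (V (i + 1)) x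

end

end Pool.Agent.Work.MP_6bf1e5_an.Mat
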