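import Pool.Agent.Work.MP_6bf1e5_an.Mat.Stmt
import Pool.Agent.Work.MP_6bf1e5_an.Ens.Basic
import Pool.Agent.Work.MP_6bf1e5_an.Mat.StmtH

-- merged part: Pool.Agent.Work.MP_6bf1e5_an.Mat.LocE
section
/-!
The local energy identity for smooth solutions of the matrix valued system.
-/

open scoped ContDiff ENNReal
open Set MeasureTheory Pool.Agent.Work.MP_6bf1e5_an.Ens

namespace Pool.Agent.Work.MP_6bf1e5_an.Mat

noncomputable section

variable {n : ℕ}

/-- Entrywise smooth. -/
def SM (F : R3 → Mn n) : Prop := ∀ a b, ContDiff ℝ ∞ fun y => F y a b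

theorem SM.mul {F G : R3 → Mn n} (hF : SM F) (hG : SM G) : SM fun y => F y * G y := fun a b => by
  simp only [Matrix.mul_apply]
  exact ContDiff.sum fun c _ => (hF a c).mul (hG c b)

theorem SM.add {F G : R3 → Mn n} (hF : SM F) (hG : SM G) : SM fun y => F y + G y := fun a b =>
  (hF a b).add (hG a b)

theorem SM.smul {F : R3 → Mn n} (hF : SM F) (r : ℝ) : SM fun y => r • F y := fun a b =>
  contDiff_const.mul (hF a b)

theorem SM.sum {F : Fin 3 → R3 → Mn n} (hF : ∀ i, SM (F i)) : SM fun y => ∑ i, F i y :=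
  fun a b => by
  simp only [Matrix.sum_apply]
  exact ContDiff.sum fun i _ => hF i a b

theorem SM.pdM {F : R3 → Mn n} (hF : SM F) (j : Fin 3) : SM (pdM j F) := fun a b =>
  contDiff_pd (hF a b) j

theorem SM.da {F : R3 → Mn n} (hF : SM F) (a b : Fin n) (x : R3) :
    DifferentiableAt ℝ (fun y => F y a b) x := (hF a b).differentiable (by simp) x

theorem locE_mul {F G : R3 → Mn n} (hF : SM F) (hG : SM G) (j : Fin 3) (x : R3) :
    pdM j (fun y => F y * G y) x = pdM j F x * G x + F x * pdM j G x := by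
  ext a b
  simp only [pdM, Matrix.of_apply, Matrix.mul_apply, Matrix.add_apply]
  rw [pd_sum _ fun c _ => (hF.da a c x).fun_mul (hG.da c b x), ← Finset.sum_add_distrib]
  exact Finset.sum_congr rfl fun c _ => pd_mul (hF.da a c x) (hG.da c b x) j

theorem locE_add {F G : R3 → Mn n} (hF : SM F) (hG : SM G) (j : Fin 3) (x : R3) :
    pdM j (fun y => F y + G y) x = pdM j F x + pdM j G x := by
  ext a b
  exact pd_add (hF.da a b x) (hG.da a b x) j

theorem locE_smul (F : R3 → Mn n) (r : ℝ) (j : Fin 3) (x : R3) :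
    pdM j (fun y => r • F y) x = r • pdM j F x := by
  ext a b
  exact pd_const_mul r _ j x

theorem locE_sum {F : Fin 3 → R3 → Mn n} (hF : ∀ i, SM (F i)) (j : Fin 3) (x : R3) :
    pdM j (fun y => ∑ i, F i y) x = ∑ i, pdM j (F i) x := by
  ext a b
  simp only [pdM, Matrix.of_apply, Matrix.sum_apply]
  exact pd_sum _ (fun i _ => (hF i).da a b x) j

theorem locE_trace {F : R3 → Mn n} (hF : SM F) (j : Fin 3) (x : R3) :
    pd j (fun y => (F y).trace) x = (pdM j F x).trace := by
  simp only [Matrix.trace, Matrix.diag_apply]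
  exact pd_sum _ (fun a _ => hF.da a a x) j

theorem locE_time {I : Set ℝ} {t : ℝ} {F : ℝ → Fin 3 → Mn n}
    (hF : ∀ i a b, DifferentiableWithinAt ℝ (fun s => F s i a b) I t) :
    derivWithin (fun s => (∑ i, F s i * F s i).trace / 2) I t =
      ∑ i, (F t i * Matrix.of fun a b => derivWithin (fun s => F s i a b) I t).trace := by
  by_cases hI : UniqueDiffWithinAt ℝ I t
  · have h : HasDerivWithinAt (fun s => (∑ a, ∑ i, ∑ b, F s i a b * F s i b a) / 2)
        ((∑ a, ∑ i, ∑ b, (derivWithin (fun s => F s i a b) I t * F t i b a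
          + F t i a b * derivWithin (fun s => F s i b a) I t)) / 2) I t :=
      (HasDerivWithinAt.fun_sum fun a _ => HasDerivWithinAt.fun_sum fun i _ =>
        HasDerivWithinAt.fun_sum fun b _ =>
          (hF i a b).hasDerivWithinAt.fun_mul (hF i b a).hasDerivWithinAt).div_const 2
    have e : (fun s => (∑ i, F s i * F s i).trace / 2) =
        fun s => (∑ a, ∑ i, ∑ b, F s i a b * F s i b a) / 2 := by
      funext s
      simp only [Matrix.trace, Matrix.diag_apply, Matrix.sum_apply, Matrix.mul_apply]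
    rw [e, h.derivWithin hI]
    simp only [Matrix.trace, Matrix.diag_apply, Matrix.mul_apply, Matrix.of_apply,
      Finset.sum_add_distrib]
    rw [Finset.sum_comm (γ := Fin n) (α := Fin 3), Finset.sum_comm (γ := Fin n) (α := Fin 3)]
    have e2 : ∀ i : Fin 3, ∑ a, ∑ b, derivWithin (fun s => F s i a b) I t * F t i b a =
        ∑ a, ∑ b, F t i a b * derivWithin (fun s => F s i b a) I t := fun i => by
      rw [Finset.sum_comm]
      exact Finset.sum_congr rfl fun a _ => Finset.sum_congr rfl fun b _ => mul_comm _ _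
    simp only [e2]
    ring
  · simp only [derivWithin_zero_of_not_uniqueDiffWithinAt hI]
    symm
    refine Finset.sum_eq_zero fun i _ => ?_
    simp [Matrix.trace, Matrix.mul_apply]

theorem MSol.local_energy {ν : ℝ} {U0 : Fin 3 → R3 → Mn n} {I : Set ℝ}
    {U : Fin 3 → R3 → ℝ → Mn n} {P : R3 → ℝ → Mn n} (h : MSol ν U0 I U P) (x : R3) {t : ℝ}
    (ht : t ∈ I) :
    derivWithin (fun s => (∑ i, U i x s * U i x s).trace / 2) I t
      + ∑ j, pd j (fun y => (U j y t * ((1 / 2 : ℝ) • ∑ i, U i y t * U i y t + P y t)).trace) x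
      = ν * ∑ j, (pd j (pd j fun y => (∑ i, U i y t * U i y t).trace / 2) x
        - ∑ i, (pdM j (fun y => U i y t) x * pdM j (fun y => U i y t) x).trace) := by
  have hU : ∀ i, SM fun y => U i y t := fun i a b => JS.slice (F := fun y s => U i y s a b)
    (h.smooth_U i a b) ht
  have hP : SM fun y => P y t := fun a b => JS.slice (F := fun y s => P y s a b)
    (h.smooth_P a b) ht
  have hS : SM fun y => ∑ i, U i y t * U i y t := SM.sum fun i => (hU i).mul (hU i)
  have hT : ∀ i a b, DifferentiableWithinAt ℝ (fun s => U i x s a b) I t := fun i a b =>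
    (basic_time (F := fun y s => U i y s a b) (h.smooth_U i a b) x ht).differentiableWithinAt
  have dS : ∀ j y, pdM j (fun y => ∑ i, U i y t * U i y t) y =
      ∑ i, (pdM j (fun y => U i y t) y * U i y t + U i y t * pdM j (fun y => U i y t) y) :=
    fun j y => by
    rw [locE_sum (F := fun i y => U i y t * U i y t) fun i => (hU i).mul (hU i)]
    exact Finset.sum_congr rfl fun i _ => locE_mul (hU i) (hU i) j y
  have d1 : ∀ j, (pd j fun y => (∑ i, U i y t * U i y t).trace / 2) =
      fun y => (∑ i, U i y t * pdM j (fun y => U i y t) y).trace := fun j => by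
    funext y
    have e : (fun y => (∑ i, U i y t * U i y t).trace / 2) =
        fun y => 1 / 2 * (∑ i, U i y t * U i y t).trace := by
      funext y
      ring
    rw [e, pd_const_mul, locE_trace hS, dS]
    simp only [Matrix.trace_sum, Matrix.trace_add,
      Matrix.trace_mul_comm (pdM j (fun y => U _ y t) y), Finset.sum_add_distrib]
    ring
  have d2 : ∀ j, pd j (pd j fun y => (∑ i, U i y t * U i y t).trace / 2) x =
      ∑ i, ((pdM j (fun y => U i y t) x * pdM j (fun y => U i y t) x).trace
        + (U i x t * pdM j (pdM j fun y => U i y t) x).trace) := fun j => by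
    rw [d1, locE_trace (SM.sum fun i => (hU i).mul ((hU i).pdM j)),
      locE_sum (F := fun i y => U i y t * pdM j (fun y => U i y t) y)
        fun i => (hU i).mul ((hU i).pdM j), Matrix.trace_sum]
    refine Finset.sum_congr rfl fun i _ => ?_
    rw [locE_mul (hU i) ((hU i).pdM j), Matrix.trace_add]
  have d3 : ∀ j, pd j
      (fun y => (U j y t * ((1 / 2 : ℝ) • ∑ i, U i y t * U i y t + P y t)).trace) x =
      (pdM j (fun y => U j y t) x * ((1 / 2 : ℝ) • ∑ i, U i x t * U i x t + P x t)).trace
      + (1 / 2 * ∑ i, ((U i x t * (U j x t * pdM j (fun y => U i y t) x)).trace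
        + (U i x t * (pdM j (fun y => U i y t) x * U j x t)).trace)
        + (U j x t * pdM j (fun y => P y t) x).trace) := fun j => by
    rw [locE_trace ((hU j).mul ((hS.smul _).add hP)), locE_mul (hU j) ((hS.smul _).add hP),
      locE_add (hS.smul _) hP, locE_smul, dS, Matrix.trace_add, Matrix.mul_add (U j x t),
      Matrix.trace_add, Matrix.mul_smul, Matrix.trace_smul, Matrix.mul_sum, Matrix.trace_sum,
      smul_eq_mul]
    congr 3
    refine Finset.sum_congr rfl fun i _ => ?_
    rw [Matrix.mul_add, Matrix.trace_add, ← Matrix.mul_assoc (U j x t), Matrix.trace_mul_comm _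
      (U i x t), Matrix.trace_mul_comm (U j x t), Matrix.mul_assoc (U i x t)]
  have d4 : ∑ j, (pdM j (fun y => U j y t) x *
      ((1 / 2 : ℝ) • ∑ i, U i x t * U i x t + P x t)).trace = 0 := by
    rw [← Matrix.trace_sum, ← Matrix.sum_mul, h.divFree x t ht, Matrix.zero_mul,
      Matrix.trace_zero]
  have m : ∀ i, (U i x t * Matrix.of fun a b => derivWithin (fun s => U i x s a b) I t).trace
      + 1 / 2 * ∑ j, ((U i x t * (U j x t * pdM j (fun y => U i y t) x)).trace
        + (U i x t * (pdM j (fun y => U i y t) x * U j x t)).trace)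
      + (U i x t * pdM i (fun y => P y t) x).trace
      = ν * ∑ j, (U i x t * pdM j (pdM j fun y => U i y t) x).trace := fun i => by
    have e := congrArg (fun M => (U i x t * M).trace) (h.momentum i x t ht)
    simpa only [Matrix.mul_add, Matrix.trace_add, Matrix.mul_smul, Matrix.trace_smul,
      Matrix.mul_sum, Matrix.trace_sum, smul_eq_mul] using e
  rw [locE_time (F := fun s i => U i x s) hT]
  simp only [d2, d3, Finset.sum_add_distrib]
  rw [d4]
  have m0 := m 0
  have m1 := m 1
  have m2 := m 2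
  simp only [Fin.sum_univ_three] at m0 m1 m2 ⊢
  linarith

end

end Pool.Agent.Work.MP_6bf1e5_an.Mat
end

-- merged part: Pool.Agent.Work.MP_6bf1e5_an.Mat.LocH
section
/-!
The helicity cancellation for the transport term of the matrix valued system.
-/

open scoped ContDiff ENNReal
open Set MeasureTheory Pool.Agent.Work.MP_6bf1e5_an.Ens

namespace Pool.Agent.Work.MP_6bf1e5_an.Mat

noncomputable section

variable {n : ℕ}

theorem SM.sub {F G : R3 → Mn n} (hF : SM F) (hG : SM G) : SM fun y => F y - G y := fun a b =>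
  (hF a b).sub (hG a b)

theorem locH_sub {F G : R3 → Mn n} (hF : SM F) (hG : SM G) (j : Fin 3) (x : R3) :
    pdM j (fun y => F y - G y) x = pdM j F x - pdM j G x := by
  ext a b
  exact pd_sub (hF.da a b x) (hG.da a b x) j

theorem locH_comm {F : R3 → Mn n} (hF : SM F) (i j : Fin 3) (x : R3) :
    pdM i (pdM j F) x = pdM j (pdM i F) x := by
  ext a b
  exact pd_comm (hF a b) i j x

theorem locH_alg (A : Fin 3 → Mn n) (D : Fin 3 → Fin 3 → Mn n) :
    ∑ i, ((D (i + 1) (i + 2) - D (i + 2) (i + 1)) * ∑ j, (A j * D j i + D j i * A j)).trace =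
      ∑ i, ((D (i + 1) (i + 2) - D (i + 2) (i + 1)) * ∑ j, (D i j * A j + A j * D i j)).trace := by
  have h1 : ∀ (X Y : Mn n) (j : Fin 3), (X * (A j * Y)).trace = (A j * (Y * X)).trace :=
    fun X Y j => by rw [Matrix.trace_mul_comm, Matrix.mul_assoc]
  have h2 : ∀ (X Y : Mn n) (j : Fin 3), (X * (Y * A j)).trace = (A j * (X * Y)).trace :=
    fun X Y j => by rw [← Matrix.mul_assoc, Matrix.trace_mul_comm]
  simp only [Matrix.mul_sum, Matrix.mul_add, Matrix.trace_sum, Matrix.trace_add, h1, h2]
  simp only [Fin.sum_univ_three, Matrix.mul_sub, Matrix.sub_mul, Matrix.trace_sub, Fin.isValue,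
    zero_add, Fin.reduceAdd]
  ring

theorem helicity_cancel {V : Fin 3 → R3 → Mn n}
    (hV : ∀ i a b, ContDiff ℝ ∞ fun y => V i y a b) (x : R3) :
    ∑ i, (curlM V i x * ∑ j, (V j x * pdM j (V i) x + pdM j (V i) x * V j x)).trace =
      ∑ i, pd i (fun y => (curlM V i y * ∑ j, V j y * V j y).trace) x := by
  have hU : ∀ i, SM (V i) := hV
  have hC : ∀ i, SM (curlM V i) := fun i => ((hU _).pdM _).sub ((hU _).pdM _)
  have hS : SM fun y => ∑ i, V i y * V i y := SM.sum fun i => (hU i).mul (hU i)
  have d1 : ∀ i, pd i (fun y => (curlM V i y * ∑ j, V j y * V j y).trace) x =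
      (pdM i (curlM V i) x * ∑ j, V j x * V j x).trace
        + (curlM V i x * ∑ j, (pdM i (V j) x * V j x + V j x * pdM i (V j) x)).trace :=
    fun i => by
    rw [locE_trace ((hC i).mul hS), locE_mul (hC i) hS, Matrix.trace_add,
      locE_sum (F := fun j y => V j y * V j y) fun j => (hU j).mul (hU j)]
    simp only [fun j => locE_mul (hU j) (hU j) i x]
  have d2 : ∑ i, pdM i (curlM V i) x = 0 := by
    have e : ∀ i, pdM i (curlM V i) x =
        pdM i (pdM (i + 1) (V (i + 2))) x - pdM i (pdM (i + 2) (V (i + 1))) x := fun i =>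
      locH_sub ((hU _).pdM _) ((hU _).pdM _) i x
    simp only [e, Fin.sum_univ_three, Fin.isValue, zero_add, Fin.reduceAdd]
    rw [locH_comm (hU 2) 0 1, locH_comm (hU 1) 0 2, locH_comm (hU 0) 1 2]
    abel
  simp only [d1, Finset.sum_add_distrib (f := fun i => (pdM i (curlM V i) x * _).trace)]
  rw [← Matrix.trace_sum _ fun i => pdM i (curlM V i) x * _, ← Matrix.sum_mul, d2,
    Matrix.zero_mul, Matrix.trace_zero, zero_add]
  exact locH_alg (fun j => V j x) fun j i => pdM j (V i) x

end

end Pool.Agent.Work.MP_6bf1e5_an.Mat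
end
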